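import Pool.Agent.H.MP_e5d137_al.UB.BarFill

/-!
# Filling by collapsing the subdivision
-/

namespace Pool.Agent.H.MP_e5d137_al.GLn

open Finsupp
open Pool.Agent.H.MP_e5d137_al.UB

variable {G : Type} [Group G] {E : G → ℕ}

/-- if a chain vanishes off the lists with adjacent equal entries, so does its image -/
lemma mp_adj {V W : Type} (f : V → W) (c : Ch V) (h : ∀ τ, ¬ AdjEq τ → c τ = 0) (τ : List W)
    (hτ : ¬ AdjEq τ) : mp f c τ = 0 := by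
  by_contra hne
  obtain ⟨τ', h1, h2⟩ := supp_mp (Finsupp.mem_support_iff.2 hne)
  refine (Finsupp.mem_support_iff.1 h1) (h τ' fun hadj => hτ ?_)
  obtain ⟨l₁, a, l₂, rfl⟩ := hadj
  refine ⟨l₁.map f, f a, l₂.map f, ?_⟩
  rw [h2]
  simp

/-- Filling of a cycle by a collapse (compare `UB.barfill_two`, same proof).

Proof.  Let `Φ` be the map of `exists_Phi` for `k = m + 1` and `X ^ 3`; `A = barfillA Φ κ`.  For
`P σ := ∃ σ' ∈ z.support, σ.Sublist σ'` the hypotheses of `exists_hty` (with `X ^ 3`, power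
`cΦ + (m + 1)! + 1`) hold: the entries of `τ.map κ`, `τ ∈ (sdl σ).support`, are `κ ρ`, `ρ`
nonempty sublists of `σ`, and `E ((κ ρ)⁻¹ κ ρ') ≤ X R X ≤ X ^ 3`.  And
`lc A z = lc Φ (mp κ (sd z)) = 0` (`barfill_lcA`), because all lists in the support of
`mp κ (sd z)` satisfy `AdjEq` and `Φ` kills them.  So `y = - lc η z`. -/
theorem collapse_fill (hE : Szf E) (hc : Cone E) (m R : ℕ) (hR : 2 ≤ R) :
    ∃ R' c : ℕ, ∀ X : ℕ, R ≤ X → ∀ z : Ch G,
    (∀ σ ∈ z.support, σ.length = m + 1 ∧ Small E R σ) → bd z = 0 → ∀ κ : List G → G,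
    (∀ σ ∈ z.support, ∀ ρ : List G, ρ ≠ [] → ρ.Sublist σ → ∀ a ∈ ρ, E (a⁻¹ * κ ρ) ≤ X) →
    (∀ τ : List G, ¬ AdjEq τ → mp κ (sd z) τ = 0) →
    ∃ y : Ch G, (∀ τ ∈ y.support, τ.length = m + 2 ∧ Small E R' τ) ∧ bd y = z ∧
      ms y ≤ X ^ c * ms z := by
  obtain ⟨RΦ, cΦ, hΦ⟩ := exists_Phi hE hc (m + 1)
  obtain ⟨RH, cH, hH⟩ := exists_hty hE hc (m + 1) R RΦ (cΦ + (m + 1).factorial + 1)
  refine ⟨RH, 3 * cH, ?_⟩
  intro X hRX z hz hbz κ hκ hadj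
  have hX2 : 2 ≤ X := hR.trans hRX
  obtain ⟨Y, hY⟩ : ∃ Y : ℕ, Y = X ^ 3 := ⟨_, rfl⟩
  have hXY : X ^ 2 ≤ Y := by
    rw [hY]
    exact Nat.pow_le_pow_right (by omega) (by norm_num)
  have hY2 : 2 ≤ Y := by
    have : X ≤ X ^ 2 := Nat.le_self_pow (by norm_num) X
    omega
  obtain ⟨Φ, hΦ0, _, hΦ2⟩ := hΦ Y hY2
  obtain ⟨P, hPd⟩ : ∃ P : List G → Prop, ∀ σ, P σ ↔ ∃ σ' ∈ z.support, σ.Sublist σ' :=
    ⟨fun σ => ∃ σ' ∈ z.support, σ.Sublist σ', fun _ => Iff.rfl⟩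
  have hP : ∀ σ τ : List G, τ.Sublist σ → P σ → P τ := by
    intro σ τ h h1
    obtain ⟨σ', h2, h3⟩ := (hPd σ).1 h1
    exact (hPd τ).2 ⟨σ', h2, h.trans h3⟩
  have hPz : ∀ σ ∈ z.support, P σ := fun σ hσ => (hPd σ).2 ⟨σ, hσ, List.Sublist.refl σ⟩
  -- the entries of the collapsed subdivision
  have hent : ∀ σ : List G, ∀ τ ∈ (sdl σ).support, ∀ b ∈ τ.map κ,
      ∃ ρ : List G, ρ ≠ [] ∧ ρ.Sublist σ ∧ b = κ ρ := by
    intro σ τ hτ b hb
    obtain ⟨ρ', hρ', rfl⟩ := List.mem_map.1 hb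
    obtain ⟨h1, h2⟩ := (supp_sdl hτ).2.1 ρ' hρ'
    exact ⟨ρ', h1, h2, rfl⟩
  have hκP : ∀ σ : List G, P σ → ∀ ρ : List G, ρ ≠ [] → ρ.Sublist σ → ∀ a ∈ ρ,
      E (a⁻¹ * κ ρ) ≤ X := by
    intro σ hσ ρ h1 h2 a ha
    obtain ⟨σ', h3, h4⟩ := (hPd σ).1 hσ
    exact hκ σ' h3 ρ h1 (h2.trans h4) a ha
  have hsm : ∀ σ : List G, Small E R σ → P σ → ∀ τ ∈ (sdl σ).support,
      Small E Y (τ.map κ) := by
    intro σ hσ hσP τ hτ b hb b' hb'
    obtain ⟨ρ, h1, h2, rfl⟩ := hent σ τ hτ b hb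
    obtain ⟨ρ', h1', h2', rfl⟩ := hent σ τ hτ b' hb'
    obtain ⟨a, ha⟩ := List.exists_mem_of_ne_nil _ h1
    obtain ⟨a', ha'⟩ := List.exists_mem_of_ne_nil _ h1'
    calc E ((κ ρ)⁻¹ * κ ρ') ≤ E ((κ ρ)⁻¹ * a) * E (a⁻¹ * κ ρ') := barfill_tri hE _ _ _
      _ ≤ E ((κ ρ)⁻¹ * a) * (E (a⁻¹ * a') * E (a'⁻¹ * κ ρ')) :=
          Nat.mul_le_mul_left _ (barfill_tri hE _ _ _)
      _ ≤ X * (X * X) := by
          refine Nat.mul_le_mul ?_ (Nat.mul_le_mul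
            ((hσ a (h2.subset ha) a' (h2'.subset ha')).trans hRX) (hκP σ hσP ρ' h1' h2' a' ha'))
          rw [barfill_symm hE]
          exact hκP σ hσP ρ h1 h2 a ha
      _ = Y := by rw [hY]; ring
  have hlen : ∀ σ : List G, ∀ τ ∈ (sdl σ).support, (τ.map κ).length = σ.length := by
    intro σ τ hτ
    rw [List.length_map]
    exact (supp_sdl hτ).1
  have hA0 : barfillA Φ κ [] = single [] 1 := by
    unfold barfillA
    rw [sdl_nil, mp_single, List.map_nil, Finsupp.linearCombination_single, hΦ0, one_smul]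
  have hA : ∀ σ : List G, σ.length ≤ m + 1 → Small E R σ → P σ →
      bd (barfillA Φ κ σ) = Finsupp.linearCombination ℤ (barfillA Φ κ) (bdl σ) ∧
      (∀ τ ∈ (barfillA Φ κ σ).support, τ.length = σ.length ∧ Small E RΦ τ ∧
        ∀ a ∈ σ, Near E a (Y ^ (cΦ + (m + 1).factorial + 1)) τ) ∧
      ms (barfillA Φ κ σ) ≤ Y ^ (cΦ + (m + 1).factorial + 1) := by
    intro σ hσ1 hσ2 hσ3
    have hΦσ : ∀ τ ∈ (sdl σ).support, _ := fun τ hτ =>
      hΦ2 (τ.map κ) ((hlen σ τ hτ).le.trans hσ1) (hsm σ hσ2 hσ3 τ hτ)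
    refine ⟨?_, ?_, ?_⟩
    · apply barfill_bdA
      intro τ hτ
      exact (hΦσ τ hτ).1
    · intro τ hτ
      unfold barfillA at hτ
      obtain ⟨τ', hτ', hτ⟩ := supp_lc _ _ hτ
      obtain ⟨τ'', hτ'', rfl⟩ := supp_mp hτ'
      obtain ⟨h1, h2, h3⟩ := (hΦσ τ'' hτ'').2.2.1 τ hτ
      refine ⟨h1.trans (hlen σ τ'' hτ''), h2, ?_⟩
      intro a ha t ht
      have h4 : τ''.map κ ≠ [] := by
        intro h5
        have h6 := hlen σ τ'' hτ''
        rw [h5, List.length_nil] at h6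
        rw [List.length_eq_zero_iff.1 h6.symm] at ha
        exact absurd ha List.not_mem_nil
      obtain ⟨b, hb⟩ := List.exists_mem_of_ne_nil _ h4
      obtain ⟨ρ, h5, h6, rfl⟩ := hent σ τ'' hτ'' b hb
      obtain ⟨b', hb'⟩ := List.exists_mem_of_ne_nil _ h5
      calc E (a⁻¹ * t) ≤ E (a⁻¹ * b') * E (b'⁻¹ * t) := barfill_tri hE _ _ _
        _ ≤ E (a⁻¹ * b') * (E (b'⁻¹ * κ ρ) * E ((κ ρ)⁻¹ * t)) :=
            Nat.mul_le_mul_left _ (barfill_tri hE _ _ _)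
        _ ≤ X * (X * Y ^ cΦ) := Nat.mul_le_mul ((hσ2 a ha b' (h6.subset hb')).trans hRX)
            (Nat.mul_le_mul (hκP σ hσ3 ρ h5 h6 b' hb') (h3 _ hb t ht))
        _ = X ^ 2 * Y ^ cΦ := by ring
        _ ≤ Y * Y ^ cΦ := Nat.mul_le_mul_right _ hXY
        _ = Y ^ (cΦ + 1) := by ring
        _ ≤ Y ^ (cΦ + (m + 1).factorial + 1) := Nat.pow_le_pow_right (by omega) (by omega)
    · unfold barfillA
      calc ms (Finsupp.linearCombination ℤ Φ (mp κ (sdl σ)))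
          ≤ Y ^ cΦ * ms (mp κ (sdl σ)) := by
            apply ms_lc_le
            intro τ' hτ'
            obtain ⟨τ, hτ, rfl⟩ := supp_mp hτ'
            exact (hΦσ τ hτ).2.2.2
        _ ≤ Y ^ cΦ * (m + 1).factorial := by
            apply Nat.mul_le_mul_left
            exact (ms_mp _ _).trans ((ms_sdl σ).trans (Nat.factorial_le hσ1))
        _ ≤ Y ^ cΦ * Y ^ (m + 1).factorial := by
            apply Nat.mul_le_mul_left
            exact (Nat.lt_pow_self (by omega)).le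
        _ = Y ^ (cΦ + (m + 1).factorial) := by ring
        _ ≤ Y ^ (cΦ + (m + 1).factorial + 1) := Nat.pow_le_pow_right (by omega) (by omega)
  obtain ⟨η, hη⟩ := hH Y hY2 P hP (barfillA Φ κ) hA0 hA
  have hη' : ∀ σ ∈ z.support, _ := fun σ hσ =>
    hη σ (hz σ hσ).1.le (hz σ hσ).2 (hPz σ hσ)
  -- the collapse of the cycle
  have hAz : Finsupp.linearCombination ℤ (barfillA Φ κ) z = 0 := by
    rw [barfill_lcA, lc_congr Φ (fun _ => 0) (mp κ (sd z)) ?_]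
    · simp [Finsupp.linearCombination_apply]
    · intro τ' hτ'
      have hadj' : AdjEq τ' := by
        by_contra h1
        exact (Finsupp.mem_support_iff.1 hτ') (hadj τ' h1)
      obtain ⟨τ, hτ, rfl⟩ := supp_mp hτ'
      unfold sd at hτ
      obtain ⟨σ, hσ, h1⟩ := supp_lc _ _ hτ
      exact (hΦ2 (τ.map κ) ((hlen σ τ h1).le.trans (hz σ hσ).1.le)
        (hsm σ (hz σ hσ).2 (hPz σ hσ) τ h1)).2.1 hadj'
  refine ⟨-(Finsupp.linearCombination ℤ η z), ?_, ?_, ?_⟩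
  · intro τ hτ
    obtain ⟨σ, hσ, h1⟩ := supp_lc _ _ (supp_neg hτ)
    obtain ⟨h2, h3⟩ := (hη' σ hσ).2.1 τ h1
    exact ⟨by rw [h2, (hz σ hσ).1], h3⟩
  · have h1 : bd (Finsupp.linearCombination ℤ η z) = -z := by
      rw [barfill_comp bd, lc_congr (fun a => bd (η a))
        (fun a => (Finsupp.linearCombination ℤ (barfillA Φ κ) - LinearMap.id -
          Finsupp.linearCombination ℤ η ∘ₗ bd : Ch G →ₗ[ℤ] Ch G) (single a 1)) z ?_, ← barfill_comp]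
      · have h2 : Finsupp.linearCombination ℤ (fun a => single a (1 : ℤ)) z = z := by
          rw [Finsupp.linearCombination_apply]
          simp [Finsupp.sum_single]
        rw [h2]
        simp [hbz, hAz]
      · intro σ hσ
        rw [(hη' σ hσ).1]
        simp
    rw [map_neg, h1, neg_neg]
  · rw [ms_neg]
    calc ms (Finsupp.linearCombination ℤ η z) ≤ Y ^ cH * ms z :=
          ms_lc_le _ _ _ (fun σ hσ => (hη' σ hσ).2.2)
      _ = X ^ (3 * cH) * ms z := by rw [hY, ← pow_mul]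

end Pool.Agent.H.MP_e5d137_al.GLn
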