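import Pool.Agent.H.MP_e5d137_al.GLn.CombA

/-!
# The collapse of a cycle of dimension at least the rank
-/

namespace Pool.Agent.H.MP_e5d137_al.GLn

open Finsupp
open Pool.Agent.H.MP_e5d137_al.UB

variable {G : Type} {d : ℕ}

/-- the height of a vertex -/
def Comb_h (y : (Fin d → ℤ) × Set G) : ℤ := ∑ i, y.1 i

/-- unit steps -/
def Comb_U (y y' : (Fin d → ℤ) × Set G) : Prop := Comb_h y' = Comb_h y + 1

lemma Comb_ex {l : List ((Fin d → ℤ) × Set G)} {x : (Fin d → ℤ) × Set G}
    (h : List.IsChain Comb_U (x :: l)) : ∃ y ∈ x :: l, Comb_h y = Comb_h x + l.length := by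
  induction l generalizing x with
  | nil => exact ⟨x, by simp, by simp⟩
  | cons w l ih =>
    rw [List.isChain_cons_cons] at h
    obtain ⟨y, hy, h2⟩ := ih h.2
    refine ⟨y, List.mem_cons_of_mem _ hy, ?_⟩
    have h3 : Comb_h w = Comb_h x + 1 := h.1
    rw [h2, h3, List.length_cons]
    push_cast
    ring

lemma Comb_last {l : List ((Fin d → ℤ) × Set G)} {x w : (Fin d → ℤ) × Set G}
    (h : List.IsChain Comb_U (x :: (l ++ [w]))) : Comb_h w = Comb_h x + l.length + 1 := by
  induction l generalizing x with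
  | nil =>
    rw [List.nil_append, List.isChain_cons_cons] at h
    have h3 : Comb_h w = Comb_h x + 1 := h.1
    simp [h3]
  | cons v l ih =>
    rw [List.cons_append, List.isChain_cons_cons] at h
    have h2 := ih h.2
    have h3 : Comb_h v = Comb_h x + 1 := h.1
    rw [h2, h3, List.length_cons]
    push_cast
    ring

lemma Comb_unit {l : List ((Fin d → ℤ) × Set G)} {x : (Fin d → ℤ) × Set G}
    (h : List.IsChain (fun y y' => Comb_h y < Comb_h y') (x :: l))
    (hb : ∀ y ∈ x :: l, Comb_h y ≤ Comb_h x + l.length) : List.IsChain Comb_U (x :: l) := by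
  induction l generalizing x with
  | nil => simp
  | cons w l ih =>
    rw [List.isChain_cons_cons] at h
    have h1 : Comb_h x < Comb_h w := h.1
    have h2 := ih h.2 (fun y hy => by
      have := hb y (List.mem_cons_of_mem _ hy)
      rw [List.length_cons] at this
      push_cast at this
      linarith [Int.add_one_le_iff.2 h1])
    obtain ⟨y, hy, h3⟩ := Comb_ex h2
    have h4 := hb y (List.mem_cons_of_mem _ hy)
    rw [List.length_cons] at h4
    push_cast at h4
    rw [List.isChain_cons_cons]
    refine ⟨?_, h2⟩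
    show Comb_h w = Comb_h x + 1
    have h5 := Int.add_one_le_iff.2 h1
    linarith

/-- a sublist with one entry less, both with unit steps -/
lemma Comb_sub {f t : List ((Fin d → ℤ) × Set G)} (h : f.Sublist t) (hl : f.length + 1 = t.length)
    (hf : List.IsChain Comb_U f) (ht : List.IsChain Comb_U t) :
    (∃ w, t = f ++ [w]) ∨ ∃ y, t = y :: f := by
  induction h with
  | slnil => simp at hl
  | cons a h' ih =>
    right
    rename_i l₁ l₂
    refine ⟨a, ?_⟩
    rw [List.length_cons] at hl
    rw [h'.eq_of_length (by omega)]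
  | cons_cons a h' ih =>
    rename_i l₁ l₂
    rw [List.length_cons, List.length_cons] at hl
    have h1 := ih (by omega) hf.tail ht.tail
    rcases h1 with ⟨w, rfl⟩ | ⟨y, rfl⟩
    · exact Or.inl ⟨w, rfl⟩
    · cases l₁ with
      | nil => exact Or.inl ⟨y, rfl⟩
      | cons v l =>
        exfalso
        rw [List.isChain_cons_cons] at hf ht
        have e1 : Comb_h v = Comb_h a + 1 := hf.1
        have e2 : Comb_h y = Comb_h a + 1 := ht.1
        have h3 := ht.2
        rw [List.isChain_cons_cons] at h3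
        have e3 : Comb_h v = Comb_h y + 1 := h3.1
        omega

lemma Comb_coef {f : List ((Fin d → ℤ) × Set G)} {w : (Fin d → ℤ) × Set G}
    (h : List.IsChain Comb_U (f ++ [w])) : (bdl (f ++ [w])) f = (-1) ^ f.length := by
  induction f with
  | nil => simp [bdl]
  | cons x f ih =>
    rw [List.cons_append] at h ⊢
    have h1 : f ++ [w] ≠ x :: f := by
      cases f with
      | nil =>
        intro e
        rw [List.nil_append, List.isChain_cons_cons] at h
        have e1 : Comb_h w = Comb_h x + 1 := h.1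
        have e2 : w = x := by simpa using e
        rw [e2] at e1
        omega
      | cons v f =>
        intro e
        rw [List.cons_append, List.isChain_cons_cons] at h
        have e1 : Comb_h v = Comb_h x + 1 := h.1
        rw [List.cons_append] at e
        have e2 : v = x := (List.cons_eq_cons.1 e).1
        rw [e2] at e1
        omega
    rw [bdl, Finsupp.sub_apply, Finsupp.single_apply, if_neg h1]
    have h2 : (cn x (bdl (f ++ [w]))) (x :: f) = (bdl (f ++ [w])) f := by
      rw [cn, Finsupp.lmapDomain_apply]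
      exact Finsupp.mapDomain_apply (List.cons_injective) _ _
    rw [h2, ih h.tail, List.length_cons, pow_succ]
    ring

lemma Comb_le (y y' : (Fin d → ℤ) × Set G) (h : ∀ i, y.1 i ≤ y'.1 i + 1) :
    Comb_h y ≤ Comb_h y' + d := by
  unfold Comb_h
  calc ∑ i, y.1 i ≤ ∑ i, (y'.1 i + 1) := Finset.sum_le_sum (fun i _ => h i)
    _ = _ := by rw [Finset.sum_add_distrib]; simp

lemma Comb_eq (y y' : (Fin d → ℤ) × Set G) (h : ∀ i, y.1 i ≤ y'.1 i + 1)
    (he : Comb_h y = Comb_h y' + d) : y.1 = fun i => y'.1 i + 1 := by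
  have h1 : ∑ i, y.1 i = ∑ i, (y'.1 i + 1) := by
    rw [Finset.sum_add_distrib]
    simpa [Comb_h] using he
  have h2 := (Finset.sum_eq_sum_iff_of_le (fun i _ => h i)).1 h1
  funext i
  exact h2 i (Finset.mem_univ i)

lemma Comb_chain {m : ℕ} (hm : d ≤ m) {Q : (Fin d → ℤ) → G → G → Prop}
    {τ : List ((Fin d → ℤ) × Set G)} (h1 : τ.length = m + 1)
    (h2 : τ.Pairwise (fun y y' => y.1 ≤ y'.1))
    (h3 : ∀ y ∈ τ, ∀ y' ∈ τ, ∀ i, y.1 i ≤ y'.1 i + 1) {a : G}
    (h4 : ∀ y ∈ τ, y.2 = {b | Q y.1 a b}) (hτ : ¬ AdjEq τ) :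
    List.IsChain Comb_U τ := by
  have hc : List.IsChain (fun y y' => Comb_h y < Comb_h y') τ := by
    rw [List.isChain_iff_forall_rel_of_append_cons_cons]
    intro y y' l₁ l₂ hl
    have hy : y ∈ τ := by rw [hl]; simp
    have hy' : y' ∈ τ := by rw [hl]; simp
    have hle : y.1 ≤ y'.1 := by
      rw [hl, List.pairwise_append] at h2
      have h5 := h2.2.1
      rw [List.pairwise_cons] at h5
      exact h5.1 y' List.mem_cons_self
    have hle' : Comb_h y ≤ Comb_h y' := Finset.sum_le_sum (fun i _ => hle i)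
    refine lt_of_le_of_ne hle' (fun heq => hτ ?_)
    have h6 := (Finset.sum_eq_sum_iff_of_le (fun i (_ : i ∈ Finset.univ) => hle i)).1 heq
    have h7 : y.1 = y'.1 := funext (fun i => h6 i (Finset.mem_univ i))
    have h8 : y = y' := by
      refine Prod.ext h7 ?_
      rw [h4 y hy, h4 y' hy', h7]
    exact ⟨l₁, y, l₂, by rw [hl, ← h8]⟩
  cases τ with
  | nil => simp at h1
  | cons x l =>
    refine Comb_unit hc (fun y hy => ?_)
    have h5 := Comb_le y x (h3 y hy x List.mem_cons_self)
    rw [List.length_cons] at h1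
    have h6 : l.length = m := by omega
    rw [h6]
    have h7 : (d : ℤ) ≤ m := by exact_mod_cast hm
    linarith

lemma Comb_main {m : ℕ} (hm1 : 1 ≤ m) (hm : d ≤ m) (Q : (Fin d → ℤ) → G → G → Prop)
    (hQ : ∀ α, Equivalence (Q α)) (hmono : ∀ α β a b, α ≤ β → Q α a b → Q β a b)
    (ζ : Ch ((Fin d → ℤ) × Set G))
    (hs : ∀ τ ∈ ζ.support, τ.length = m + 1 ∧ τ.Pairwise (fun y y' => y.1 ≤ y'.1) ∧
      (∀ y ∈ τ, ∀ y' ∈ τ, ∀ i, y.1 i ≤ y'.1 i + 1) ∧
      ∃ a : G, ∀ y ∈ τ, y.2 = {b | Q y.1 a b}) (hz : bd ζ = 0)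
    (τ : List ((Fin d → ℤ) × Set G)) (hτ : ¬ AdjEq τ) : ζ τ = 0 := by
  classical
  by_contra hne
  obtain ⟨τ₀, h0, hmin⟩ := (ζ.support.filter (fun τ => ¬ AdjEq τ)).exists_min_image
    (fun τ => (τ.map Comb_h).sum)
    ⟨τ, Finset.mem_filter.2 ⟨Finsupp.mem_support_iff.2 hne, hτ⟩⟩
  rw [Finset.mem_filter] at h0
  obtain ⟨h01, h02⟩ := h0
  obtain ⟨p1, p2, p3, a, p4⟩ := hs τ₀ h01
  have hch := Comb_chain hm p1 p2 p3 p4 h02
  -- decomposition
  obtain ⟨x, f, w, rfl⟩ : ∃ x f w, τ₀ = x :: (f ++ [w]) := by
    cases τ₀ with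
    | nil => simp at p1
    | cons x l =>
      rcases List.eq_nil_or_concat' l with rfl | ⟨f, w, rfl⟩
      · simp at p1
        omega
      · exact ⟨x, f, w, rfl⟩
  have hfl : f.length + 1 = m := by
    simp at p1
    omega
  have hw := Comb_last hch
  have hwx := p3 w (by simp) x (by simp)
  have hmd : m = d := by
    have h5 := Comb_le w x hwx
    have h6 : (m : ℤ) ≤ d := by
      have : ((f.length + 1 : ℕ) : ℤ) = m := by rw [hfl]
      push_cast at this
      linarith
    have h7 : m ≤ d := by exact_mod_cast h6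
    omega
  have hw1 : w.1 = fun i => x.1 i + 1 := by
    refine Comb_eq w x hwx ?_
    have : ((f.length + 1 : ℕ) : ℤ) = d := by rw [hfl, hmd]
    push_cast at this
    linarith
  have key : (bd ζ) (x :: f) = ζ (x :: (f ++ [w])) * (bdl (x :: (f ++ [w]))) (x :: f) := by
    rw [bd, Finsupp.linearCombination_apply, Finsupp.sum, Finsupp.finsetSum_apply]
    rw [Finset.sum_eq_single (x :: (f ++ [w]))]
    · rw [Finsupp.smul_apply, smul_eq_mul]
    · intro τ' hτ' hne'
      rw [Finsupp.smul_apply, smul_eq_mul]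
      by_contra hcon
      have hc2 : (bdl τ') (x :: f) ≠ 0 := fun e => hcon (by rw [e, mul_zero])
      have hmem : x :: f ∈ (bdl τ').support := Finsupp.mem_support_iff.2 hc2
      obtain ⟨s1, s2⟩ := supp_bdl hmem
      have hna : ¬ AdjEq τ' := by
        intro had
        obtain ⟨l₁, c, l₂, hl⟩ := adjEq_bdl had hmem
        apply h02
        refine ⟨l₁, c, l₂ ++ [w], ?_⟩
        rw [← List.cons_append, hl]
        simp
      obtain ⟨q1, q2, q3, a', q4⟩ := hs τ' hτ'
      have hch' := Comb_chain hm q1 q2 q3 q4 hna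
      have hchf : List.IsChain Comb_U (x :: f) := by
        rw [← List.cons_append] at hch
        exact hch.left_of_append
      rcases Comb_sub s1 s2 hchf hch' with ⟨w', rfl⟩ | ⟨y, rfl⟩
      · apply hne'
        rw [List.cons_append] at hch'
        have hw' := Comb_last hch'
        have hwx' := q3 w' (by simp) x (by simp)
        have hw1' : w'.1 = fun i => x.1 i + 1 := by
          refine Comb_eq w' x hwx' ?_
          have : ((f.length + 1 : ℕ) : ℤ) = d := by rw [hfl, hmd]
          push_cast at this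
          linarith
        have e1 : w'.1 = w.1 := by rw [hw1, hw1']
        have ex1 := p4 x (by simp)
        have ex2 := q4 x (by simp)
        have hxw : x.1 ≤ w.1 := by
          rw [hw1]
          intro i
          show x.1 i ≤ x.1 i + 1
          omega
        have haa : Q x.1 a a' := by
          have : a' ∈ x.2 := by
            rw [ex2]
            exact (hQ _).refl a'
          rw [ex1] at this
          exact this
        have haa2 : Q w.1 a a' := hmono _ _ _ _ hxw haa
        have e2 : w'.2 = w.2 := by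
          rw [q4 w' (by simp), p4 w (by simp), e1]
          ext b
          exact ⟨fun hb => (hQ _).trans haa2 hb, fun hb => (hQ _).trans ((hQ _).symm haa2) hb⟩
        rw [List.cons_append, Prod.ext e1 e2]
      · have h5 := hmin (y :: x :: f) (Finset.mem_filter.2 ⟨hτ', hna⟩)
        rw [List.isChain_cons_cons] at hch'
        have h6 : Comb_h x = Comb_h y + 1 := hch'.1
        simp only [List.map_cons, List.sum_cons, List.map_append, List.sum_append, List.map_nil,
          List.sum_nil] at h5
        have h7 : (0 : ℤ) ≤ f.length := by positivity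
        linarith
    · intro hn
      rw [Finsupp.notMem_support_iff.1 hn]
      simp
  rw [hz, ← List.cons_append, Comb_coef (by rw [List.cons_append]; exact hch)] at key
  have h8 : ζ (x :: f ++ [w]) = 0 := by
    have h9 : ((-1 : ℤ)) ^ (x :: f).length ≠ 0 := pow_ne_zero _ (by norm_num)
    have h10 := key.symm
    rw [Finsupp.zero_apply] at h10
    exact (mul_eq_zero.1 h10).resolve_right h9
  exact Finsupp.mem_support_iff.1 h01 h8

/-- Vanishing.

Proof.  `ζ = mp (kY lev Q) (sd z)` is a cycle.  Let `τ = [y_0, ..., y_m]` be in its support and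
not `AdjEq`.  Levels increase weakly and classes are those of a common element, so adjacent
entries with equal level are equal: the levels `α_0 < α_1 < ... < α_m` increase strictly inside a
unit cube of dimension `d`, so `m ≤ d`, hence `m = d` and every step is one unit vector.
We show `ζ τ = 0` by induction on `∑ i, α_0 i` (bounded below on the finite support).
Let `f = [y_0, ..., y_{d-1}]`; `0 = (bd ζ) f = ∑_{τ'} ζ τ' (bdl τ') f`.  If `ζ τ' ≠ 0` and
`(bdl τ') f ≠ 0` then `τ'` is not `AdjEq` (`adjEq_bdl`), so it has the same form, and `f` is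
`τ'` with one entry deleted.  Not an inner entry: `f` has unit steps, `τ'` would have a step of
two.  Last entry: then `τ'` and `τ` agree except possibly in the last entry; the level of the
last entry of both is `α_0 + (1, ..., 1)`, the class is that of an element of the class `y_0`: so
`τ' = τ`, and `(bdl τ) f = ± 1`.  First entry: the first level of `τ'` is smaller, `ζ τ' = 0` by
induction.  Hence `ζ τ = 0`. -/
theorem comb {m : ℕ} (hm1 : 1 ≤ m) (hm : d ≤ m) (lev : G → Fin d → ℤ) (Q : (Fin d → ℤ) → G → G → Prop)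
    (hQ : ∀ α, Equivalence (Q α)) (hmono : ∀ α β a b, α ≤ β → Q α a b → Q β a b) (z : Ch G)
    (hlen : ∀ σ ∈ z.support, σ.length = m + 1)
    (hlev : ∀ σ ∈ z.support, ∀ a ∈ σ, ∀ b ∈ σ, ∀ i, lev a i ≤ lev b i + 1)
    (hcl : ∀ σ ∈ z.support, ∀ a ∈ σ, ∀ b ∈ σ, Q (mt lev σ) a b) (hz : bd z = 0)
    (τ : List ((Fin d → ℤ) × Set G)) (hτ : ¬ AdjEq τ) : mp (kY lev Q) (sd z) τ = 0 := by
  refine Comb_main hm1 hm Q hQ hmono _
    (fun τ' hτ' => supp_kY lev Q hQ hmono z hlen hlev hcl hτ') ?_ τ hτ
  rw [bd_mp, bd_sd, hz, map_zero, map_zero]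

end Pool.Agent.H.MP_e5d137_al.GLn
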