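import Pool.Agent.H.MP_e5d137_al.GLn.IwaB

/-!
# Elements with close coordinates are close
-/

namespace Pool.Agent.H.MP_e5d137_al.GLn

open Finset Matrix

variable {n d : ℕ}

/-- differences of heights of levels within one of each other -/
lemma Iwa_ht {α β : Fin d → ℤ} (h : ∀ i, |β i - α i| ≤ 1) (i j : Fin (d + 1)) :
    |(ht β j - ht β i) - (ht α j - ht α i)| ≤ d := by
  have h1 : (ht β j - ht β i) - (ht α j - ht α i) =
      ∑ l : Fin d, ((if l.castSucc < j then β l - α l else 0) -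
        (if l.castSucc < i then β l - α l else 0)) := by
    simp only [ht, ← Finset.sum_sub_distrib]
    refine Finset.sum_congr rfl fun l _ => ?_
    split_ifs <;> ring
  rw [h1]
  refine (Finset.abs_sum_le_sum_abs _ _).trans ?_
  refine (Finset.sum_le_card_nsmul _ _ 1 fun l _ => ?_).trans (by simp)
  have h2 := h l
  split_ifs
  · simp
  · simpa using h2
  · rw [zero_sub, abs_neg]
    exact h2
  · simp

/-- ratios of the diagonal coordinates for levels within one of `α` -/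
lemma Iwa_ratio {Λ : ℝ} (hΛ : 1 ≤ Λ) {α : Fin d → ℤ} {g : Gm (d + 1)}
    (hg : ∀ i, |lev Λ g i - α i| ≤ 1) {i j : Fin (d + 1)} (hij : i ≤ j) :
    Real.exp (Λ * (ht α j - ht α i : ℤ) - Λ * d) ≤ ia g j / ia g i ∧
    ia g j / ia g i ≤ Real.exp (Λ * (ht α j - ht α i : ℤ) + 2 * (Λ * d)) := by
  have hΛ0 : 0 < Λ := by linarith
  obtain ⟨h1, h2⟩ := ratio_lev hΛ0 g hij
  have h3 := Iwa_ht hg i j
  obtain ⟨h4, h5⟩ := abs_le.1 h3
  have h4' : -(d : ℝ) ≤ ((ht (lev Λ g) j - ht (lev Λ g) i : ℤ) : ℝ) - ((ht α j - ht α i : ℤ) : ℝ) := by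
    exact_mod_cast h4
  have h5' : ((ht (lev Λ g) j - ht (lev Λ g) i : ℤ) : ℝ) - ((ht α j - ht α i : ℤ) : ℝ) ≤ d := by
    exact_mod_cast h5
  constructor
  · refine le_trans (Real.exp_le_exp.2 ?_) h1
    nlinarith [mul_le_mul_of_nonneg_left h4' hΛ0.le]
  · refine h2.trans (Real.exp_le_exp.2 ?_)
    nlinarith [mul_le_mul_of_nonneg_left h5' hΛ0.le]

lemma Iwa_rho {Λ : ℝ} (hΛ : 1 ≤ Λ) {α : Fin d → ℤ} {g h : Gm (d + 1)}
    (hg : ∀ i, |lev Λ g i - α i| ≤ 1) (hh : ∀ i, |lev Λ h i - α i| ≤ 1) (i j : Fin (d + 1)) :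
    ia h j * ia g i ≤ Real.exp (3 * (Λ * d)) * (ia g j * ia h i) := by
  have key : ∀ {g h : Gm (d + 1)}, (∀ i, |lev Λ g i - α i| ≤ 1) → (∀ i, |lev Λ h i - α i| ≤ 1) →
      ∀ {i j : Fin (d + 1)}, i ≤ j →
      ia h j * ia g i ≤ Real.exp (3 * (Λ * d)) * (ia g j * ia h i) := by
    intro g h hg hh i j hij
    have h1 := (Iwa_ratio hΛ hh hij).2
    have h2 := (Iwa_ratio hΛ hg hij).1
    have h3 : ia h j / ia h i ≤ Real.exp (3 * (Λ * d)) * (ia g j / ia g i) := by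
      refine h1.trans ?_
      refine le_trans (le_of_eq ?_) (mul_le_mul_of_nonneg_left h2 (Real.exp_pos _).le)
      rw [← Real.exp_add]
      congr 1
      ring
    have p1 := ia_pos h i
    have p2 := ia_pos g i
    rw [div_le_iff₀ p1] at h3
    calc ia h j * ia g i ≤ (Real.exp (3 * (Λ * d)) * (ia g j / ia g i) * ia h i) * ia g i :=
          mul_le_mul_of_nonneg_right h3 p2.le
      _ = Real.exp (3 * (Λ * d)) * (ia g j * ia h i) := by
          field_simp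
  rcases le_total i j with hij | hij
  · exact key hg hh hij
  · have := key hh hg hij
    calc ia h j * ia g i = ia g i * ia h j := mul_comm _ _
      _ ≤ Real.exp (3 * (Λ * d)) * (ia h i * ia g j) := this
      _ = Real.exp (3 * (Λ * d)) * (ia g j * ia h i) := by ring

lemma Iwa_le {Λ : ℝ} (hΛ : 1 ≤ Λ) {α : Fin d → ℤ} {g h : Gm (d + 1)}
    (hg : ∀ i, |lev Λ g i - α i| ≤ 1) (hh : ∀ i, |lev Λ h i - α i| ≤ 1) (j : Fin (d + 1)) :
    ia h j ≤ Real.exp (3 * (Λ * d)) * ia g j := by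
  obtain ⟨i, hi⟩ : ∃ i, ia h i ≤ ia g i := by
    by_contra hcon
    push Not at hcon
    have h1 : ∏ i, ia g i < ∏ i, ia h i :=
      Finset.prod_lt_prod_of_nonempty (fun i _ => ia_pos g i) (fun i _ => hcon i)
        Finset.univ_nonempty
    rw [ia_prod, ia_prod] at h1
    exact lt_irrefl _ h1
  have h1 := Iwa_rho hΛ hg hh i j
  have p := ia_pos g i
  have h2 : Real.exp (3 * (Λ * d)) * (ia g j * ia h i) ≤
      Real.exp (3 * (Λ * d)) * ia g j * ia g i := by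
    rw [mul_assoc]
    exact mul_le_mul_of_nonneg_left (mul_le_mul_of_nonneg_left hi (ia_pos g j).le)
      (Real.exp_pos _).le
  exact le_of_mul_le_mul_right (h1.trans h2) p

/-- the weighted unipotent coordinates -/
lemma Iwa_iw {Λ : ℝ} (hΛ : 1 ≤ Λ) {X : ℝ} (hX : 1 ≤ X) {α : Fin d → ℤ} {g h : Gm (d + 1)}
    (hg : ∀ i, |lev Λ g i - α i| ≤ 1) (hh : ∀ i, |lev Λ h i - α i| ≤ 1) (hs : Stp Λ X α g h)
    (i j : Fin (d + 1)) :
    ia g i * iw g h i j ^ 2 ≤ Real.exp (4 * (Λ * d)) * X * ia h j := by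
  have hΛd : 0 ≤ Λ * d := by positivity
  have e34 : Real.exp (3 * (Λ * d)) ≤ Real.exp (4 * (Λ * d)) :=
    Real.exp_le_exp.2 (by linarith)
  rcases lt_trichotomy i j with hij | hij | hij
  · have h1 := (hs i j hij).1
    have h2 := (Iwa_ratio hΛ hh hij.le).1
    have h3 := Iwa_le hΛ hh hg i
    have p1 := ia_pos h i
    have h4 : Real.exp (Λ * (ht α j - ht α i : ℤ)) ≤ Real.exp (Λ * d) * (ia h j / ia h i) := by
      refine le_trans (le_of_eq ?_) (mul_le_mul_of_nonneg_left h2 (Real.exp_pos _).le)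
      rw [← Real.exp_add]
      congr 1
      ring
    calc ia g i * iw g h i j ^ 2 ≤
        (Real.exp (3 * (Λ * d)) * ia h i) * (X * (Real.exp (Λ * d) * (ia h j / ia h i))) := by
          refine mul_le_mul h3 (h1.trans ?_) (sq_nonneg _) (by positivity)
          exact mul_le_mul_of_nonneg_left h4 (by linarith)
      _ = Real.exp (3 * (Λ * d)) * Real.exp (Λ * d) * X * ia h j := by
          field_simp
      _ = Real.exp (4 * (Λ * d)) * X * ia h j := by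
          rw [← Real.exp_add]
          congr 3
          ring
  · subst hij
    rw [(iw_ut g h).1 i, one_pow, mul_one]
    have h3 := Iwa_le hΛ hh hg i
    have p1 := ia_pos h i
    calc ia g i ≤ Real.exp (3 * (Λ * d)) * ia h i := h3
      _ ≤ Real.exp (4 * (Λ * d)) * X * ia h i := by
          refine mul_le_mul_of_nonneg_right ?_ p1.le
          calc Real.exp (3 * (Λ * d)) = Real.exp (3 * (Λ * d)) * 1 := (mul_one _).symm
            _ ≤ Real.exp (4 * (Λ * d)) * X :=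
              mul_le_mul e34 hX zero_le_one (Real.exp_pos _).le
  · rw [(iw_ut g h).2 i j hij]
    have p1 := ia_pos h j
    have : 0 ≤ Real.exp (4 * (Λ * d)) * X * ia h j := by positivity
    simpa using this

/-- comparison of the forms -/
lemma Iwa_ev {Λ : ℝ} (hΛ : 1 ≤ Λ) {X : ℝ} (hX : 1 ≤ X) {α : Fin d → ℤ} {g h : Gm (d + 1)}
    (hg : ∀ i, |lev Λ g i - α i| ≤ 1) (hh : ∀ i, |lev Λ h i - α i| ≤ 1) (hs : Stp Λ X α g h)
    (x : Fin (d + 1) → ℝ) :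
    ev (fm g) x ≤ ((d + 1 : ℕ) : ℝ) ^ 2 * (Real.exp (4 * (Λ * d)) * X) * ev (fm h) x := by
  set C := Real.exp (4 * (Λ * d)) * X with hC
  rw [ev_iwa, ev_iwa, qf, qf]
  set y := iu h *ᵥ x with hy
  have hu : iu g *ᵥ x = iw g h *ᵥ y := by
    rw [hy, Matrix.mulVec_mulVec, ← iu_eq]
  rw [hu]
  have h1 : ∀ i, ia g i * ((iw g h *ᵥ y) i) ^ 2 ≤
      ((d + 1 : ℕ) : ℝ) * ∑ j, C * ia h j * y j ^ 2 := by
    intro i
    have h2 : ((iw g h *ᵥ y) i) ^ 2 ≤ ((d + 1 : ℕ) : ℝ) * ∑ j, (iw g h i j * y j) ^ 2 := by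
      have := sq_sum_le_card_mul_sum_sq (s := (Finset.univ : Finset (Fin (d + 1))))
        (f := fun j => iw g h i j * y j)
      simpa [Matrix.mulVec, dotProduct] using this
    calc ia g i * ((iw g h *ᵥ y) i) ^ 2 ≤
        ia g i * (((d + 1 : ℕ) : ℝ) * ∑ j, (iw g h i j * y j) ^ 2) :=
          mul_le_mul_of_nonneg_left h2 (ia_pos g i).le
      _ = ((d + 1 : ℕ) : ℝ) * ∑ j, ia g i * iw g h i j ^ 2 * y j ^ 2 := by
          rw [mul_left_comm, Finset.mul_sum]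
          congr 1
          refine Finset.sum_congr rfl fun j _ => ?_
          ring
      _ ≤ ((d + 1 : ℕ) : ℝ) * ∑ j, C * ia h j * y j ^ 2 := by
          refine mul_le_mul_of_nonneg_left (Finset.sum_le_sum fun j _ => ?_) (by positivity)
          exact mul_le_mul_of_nonneg_right (Iwa_iw hΛ hX hg hh hs i j) (sq_nonneg _)
  calc ∑ i, ia g i * ((iw g h *ᵥ y) i) ^ 2 ≤
      ∑ i : Fin (d + 1), ((d + 1 : ℕ) : ℝ) * ∑ j, C * ia h j * y j ^ 2 :=
        Finset.sum_le_sum fun i _ => h1 i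
    _ = ((d + 1 : ℕ) : ℝ) ^ 2 * C * ∑ j, ia h j * y j ^ 2 := by
        rw [Finset.sum_const, Finset.card_univ, Fintype.card_fin, nsmul_eq_mul]
        have : ∑ j, C * ia h j * y j ^ 2 = C * ∑ j, ia h j * y j ^ 2 := by
          rw [Finset.mul_sum]
          refine Finset.sum_congr rfl fun j _ => ?_
          ring
        rw [this]
        ring

/-- bound of the entries -/
lemma Iwa_entry {Λ : ℝ} (hΛ : 1 ≤ Λ) {X : ℝ} (hX : 1 ≤ X) {α : Fin d → ℤ} {g h : Gm (d + 1)}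
    (hg : ∀ i, |lev Λ g i - α i| ≤ 1) (hh : ∀ i, |lev Λ h i - α i| ≤ 1) (hs : Stp Λ X α g h)
    (i j : Fin (d + 1)) :
    |rm (g⁻¹ * h) i j| ≤ ((d + 1 : ℕ) : ℝ) ^ 2 * (Real.exp (4 * (Λ * d)) * X) := by
  set Y := ((d + 1 : ℕ) : ℝ) ^ 2 * (Real.exp (4 * (Λ * d)) * X) with hY
  have hΛd : 0 ≤ Λ * d := by positivity
  have hY1 : 1 ≤ Y := by
    have a1 : (1 : ℝ) ≤ ((d + 1 : ℕ) : ℝ) ^ 2 := one_le_pow₀ (by simp)
    have a2 : 1 ≤ Real.exp (4 * (Λ * d)) := Real.one_le_exp (by linarith)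
    exact one_le_mul_of_one_le_of_one_le a1 (one_le_mul_of_one_le_of_one_le a2 hX)
  have h1 := Iwa_ev hΛ hX hg hh hs (rm h *ᵥ Pi.single j 1)
  rw [ev_fm, ev_fm, Matrix.mulVec_mulVec, Matrix.mulVec_mulVec, ← rm_mul, rm_inv_mul,
    Matrix.one_mulVec] at h1
  have h2 : nsq (Pi.single j (1 : ℝ) : Fin (d + 1) → ℝ) = 1 := by
    rw [nsq, Finset.sum_eq_single j]
    · simp
    · intro b _ hb
      simp [hb]
    · simp
  rw [h2, mul_one] at h1
  have h3 : rm (g⁻¹ * h) i j ^ 2 ≤ Y := by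
    refine le_trans ?_ h1
    have h4 : (rm (g⁻¹ * h) *ᵥ Pi.single j 1) i = rm (g⁻¹ * h) i j := by simp
    rw [nsq, ← h4]
    exact Finset.single_le_sum (f := fun i => ((rm (g⁻¹ * h) *ᵥ Pi.single j 1) i) ^ 2)
      (fun _ _ => sq_nonneg _) (Finset.mem_univ i)
  rw [← sq_abs] at h3
  by_contra hcon
  push Not at hcon
  nlinarith [abs_nonneg (rm (g⁻¹ * h) i j)]

/-- Conversely: if the levels of `g`, `h` are within one of `α` and the relative unipotent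
coordinates are bounded by `X` at the level `α` then `El (g⁻¹ h) ≤ X ^ c`.

Proof.  `ia g i / ia h i` is bounded above and below by constants (ratios are, by the levels, and
the products are `1`).  `ia g i (u_g x)_i² ≤ n ∑_j ia g i (iw g h)_ij² (u_h x)_j²` and
`ia g i (iw g h)_ij² ≤ C X ia h j`.  So `ev (fm g) ≤ C' X ev (fm h)` and conversely; with
`x = h y`: `|g⁻¹ h y|² ≤ C' X |y|²`, so the entries of `g⁻¹ h` (and of `h⁻¹ g`) are
`≤ C' X`. -/
theorem near_of_Stp (d : ℕ) (Λ : ℝ) (hΛ : 1 ≤ Λ) : ∃ c : ℕ, ∀ X : ℕ, 2 ≤ X →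
    ∀ (α : Fin d → ℤ) (g h : Gm (d + 1)),
    (∀ i, |lev Λ g i - α i| ≤ 1) → (∀ i, |lev Λ h i - α i| ≤ 1) → Stp Λ X α g h →
    El (g⁻¹ * h) ≤ X ^ c := by
  set A : ℝ := ((d + 1 : ℕ) : ℝ) ^ 2 * Real.exp (4 * (Λ * d)) with hA
  obtain ⟨c₁, hc₁⟩ := pow_unbounded_of_one_lt A (one_lt_two : (1 : ℝ) < 2)
  refine ⟨(d + 1) + (c₁ + 1), fun X hX α g h hg hh hs => ?_⟩
  have hX1 : (1 : ℝ) ≤ X := by exact_mod_cast (by omega : 1 ≤ X)
  have hX2 : (2 : ℝ) ≤ X := by exact_mod_cast hX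
  have hb : ((d + 1 : ℕ) : ℝ) ^ 2 * (Real.exp (4 * (Λ * d)) * X) ≤ ((X ^ (c₁ + 1) : ℕ) : ℝ) := by
    rw [← mul_assoc, ← hA, Nat.cast_pow, pow_succ]
    refine mul_le_mul_of_nonneg_right (hc₁.le.trans ?_) (by positivity)
    exact pow_le_pow_left₀ (by norm_num) hX2 c₁
  have h1 : ∀ i j, |rm (g⁻¹ * h) i j| ≤ ((X ^ (c₁ + 1) : ℕ) : ℝ) := fun i j =>
    (Iwa_entry hΛ hX1 hg hh hs i j).trans hb
  have h2 : ∀ i j, |rm (g⁻¹ * h)⁻¹ i j| ≤ ((X ^ (c₁ + 1) : ℕ) : ℝ) := fun i j => by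
    have h3 : (g⁻¹ * h)⁻¹ = h⁻¹ * g := by group
    rw [h3]
    exact (Iwa_entry hΛ hX1 hh hg hs.symm i j).trans hb
  refine (El_le h1 h2).trans (max_le (Nat.one_le_pow _ _ (by omega)) ?_)
  rw [pow_add X (d + 1)]
  refine Nat.mul_le_mul_right _ ?_
  calc d + 1 ≤ 2 ^ (d + 1) := (Nat.lt_two_pow_self).le
    _ ≤ X ^ (d + 1) := Nat.pow_le_pow_left hX _

end Pool.Agent.H.MP_e5d137_al.GLn
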