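import Pool.Agent.H.MP_e5d137_al.GLn.Clu
import Pool.Agent.H.MP_e5d137_al.GLn.Iwa
import Pool.Agent.H.MP_e5d137_al.GLn.Comb
import Pool.Agent.H.MP_e5d137_al.GLn.Coll

/-!
# Polynomial filling above the rank
-/

namespace Pool.Agent.H.MP_e5d137_al.GLn

open Finset Matrix
open Pool.Agent.H.MP_e5d137_al.UB

/-- the relation is monotone in the constant -/
lemma Abv_stp_mono {d : ℕ} {Λ M M' : ℝ} (hM : M ≤ M') {α : Fin d → ℤ} {g k : Gm (d + 1)}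
    (hs : Stp Λ M α g k) : Stp Λ M' α g k := by
  intro i j hij
  have h1 := hs i j hij
  have h2 : M * Real.exp (Λ * (ht α j - ht α i : ℤ)) ≤ M' * Real.exp (Λ * (ht α j - ht α i : ℤ)) :=
    mul_le_mul_of_nonneg_right hM (Real.exp_pos _).le
  exact ⟨h1.1.trans h2, h1.2.trans h2⟩

/-- numerical estimate -/
lemma Abv_num (m R V s e f : ℕ) (hV : V ≤ (m + 1) * s) :
    ((V + 2 + R) ^ e) ^ f ≤ (s + 2) ^ ((m + R + 4) * e * f) := by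
  have h1 : V + 2 + R ≤ (m + R + 3) * (s + 2) := by nlinarith
  have h2 : m + R + 3 ≤ (s + 2) ^ (m + R + 3) := by
    calc m + R + 3 ≤ 2 ^ (m + R + 3) := (Nat.lt_two_pow_self).le
      _ ≤ (s + 2) ^ (m + R + 3) := Nat.pow_le_pow_left (by omega) _
  have h3 : V + 2 + R ≤ (s + 2) ^ (m + R + 4) := by
    calc V + 2 + R ≤ (m + R + 3) * (s + 2) := h1
      _ ≤ (s + 2) ^ (m + R + 3) * (s + 2) := Nat.mul_le_mul_right _ h2
      _ = (s + 2) ^ (m + R + 4) := by ring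
  calc ((V + 2 + R) ^ e) ^ f ≤ (((s + 2) ^ (m + R + 4)) ^ e) ^ f :=
        Nat.pow_le_pow_left (Nat.pow_le_pow_left h3 _) _
    _ = (s + 2) ^ ((m + R + 4) * e * f) := by rw [← pow_mul, ← pow_mul, mul_assoc]

/-- the case `2 ≤ R` -/
lemma Abv_two (d m : ℕ) (hm1 : 1 ≤ m) (hm : d ≤ m) (hc : Cone (El (n := d + 1))) (R : ℕ)
    (hR : 2 ≤ R) :
    ∃ R' c : ℕ, ∀ z : Ch (Gm (d + 1)),
    (∀ σ ∈ z.support, σ.length = m + 1 ∧ Small El R σ) → bd z = 0 →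
    ∃ y : Ch (Gm (d + 1)), (∀ τ ∈ y.support, τ.length = m + 2 ∧ Small El R' τ) ∧ bd y = z ∧
      ms y ≤ (ms z + 2) ^ c * ms z := by
  classical
  obtain ⟨Λ, M, hΛ, hM, hnear⟩ := near_lev d R
  obtain ⟨c₁, hbound⟩ := Clq.bound d Λ M hM
  obtain ⟨c₂, hclose⟩ := near_of_Stp d Λ hΛ
  obtain ⟨R', c₃, hfill⟩ := collapse_fill (El_szf (n := d + 1)) hc m R hR
  refine ⟨R', (m + R + 4) * ((c₁ + 1) * c₂ + 1) * c₃, ?_⟩
  intro z hz hbz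
  obtain ⟨V, hV, hVc⟩ := barfill_V z m (fun σ hσ => (hz σ hσ).1)
  obtain ⟨Q, hQdef⟩ : ∃ Q : (Fin d → ℤ) → Gm (d + 1) → Gm (d + 1) → Prop,
    Q = fun α g h => Clq V Λ M α g h := ⟨_, rfl⟩
  have hΛ0 : 0 ≤ Λ := by linarith
  have hM0 : 0 ≤ M := by linarith
  have hQ : ∀ α, Equivalence (Q α) := by
    intro α
    rw [hQdef]
    exact Clq.equiv V Λ M α
  have hmono : ∀ α β a b, α ≤ β → Q α a b → Q β a b := by
    intro α β a b hαβ h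
    rw [hQdef] at h ⊢
    exact Clq.mono hΛ0 hM0 hαβ h
  have hlev : ∀ σ ∈ z.support, ∀ a ∈ σ, ∀ b ∈ σ, ∀ i, lev Λ a i ≤ lev Λ b i + 1 :=
    fun σ hσ a ha b hb => (hnear a b ((hz σ hσ).2 a ha b hb)).1
  -- levels of the entries of a sublist are within one of the minimum
  have hmt : ∀ σ ∈ z.support, ∀ ρ : List (Gm (d + 1)), ρ ≠ [] → ρ.Sublist σ → ∀ a ∈ ρ, ∀ i,
      lev Λ a i ≤ mt (lev Λ) ρ i + 1 := by
    intro σ hσ ρ hρ hρσ a ha i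
    obtain ⟨a', ha', h1⟩ := mt_mem (lev Λ) hρ i
    rw [h1]
    exact hlev σ hσ a (hρσ.subset ha) a' (hρσ.subset ha') i
  have hcl : ∀ σ ∈ z.support, ∀ a ∈ σ, ∀ b ∈ σ, Q (mt (lev Λ) σ) a b := by
    intro σ hσ a ha b hb
    rw [hQdef]
    refine Relation.EqvGen.rel _ _ ⟨hV σ hσ a ha, hV σ hσ b hb, ?_⟩
    refine (hnear a b ((hz σ hσ).2 a ha b hb)).2 _ ?_
    exact hmt σ hσ σ (List.ne_nil_of_mem ha) (List.Sublist.refl σ) a ha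
  -- the representatives
  have hex : ∀ y : (Fin d → ℤ) × Set (Gm (d + 1)), ∃ b : Gm (d + 1),
      ∀ σ ∈ z.support, ∀ ρ : List (Gm (d + 1)), ρ ≠ [] → ρ.Sublist σ → kY (lev Λ) Q ρ = y →
      ∃ σ₀ ∈ z.support, ∃ ρ₀ : List (Gm (d + 1)), ρ₀ ≠ [] ∧ ρ₀.Sublist σ₀ ∧
        kY (lev Λ) Q ρ₀ = y ∧ b ∈ ρ₀ := by
    intro y
    by_cases h : ∃ σ₀ ∈ z.support, ∃ ρ₀ : List (Gm (d + 1)), ρ₀ ≠ [] ∧ ρ₀.Sublist σ₀ ∧
        kY (lev Λ) Q ρ₀ = y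
    · obtain ⟨σ₀, h1, ρ₀, h2, h3, h4⟩ := h
      obtain ⟨b, hb⟩ := List.exists_mem_of_ne_nil ρ₀ h2
      exact ⟨b, fun _ _ _ _ _ _ => ⟨σ₀, h1, ρ₀, h2, h3, h4, hb⟩⟩
    · exact ⟨1, fun σ hσ ρ h2 h3 h4 => absurd ⟨σ, hσ, ρ, h2, h3, h4⟩ h⟩
  choose rep hrep using hex
  obtain ⟨X, hX⟩ : ∃ X : ℕ, X = (V.card + 2 + R) ^ ((c₁ + 1) * c₂ + 1) := ⟨_, rfl⟩
  have hRX : R ≤ X := by
    rw [hX]
    exact (by omega : R ≤ V.card + 2 + R).trans (Nat.le_self_pow (by omega) _)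
  have hA : ∀ σ ∈ z.support, ∀ ρ : List (Gm (d + 1)), ρ ≠ [] → ρ.Sublist σ → ∀ a ∈ ρ,
      El (a⁻¹ * (rep ∘ kY (lev Λ) Q) ρ) ≤ X := by
    intro σ hσ ρ hρ hρσ a ha
    obtain ⟨σ₀, hσ₀, ρ₀, hρ₀, hρσ₀, hk, hb⟩ := hrep (kY (lev Λ) Q ρ) σ hσ ρ hρ hρσ rfl
    change El (a⁻¹ * rep (kY (lev Λ) Q ρ)) ≤ X
    generalize rep (kY (lev Λ) Q ρ) = b at hb
    have h1 : mt (lev Λ) ρ₀ = mt (lev Λ) ρ := congrArg Prod.fst hk
    have h2 : {b | ∃ a ∈ ρ₀, Q (mt (lev Λ) ρ₀) a b} = {b | ∃ a ∈ ρ, Q (mt (lev Λ) ρ) a b} :=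
      congrArg Prod.snd hk
    have h3 : b ∈ {b | ∃ a ∈ ρ, Q (mt (lev Λ) ρ) a b} := by
      rw [← h2]
      exact ⟨b, hb, (hQ _).refl b⟩
    obtain ⟨a', ha', h4⟩ := h3
    have h5 : Q (mt (lev Λ) ρ) a a' :=
      hmono _ _ _ _ (mt_anti (lev Λ) hρσ hρ) (hcl σ hσ a (hρσ.subset ha) a' (hρσ.subset ha'))
    have h6 : Q (mt (lev Λ) ρ) a b := (hQ _).trans h5 h4
    rw [hQdef] at h6
    have haV : a ∈ V := hV σ hσ a (hρσ.subset ha)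
    have hbV : b ∈ V := hV σ₀ hσ₀ b (hρσ₀.subset hb)
    have h7 := hbound V (mt (lev Λ) ρ) a b haV hbV h6
    have h8 : Stp Λ (((V.card + 2) ^ (c₁ + 1) : ℕ) : ℝ) (mt (lev Λ) ρ) a b := by
      refine Abv_stp_mono ?_ h7
      exact_mod_cast Nat.pow_le_pow_right (by omega) (by omega)
    have h9 : El (a⁻¹ * b) ≤ ((V.card + 2) ^ (c₁ + 1)) ^ c₂ := by
      refine hclose _ ?_ (mt (lev Λ) ρ) a b ?_ ?_ h8
      · exact (by omega : 2 ≤ V.card + 2).trans (Nat.le_self_pow (by omega) _)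
      · intro i
        have e1 := mt_le (lev Λ) ha i
        have e2 := hmt σ hσ ρ hρ hρσ a ha i
        rw [abs_le]
        constructor <;> linarith
      · intro i
        have e1 := mt_le (lev Λ) hb i
        have e2 := hmt σ₀ hσ₀ ρ₀ hρ₀ hρσ₀ b hb i
        rw [h1] at e1 e2
        rw [abs_le]
        constructor <;> linarith
    rw [hX]
    calc El (a⁻¹ * b) ≤ ((V.card + 2) ^ (c₁ + 1)) ^ c₂ := h9
      _ = (V.card + 2) ^ ((c₁ + 1) * c₂) := by rw [← pow_mul]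
      _ ≤ (V.card + 2 + R) ^ ((c₁ + 1) * c₂) := Nat.pow_le_pow_left (by omega) _
      _ ≤ (V.card + 2 + R) ^ ((c₁ + 1) * c₂ + 1) := Nat.pow_le_pow_right (by omega) (by omega)
  have hB : ∀ τ : List (Gm (d + 1)), ¬ AdjEq τ → mp (rep ∘ kY (lev Λ) Q) (sd z) τ = 0 := by
    intro τ hτ
    rw [← mp_mp]
    exact mp_adj rep _ (fun τ' hτ' => comb hm1 hm (lev Λ) Q hQ hmono z (fun σ hσ => (hz σ hσ).1)
      hlev hcl hbz τ' hτ') τ hτ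
  obtain ⟨y, hy1, hy2, hy3⟩ := hfill X hRX z hz hbz (rep ∘ kY (lev Λ) Q) hA hB
  refine ⟨y, hy1, hy2, hy3.trans (Nat.mul_le_mul_right _ ?_)⟩
  rw [hX]
  exact Abv_num m R V.card (ms z) _ _ hVc

/-- Filling in the bar complex of `GL(d + 1, ℤ)`, `m ≥ d`.

Proof.  We may assume `R ≥ 2`.  `Λ, M` by `near_lev` (for `R`), `V` the set of entries of `z`
(`barfill_V`), `Q α = Clq V Λ M α`, `lev = lev Λ`.  The hypotheses of `comb` hold: `hlev` by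
`near_lev`, `hcl` too: for `a, b ∈ σ` `Stp Λ M (mt lev σ) a b` (levels within one of the
minimum).  Choose for every `y` in the image of nonempty sublists of simplices of `z` an element
`rep y ∈ ρ₀` with `kY ρ₀ = y`; `κ = rep ∘ kY`.  For `a ∈ ρ`, `b = κ ρ ∈ ρ₀`,
`kY ρ = kY ρ₀ = (α, _)`: `a` and `b` are in `V`, in one cluster at the level `α`, their levels
are within one of `α`; so `E (a⁻¹ b) ≤ (V.card + 2)^c` by `Clq.bound`, `near_of_Stp`.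
Then `comb`, `mp_adj` and `collapse_fill`. -/
theorem bar_poly (d m : ℕ) (hm1 : 1 ≤ m) (hm : d ≤ m) (hc : Cone (El (n := d + 1))) (R : ℕ) :
    ∃ R' c : ℕ, ∀ z : Ch (Gm (d + 1)),
    (∀ σ ∈ z.support, σ.length = m + 1 ∧ Small El R σ) → bd z = 0 →
    ∃ y : Ch (Gm (d + 1)), (∀ τ ∈ y.support, τ.length = m + 2 ∧ Small El R' τ) ∧ bd y = z ∧
      ms y ≤ (ms z + 2) ^ c * ms z := by
  obtain ⟨R', c, h⟩ := Abv_two d m hm1 hm hc (max R 2) (le_max_right _ _)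
  exact ⟨R', c, fun z hz => h z fun σ hσ => ⟨(hz σ hσ).1, (hz σ hσ).2.mono (le_max_left _ _)⟩⟩

end Pool.Agent.H.MP_e5d137_al.GLn
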