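import Pool.Agent.H.MP_e5d137_al.UB.KL

/-!
# Polynomial bounds of isoperimetric functions from the bar complex
-/

namespace Pool.Agent.H.MP_e5d137_al.GLn

open Finsupp
open scoped ENNReal
open Pool.Agent.H.MP_e5d137_al.UB

variable {Γ : Type} [Group Γ]

/-- polynomial filling in the bar complex, in dimension `m` -/
def BarPoly (E : Γ → ℕ) (m : ℕ) : Prop := ∀ R : ℕ, ∃ R' c : ℕ, ∀ z : Ch Γ,
    (∀ σ ∈ z.support, σ.length = m + 1 ∧ Small E R σ) → UB.bd z = 0 →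
    ∃ y : Ch Γ, (∀ τ ∈ y.support, τ.length = m + 2 ∧ Small E R' τ) ∧ UB.bd y = z ∧
      ms y ≤ (ms z + 2) ^ c * ms z

/-- constants are absorbed by powers -/
lemma PolyK_const (M L : ℕ) : M ≤ (L + 2) ^ M :=
  (Nat.lt_two_pow_self (n := M)).le.trans (Nat.pow_le_pow_left (by omega) M)

lemma PolyK_lin (M L : ℕ) : M * L ≤ (L + 2) ^ (M + 1) := by
  rw [pow_succ]
  exact Nat.mul_le_mul (PolyK_const M L) (by omega)

lemma PolyK_aff (M L : ℕ) : M * L + 2 ≤ (L + 2) ^ (M + 2) := by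
  have h1 : M * L + 2 ≤ (M + 1) * (L + 2) := by nlinarith
  have h2 : (M + 1) * (L + 2) ≤ (L + 2) ^ (M + 2) := by
    rw [pow_succ]
    exact Nat.mul_le_mul_right _ (PolyK_const (M + 1) L)
  exact h1.trans h2

lemma PolyK_num (M₁ M₂ M₃ c L a : ℕ) (ha : a ≤ M₁ * L) :
    M₂ * ((a + 2) ^ c * a) + M₃ * L ≤
      (L + 2) ^ (M₂ + (M₁ + 2) * c + (M₁ + 1) + (M₃ + 1) + 1) := by
  have h1 : (a + 2) ^ c ≤ (L + 2) ^ ((M₁ + 2) * c) := by
    rw [pow_mul]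
    exact Nat.pow_le_pow_left (le_trans (by omega) (PolyK_aff M₁ L)) c
  have h2 : a ≤ (L + 2) ^ (M₁ + 1) := ha.trans (PolyK_lin M₁ L)
  have h3 : M₂ * ((a + 2) ^ c * a) ≤ (L + 2) ^ (M₂ + (M₁ + 2) * c + (M₁ + 1)) := by
    rw [pow_add, pow_add, mul_assoc]
    exact Nat.mul_le_mul (PolyK_const M₂ L) (Nat.mul_le_mul h1 h2)
  have h4 : (L + 2) ^ (M₂ + (M₁ + 2) * c + (M₁ + 1)) ≤
      (L + 2) ^ (M₂ + (M₁ + 2) * c + (M₁ + 1) + (M₃ + 1)) :=
    Nat.pow_le_pow_right (by omega) (by omega)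
  have h5 : M₃ * L ≤ (L + 2) ^ (M₂ + (M₁ + 2) * c + (M₁ + 1) + (M₃ + 1)) :=
    (PolyK_lin M₃ L).trans (Nat.pow_le_pow_right (by omega) (by omega))
  calc M₂ * ((a + 2) ^ c * a) + M₃ * L
      ≤ (L + 2) ^ (M₂ + (M₁ + 2) * c + (M₁ + 1) + (M₃ + 1)) +
        (L + 2) ^ (M₂ + (M₁ + 2) * c + (M₁ + 1) + (M₃ + 1)) :=
        Nat.add_le_add (h3.trans h4) h5
    _ = (L + 2) ^ (M₂ + (M₁ + 2) * c + (M₁ + 1) + (M₃ + 1)) * 2 := by ring
    _ ≤ _ := by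
        rw [pow_succ (L + 2) (M₂ + (M₁ + 2) * c + (M₁ + 1) + (M₃ + 1))]
        exact Nat.mul_le_mul_left _ (by omega)

/-- Filling volumes in `K` (same proof as `UB.fill_le`). -/
theorem fill_poly {E : Γ → ℕ} (hE : Szf E) (m : ℕ) (hm : 1 ≤ m) (hb : BarPoly E m)
    (K : GComplex Γ) (hK : K.FiniteTo (m + 1)) : ∃ c : ℕ, ∀ (z : K.cell m →₀ ℤ) (L : ℕ),
      (∃ b, K.bd m b = z) → mass z ≤ L → ∃ y, K.bd m y = z ∧ mass y ≤ (L + 2) ^ c := by
  obtain ⟨k, rfl⟩ : ∃ k, m = k + 1 := ⟨m - 1, by omega⟩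
  obtain ⟨R, M₁, h1⟩ := exists_small E K (k + 1) (fun i hi => hK i (by omega))
  obtain ⟨R', c₁, hfill⟩ := hb R
  obtain ⟨M₂, hM₂⟩ := exists_theta_mass hE K (k + 1 + 1) (k + 1 + 2) R'
  obtain ⟨v, hv⟩ := exists_thpsi K
  obtain ⟨s0, hs0⟩ := hK (k + 1) (by omega)
  obtain ⟨M₃, hM₃⟩ := eqv_mass (k + 1) (k + 1 + 1) s0 hs0 (hmt (CMap.id K) v (k + 1))
    (hmt_act (CMap.id K) v _)
  refine ⟨M₂ + (M₁ + 2) * c₁ + (M₁ + 1) + (M₃ + 1) + 1, ?_⟩
  intro z L hz hzL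
  have hzc : K.bd k z = 0 := (K.exact_succ k z).2 hz
  obtain ⟨h2, h3⟩ := h1 z
  have hb : UB.bd (psi K (k + 1) z) = 0 := by
    rw [bd_eq, bdL_psi_succ, hzc, map_zero]
  have hml : ms (psi K (k + 1) z) ≤ M₁ * L := h3.trans (Nat.mul_le_mul_left _ hzL)
  obtain ⟨y, hy1, hy2, hy3⟩ := hfill (psi K (k + 1) z) h2 hb
  have hyg : y ∈ gr (Γ := Γ) (k + 2 + 1) := by
    rw [gr, Finsupp.mem_supported]
    intro σ hσ
    exact (hy1 σ hσ).1
  refine ⟨theta K (k + 1 + 1) y - hmt (CMap.id K) v (k + 1) z, ?_, ?_⟩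
  · have e1 := hmt_succ (CMap.id K) v k z
    rw [hzc, map_zero, sub_zero, hv] at e1
    have e2 : (CMap.id K).f (k + 1) z = z := rfl
    rw [e2] at e1
    rw [map_sub, e1, bd_theta_succ K (k + 1) y hyg, ← bd_eq, hy2]
    abel
  · have e3 : mass (theta K (k + 1 + 1) y) ≤
        M₂ * ((ms (psi K (k + 1) z) + 2) ^ c₁ * ms (psi K (k + 1) z)) :=
      (hM₂ y hy1).trans (Nat.mul_le_mul_left _ hy3)
    have e4 : mass (hmt (CMap.id K) v (k + 1) z) ≤ M₃ * L :=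
      (hM₃ z).trans (Nat.mul_le_mul_left _ hzL)
    exact (mass_sub_le _ _).trans ((Nat.add_le_add e3 e4).trans
      (PolyK_num M₁ M₂ M₃ c₁ L _ hml))

/-- The polynomial bound. -/
theorem poly_of_bar {E : Γ → ℕ} (hE : Szf E) (m : ℕ) (hm : 1 ≤ m) (hb : BarPoly E m)
    (K : GComplex Γ) (hK : K.FiniteTo (m + 1)) :
    ∃ c : ℕ, Dominated (fun L => (K.iso m L : ℝ≥0∞)) (fun L => (L : ℝ≥0∞) ^ c) := by
  obtain ⟨c, hc⟩ := fill_poly hE m hm hb K hK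
  refine ⟨c, 2, by norm_num, fun L => ?_⟩
  have h3 : K.iso m L ≤ (((L + 2) ^ c : ℕ) : ℕ∞) := by
    unfold GComplex.iso
    refine iSup_le fun z => iSup_le fun hz => iSup_le fun hL => ?_
    obtain ⟨y, hy1, hy2⟩ := hc z L hz hL
    unfold GComplex.fillVol
    exact (iInf₂_le y hy1).trans (by exact_mod_cast hy2)
  have h4 : ((K.iso m L : ℕ∞) : ℝ≥0∞) ≤ (((L + 2) ^ c : ℕ) : ℝ≥0∞) := by
    have := ENat.toENNReal_le.2 h3
    simpa using this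
  have h5 : (((L + 2) ^ c : ℕ) : ℝ≥0∞) ≤ ((2 * (2 * L + 2) ^ c : ℕ) : ℝ≥0∞) := by
    apply Nat.cast_le.2
    have h6 : (L + 2) ^ c ≤ (2 * L + 2) ^ c := Nat.pow_le_pow_left (by omega) c
    omega
  have h7 : ((2 * (2 * L + 2) ^ c : ℕ) : ℝ≥0∞) =
      ((2 : ℕ) : ℝ≥0∞) * (((2 * L + 2 : ℕ) : ℝ≥0∞)) ^ c := by
    push_cast
    ring
  refine (h4.trans h5).trans ?_
  rw [h7, add_assoc]
  exact le_self_add

/-- The exponent does not depend on the complex: the isoperimetric functions of two complexes are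
equivalent. -/
theorem poly_unif {m : ℕ} (hm : 1 ≤ m)
    (h : ∀ K : GComplex Γ, K.FiniteTo (m + 1) →
      ∃ c : ℕ, Dominated (fun L => (K.iso m L : ℝ≥0∞)) (fun L => (L : ℝ≥0∞) ^ c)) :
    ∃ c : ℕ, ∀ K : GComplex Γ, K.FiniteTo (m + 1) →
      Dominated (fun L => (K.iso m L : ℝ≥0∞)) (fun L => (L : ℝ≥0∞) ^ c) := by
  by_cases hex : ∃ K₀ : GComplex Γ, K₀.FiniteTo (m + 1)
  · obtain ⟨K₀, hK₀⟩ := hex
    obtain ⟨c, D, hD0, hD⟩ := h K₀ hK₀
    refine ⟨c, fun K hK => ?_⟩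
    obtain ⟨C, hC⟩ := iso_compare K K₀ m hm hK hK₀
    refine ⟨C * D * C + C * D + C + D + 1, by positivity, fun L => ?_⟩
    set A := C * D * C + C * D + C + D + 1 with hA
    have h1 : ((K.iso m L : ℕ∞) : ℝ≥0∞) ≤
        (C : ℝ≥0∞) * ((K₀.iso m (C * L) : ℕ∞) : ℝ≥0∞) + (C : ℝ≥0∞) * (L : ℝ≥0∞) := by
      have := ENat.toENNReal_le.2 (hC L)
      simpa using this
    have h2 : ((K₀.iso m (C * L) : ℕ∞) : ℝ≥0∞) ≤
        ((D * (D * (C * L) + D) ^ c + D * (C * L) + D : ℕ) : ℝ≥0∞) := by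
      have := hD (C * L)
      push_cast at this ⊢
      exact this
    have h3 : C * (D * (D * (C * L) + D) ^ c + D * (C * L) + D) + C * L ≤
        A * (A * L + A) ^ c + A * L + A := by
      have e1 : D * (C * L) + D ≤ A * L + A := by
        have : D * (C * L) = (C * D) * L := by ring
        rw [this]
        exact Nat.add_le_add (Nat.mul_le_mul_right _ (by rw [hA]; omega)) (by rw [hA]; omega)
      have e2 : C * (D * (D * (C * L) + D) ^ c) ≤ A * (A * L + A) ^ c := by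
        rw [← mul_assoc]
        exact Nat.mul_le_mul (by rw [hA]; omega) (Nat.pow_le_pow_left e1 c)
      have e3 : C * (D * (C * L)) + C * L ≤ A * L := by
        have : C * (D * (C * L)) + C * L = (C * D * C + C) * L := by ring
        rw [this]
        exact Nat.mul_le_mul_right _ (by rw [hA]; omega)
      have e4 : C * D ≤ A := by rw [hA]; omega
      rw [mul_add, mul_add]
      omega
    calc ((K.iso m L : ℕ∞) : ℝ≥0∞) ≤
        (C : ℝ≥0∞) * ((D * (D * (C * L) + D) ^ c + D * (C * L) + D : ℕ) : ℝ≥0∞) +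
          (C : ℝ≥0∞) * (L : ℝ≥0∞) := h1.trans (by gcongr)
      _ = ((C * (D * (D * (C * L) + D) ^ c + D * (C * L) + D) + C * L : ℕ) : ℝ≥0∞) := by
          push_cast
          ring
      _ ≤ ((A * (A * L + A) ^ c + A * L + A : ℕ) : ℝ≥0∞) := Nat.cast_le.2 h3
      _ = _ := by
          push_cast
          ring
  · exact ⟨0, fun K hK => absurd ⟨K, hK⟩ hex⟩

end Pool.Agent.H.MP_e5d137_al.GLn
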