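import Pool.Agent.H.MP_e5d137_al.GLn.ConeG
import Pool.Agent.H.MP_e5d137_al.GLn.Abv
import Pool.Agent.H.MP_e5d137_al.GLn.PolyK

/-!
# The isoperimetric functions of `GL(n, ℤ)`
-/

namespace Pool.Agent.H.MP_e5d137_al.GLn

open scoped ENNReal
open Pool.Agent.H.MP_e5d137_al.UB

theorem upper_exp (n m : ℕ) (hm : 1 ≤ m) (K : GComplex (Gm n)) (hK : K.FiniteTo (m + 1)) :
    Dominated (fun L => (K.iso m L : ℝ≥0∞)) (expRoot m) :=
  upper_of_cone El_szf (cone_GL n) K m hm hK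

theorem upper_poly (n m : ℕ) (hn : 1 ≤ n) (hm : 1 ≤ m) (hnm : n ≤ m + 1) :
    ∃ c : ℕ, ∀ K : GComplex (Gm n), K.FiniteTo (m + 1) →
      Dominated (fun L => (K.iso m L : ℝ≥0∞)) (fun L => (L : ℝ≥0∞) ^ c) := by
  obtain ⟨d, rfl⟩ : ∃ d, n = d + 1 := ⟨n - 1, by omega⟩
  exact poly_unif hm fun K hK => poly_of_bar El_szf m hm
    (fun R => bar_poly d m hm (by omega) (cone_GL (d + 1)) R) K hK

end Pool.Agent.H.MP_e5d137_al.GLn
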