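import Pool.Agent.H.MP_e5d137_al.GLn.IwaB

/-!
# Clusters
-/

namespace Pool.Agent.H.MP_e5d137_al.GLn

open Finset Matrix

variable {n d : ℕ}

/-- single linkage: equivalence relation on elements generated by `Stp` inside the finite set
`V` -/
def Clq (V : Finset (Gm (d + 1))) (Λ M : ℝ) (α : Fin d → ℤ) (g h : Gm (d + 1)) : Prop :=
  Relation.EqvGen (fun a b => a ∈ V ∧ b ∈ V ∧ Stp Λ M α a b) g h

lemma Clq.equiv (V : Finset (Gm (d + 1))) (Λ M : ℝ) (α : Fin d → ℤ) :
    Equivalence (Clq V Λ M α) := Relation.EqvGen.is_equivalence _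

lemma Clq.mono {V : Finset (Gm (d + 1))} {Λ M : ℝ} (hΛ : 0 ≤ Λ) (hM : 0 ≤ M) {α β : Fin d → ℤ}
    (h : α ≤ β) {g k : Gm (d + 1)} (hs : Clq V Λ M α g k) : Clq V Λ M β g k := by
  induction hs with
  | rel a b hab => exact Relation.EqvGen.rel _ _ ⟨hab.1, hab.2.1, hab.2.2.mono hΛ hM h⟩
  | refl a => exact Relation.EqvGen.refl a
  | symm a b _ ih => exact Relation.EqvGen.symm _ _ ih
  | trans a b c _ _ ih1 ih2 => exact Relation.EqvGen.trans _ _ _ ih1 ih2

/-- chains inside `V`, from a walk in the graph of the relation -/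
lemma CluB_walk {V : Type*} (r : V → V → Prop) (G : SimpleGraph V) (hG : ∀ a b, G.Adj a b → r a b)
    {g h : V} (p : G.Walk g h) : ∃ L : List V, p.support = g :: L ∧ L.length = p.length ∧
      List.IsChain r (g :: L) ∧ (g :: L).getLast (by simp) = h := by
  induction p with
  | nil => exact ⟨[], by simp⟩
  | @cons u v w hadj p ih =>
    obtain ⟨L, h1, h2, h3, h4⟩ := ih
    refine ⟨v :: L, by simp [h1], by simp [h2], ?_, ?_⟩
    · exact List.IsChain.cons_cons (hG _ _ hadj) h3
    · rw [List.getLast_cons (by simp)]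
      exact h4

/-- Two elements in one cluster are joined by a chain of at most `V.card` steps. -/
lemma Clq.chain {V : Finset (Gm (d + 1))} {Λ M : ℝ} {α : Fin d → ℤ} {g h : Gm (d + 1)}
    (hs : Clq V Λ M α g h) (hg : g ∈ V) : ∃ L : List (Gm (d + 1)), L.length ≤ V.card ∧
      List.IsChain (fun a b => Stp Λ M α a b) (g :: L) ∧ (g :: L).getLast (by simp) = h := by
  classical
  let G : SimpleGraph (Gm (d + 1)) :=
    { Adj := fun a b => a ≠ b ∧ a ∈ V ∧ b ∈ V ∧ Stp Λ M α a b
      symm := ⟨fun a b hab => ⟨hab.1.symm, hab.2.2.1, hab.2.1, hab.2.2.2.symm⟩⟩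
      loopless := ⟨fun a ha => ha.1 rfl⟩ }
  have hreach : ∀ a b, Clq V Λ M α a b → G.Reachable a b := by
    intro a b hab
    induction hab with
    | rel a b hab =>
      by_cases e : a = b
      · rw [e]
      · exact SimpleGraph.Adj.reachable (G := G) ⟨e, hab.1, hab.2.1, hab.2.2⟩
    | refl a => exact SimpleGraph.Reachable.refl a
    | symm a b _ ih => exact ih.symm
    | trans a b c _ _ ih1 ih2 => exact ih1.trans ih2
  obtain ⟨p, hp⟩ := (hreach g h hs).exists_isPath
  obtain ⟨L, h1, h2, h3, h4⟩ := CluB_walk (fun a b => Stp Λ M α a b) G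
    (fun a b hab => hab.2.2.2) p
  refine ⟨L, ?_, h3, h4⟩
  have hmem : ∀ {a b : Gm (d + 1)} (q : G.Walk a b), a ∈ V → ∀ x ∈ q.support, x ∈ V := by
    intro a b q
    induction q with
    | nil =>
      intro ha x hx
      rw [SimpleGraph.Walk.support_nil, List.mem_singleton] at hx
      rwa [hx]
    | cons hadj q ih =>
      intro ha x hx
      rw [SimpleGraph.Walk.support_cons, List.mem_cons] at hx
      rcases hx with rfl | hx
      · exact ha
      · exact ih hadj.2.2.1 x hx
  have hnd : (g :: L).Nodup := by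
    rw [← h1]
    exact hp.support_nodup
  have hsub : L.toFinset ⊆ V := by
    intro x hx
    refine hmem p hg x ?_
    rw [h1]
    exact List.mem_cons_of_mem _ (List.mem_toFinset.1 hx)
  rw [← List.toFinset_card_of_nodup (List.nodup_cons.1 hnd).2]
  exact Finset.card_le_card hsub

end Pool.Agent.H.MP_e5d137_al.GLn
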