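import Pool.Agent.H.MP_e5d137_al.GLn.CluA
import Pool.Agent.H.MP_e5d137_al.GLn.CluB

/-!
# Diameter of the clusters
-/

namespace Pool.Agent.H.MP_e5d137_al.GLn

open Finset Matrix

variable {n d : ℕ}

/-- The relative coordinate of the ends of a chain is the product of the relative coordinates. -/
lemma Clu_chain {Λ M : ℝ} {α : Fin d → ℤ} (L : List (Gm (d + 1))) : ∀ (g : Gm (d + 1)),
    List.IsChain (fun a b => Stp Λ M α a b) (g :: L) →
    ∃ W : List (Matrix (Fin (d + 1)) (Fin (d + 1)) ℝ), W.length = L.length ∧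
      (∀ w ∈ W, UT w ∧ ∀ i j, i < j → w i j ^ 2 ≤ M * Real.exp (Λ * (ht α j - ht α i : ℤ))) ∧
      W.prod = iw g ((g :: L).getLast (by simp)) := by
  induction L with
  | nil =>
    intro g _
    exact ⟨[], rfl, by simp, by simp [iw_self]⟩
  | cons a L ih =>
    intro g hc
    rw [List.isChain_cons_cons] at hc
    obtain ⟨W, h1, h2, h3⟩ := ih a hc.2
    refine ⟨iw g a :: W, by simp [h1], ?_, ?_⟩
    · intro w hw
      rcases List.mem_cons.1 hw with rfl | hw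
      · exact ⟨iw_ut g a, fun i j hij => (hc.1 i j hij).1⟩
      · exact h2 w hw
    · rw [List.prod_cons, h3, iw_mul]
      simp

lemma Clu_entry {Λ M : ℝ} (hM : 1 ≤ M) {V : Finset (Gm (d + 1))}
    {α : Fin d → ℤ} {g h : Gm (d + 1)} (hg : g ∈ V) (hs : Clq V Λ M α g h)
    (i j : Fin (d + 1)) (hij : i < j) :
    iw g h i j ^ 2 ≤ ((V.card : ℝ) ^ 2 * M) ^ d * Real.exp (Λ * (ht α j - ht α i : ℤ)) := by
  obtain ⟨L, hL, hc, hl⟩ := Clq.chain hs hg
  obtain ⟨W, h1, h2, h3⟩ := Clu_chain L g hc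
  rw [hl] at h3
  have hM0 : 0 ≤ M := by linarith
  have hex : ∀ i j : Fin (d + 1), Real.exp (Λ * (ht α j - ht α i : ℤ)) =
      Real.exp (Λ * (ht α j : ℝ) / 2 - Λ * (ht α i : ℝ) / 2) ^ 2 := by
    intro i j
    rw [← Real.exp_nat_mul]
    congr 1
    push_cast
    ring
  have h4 := (prod_bound (c := √M) (Real.one_le_sqrt.2 hM) (fun i => Λ * (ht α i : ℝ) / 2) W
    (fun w hw => ⟨(h2 w hw).1, fun i j hij => by
      refine abs_le_of_sq_le_sq ?_ (by positivity)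
      rw [mul_pow, Real.sq_sqrt hM0, ← hex]
      exact (h2 w hw).2 i j hij⟩)).2 i j hij.le
  rw [h3] at h4
  have h5 : (1 : ℝ) ≤ V.card := by
    exact_mod_cast Finset.card_pos.2 ⟨g, hg⟩
  have h6 : ((W.length : ℝ) * √M) ^ 2 ≤ (V.card : ℝ) ^ 2 * M := by
    rw [mul_pow, Real.sq_sqrt hM0]
    have : (W.length : ℝ) ≤ V.card := by exact_mod_cast h1 ▸ hL
    gcongr
  have h7 : (1 : ℝ) ≤ (V.card : ℝ) ^ 2 * M := by
    have := one_le_pow₀ (n := 2) h5
    nlinarith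
  calc iw g h i j ^ 2 = |iw g h i j| ^ 2 := (sq_abs _).symm
    _ ≤ (((W.length : ℝ) * √M) ^ ((j : ℕ) - i) *
        Real.exp (Λ * (ht α j : ℝ) / 2 - Λ * (ht α i : ℝ) / 2)) ^ 2 :=
        pow_le_pow_left₀ (abs_nonneg _) h4 2
    _ = (((W.length : ℝ) * √M) ^ 2) ^ ((j : ℕ) - i) *
        Real.exp (Λ * (ht α j - ht α i : ℤ)) := by
        rw [mul_pow, hex, ← pow_mul, ← pow_mul, mul_comm 2]
    _ ≤ ((V.card : ℝ) ^ 2 * M) ^ ((j : ℕ) - i) * Real.exp (Λ * (ht α j - ht α i : ℤ)) := by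
        gcongr
    _ ≤ _ := by
        have : (j : ℕ) - i ≤ d := by omega
        gcongr

/-- Elements of one cluster: relative unipotent coordinates are bounded by a power of the number
of elements. -/
theorem Clq.bound (d : ℕ) (Λ M : ℝ) (hM : 1 ≤ M) : ∃ c : ℕ, ∀ (V : Finset (Gm (d + 1)))
    (α : Fin d → ℤ) (g h : Gm (d + 1)), g ∈ V → h ∈ V → Clq V Λ M α g h →
    Stp Λ (((V.card + 2) ^ c : ℕ) : ℝ) α g h := by
  obtain ⟨K, hK⟩ := pow_unbounded_of_one_lt M one_lt_two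
  refine ⟨(2 + K) * d, fun V α g h hg hh hs i j hij => ?_⟩
  have h1 : ((V.card : ℝ) ^ 2 * M) ^ d ≤ (((V.card + 2) ^ ((2 + K) * d) : ℕ) : ℝ) := by
    push_cast
    rw [pow_mul, pow_add]
    have h2 : (0 : ℝ) ≤ V.card := Nat.cast_nonneg _
    have h3 : M ≤ ((V.card : ℝ) + 2) ^ K :=
      hK.le.trans (pow_le_pow_left₀ (by norm_num) (by linarith) K)
    gcongr
    linarith
  have hs' : Clq V Λ M α h g := (Clq.equiv V Λ M α).symm hs
  constructor
  · exact (Clu_entry hM hg hs i j hij).trans (mul_le_mul_of_nonneg_right h1 (Real.exp_pos _).le)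
  · exact (Clu_entry hM hh hs' i j hij).trans (mul_le_mul_of_nonneg_right h1 (Real.exp_pos _).le)

end Pool.Agent.H.MP_e5d137_al.GLn
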