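import Pool.Agent.H.MP_e5d137_al.GLn.Lag

/-!
# Products of unitriangular matrices
-/

namespace Pool.Agent.H.MP_e5d137_al.GLn

open Finset Matrix

variable {n d : ℕ}

lemma CluA_geo {c R : ℝ} (hc : 0 ≤ c) (hR : 0 ≤ R) (m : ℕ) :
    ∑ l ∈ range (m + 1), c ^ l * R ^ (m - l) ≤ (R + c) ^ m := by
  rw [add_comm R c, add_pow]
  refine sum_le_sum fun l hl => ?_
  have h1 : 1 ≤ m.choose l := Nat.choose_pos (by rw [mem_range] at hl; omega)
  have h2 : (1 : ℝ) ≤ (m.choose l : ℝ) := by exact_mod_cast h1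
  exact le_mul_of_one_le_right (by positivity) h2

lemma CluA_sum {c R : ℝ} (hc : 0 ≤ c) (hR : 0 ≤ R) (i j : Fin n) :
    ∑ k ∈ univ.filter (fun k : Fin n => i ≤ k ∧ k ≤ j),
      c ^ ((k : ℕ) - i) * R ^ ((j : ℕ) - k) ≤ (R + c) ^ ((j : ℕ) - i) := by
  refine le_trans ?_ (CluA_geo hc hR ((j : ℕ) - i))
  set S := univ.filter (fun k : Fin n => i ≤ k ∧ k ≤ j) with hS
  have hmem : ∀ k ∈ S, (i : ℕ) ≤ k ∧ (k : ℕ) ≤ j := by
    intro k hk
    rw [hS, mem_filter] at hk
    exact ⟨hk.2.1, hk.2.2⟩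
  have h1 : ∑ k ∈ S, c ^ ((k : ℕ) - i) * R ^ ((j : ℕ) - k) =
      ∑ l ∈ S.image (fun k : Fin n => (k : ℕ) - i), c ^ l * R ^ ((j : ℕ) - i - l) := by
    rw [sum_image]
    · refine sum_congr rfl fun k hk => ?_
      have := hmem k hk
      congr 2
      omega
    · intro k hk k' hk' hkk
      have h2 := hmem k hk
      have h3 := hmem k' hk'
      apply Fin.ext
      simp only at hkk
      omega
  rw [h1]
  refine sum_le_sum_of_subset_of_nonneg ?_ (fun l _ _ => by positivity)
  intro l hl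
  obtain ⟨k, hk, rfl⟩ := mem_image.1 hl
  have := hmem k hk
  rw [mem_range]
  omega

/-- Products of `r` unitriangular matrices with entries `≤ c exp (λ_j - λ_i)`. -/
lemma prod_bound {c : ℝ} (hc : 1 ≤ c) (lam : Fin n → ℝ) (L : List (Matrix (Fin n) (Fin n) ℝ))
    (hL : ∀ w ∈ L, UT w ∧ ∀ i j, i < j → |w i j| ≤ c * Real.exp (lam j - lam i)) :
    UT L.prod ∧ ∀ i j, i ≤ j →
      |L.prod i j| ≤ (L.length * c) ^ ((j : ℕ) - i) * Real.exp (lam j - lam i) := by
  induction L with
  | nil =>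
    rw [List.prod_nil]
    refine ⟨UT.one, fun i j hij => ?_⟩
    rcases eq_or_lt_of_le hij with rfl | h
    · simp
    · rw [Matrix.one_apply_ne h.ne, abs_zero]
      positivity
  | cons w L ih =>
    obtain ⟨hw, hwb⟩ := hL w (by simp)
    obtain ⟨hP, hPb⟩ := ih (fun v hv => hL v (by simp [hv]))
    rw [List.prod_cons]
    refine ⟨hw.mul hP, fun i j hij => ?_⟩
    set R : ℝ := (L.length : ℝ) * c with hR
    have hc0 : 0 ≤ c := by linarith
    have hR0 : 0 ≤ R := by positivity
    have hlen : (((w :: L).length : ℕ) : ℝ) * c = R + c := by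
      rw [List.length_cons, hR]; push_cast; ring
    rw [hlen, Matrix.mul_apply]
    have hwk : ∀ k, i ≤ k → |w i k| ≤ c ^ ((k : ℕ) - i) * Real.exp (lam k - lam i) := by
      intro k hk
      rcases eq_or_lt_of_le hk with rfl | h
      · rw [hw.1 i]; simp
      · refine (hwb i k h).trans (mul_le_mul_of_nonneg_right ?_ (Real.exp_pos _).le)
        have h' : (i : ℕ) < k := h
        exact le_self_pow₀ hc (by omega)
    have hsum : ∑ k, w i k * L.prod k j =
        ∑ k ∈ univ.filter (fun k : Fin n => i ≤ k ∧ k ≤ j), w i k * L.prod k j := by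
      symm
      apply sum_subset (filter_subset _ _)
      intro k _ hk
      rw [mem_filter] at hk
      push Not at hk
      rcases lt_or_ge k i with h | h
      · rw [hw.2 i k h, zero_mul]
      · rw [hP.2 k j (hk (mem_univ _) h), mul_zero]
    rw [hsum]
    calc |∑ k ∈ univ.filter (fun k : Fin n => i ≤ k ∧ k ≤ j), w i k * L.prod k j|
        ≤ ∑ k ∈ univ.filter (fun k : Fin n => i ≤ k ∧ k ≤ j), |w i k * L.prod k j| :=
          abs_sum_le_sum_abs _ _
      _ ≤ ∑ k ∈ univ.filter (fun k : Fin n => i ≤ k ∧ k ≤ j),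
          (c ^ ((k : ℕ) - i) * R ^ ((j : ℕ) - k)) * Real.exp (lam j - lam i) := by
          refine sum_le_sum fun k hk => ?_
          rw [mem_filter] at hk
          rw [abs_mul]
          calc |w i k| * |L.prod k j| ≤ (c ^ ((k : ℕ) - i) * Real.exp (lam k - lam i)) *
                (R ^ ((j : ℕ) - k) * Real.exp (lam j - lam k)) :=
                mul_le_mul (hwk k hk.2.1) (hPb k j hk.2.2) (abs_nonneg _) (by positivity)
            _ = (c ^ ((k : ℕ) - i) * R ^ ((j : ℕ) - k)) *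
                (Real.exp (lam k - lam i) * Real.exp (lam j - lam k)) := by ring
            _ = _ := by rw [← Real.exp_add]; congr 2; ring
      _ = (∑ k ∈ univ.filter (fun k : Fin n => i ≤ k ∧ k ≤ j),
          c ^ ((k : ℕ) - i) * R ^ ((j : ℕ) - k)) * Real.exp (lam j - lam i) := by
          rw [sum_mul]
      _ ≤ (R + c) ^ ((j : ℕ) - i) * Real.exp (lam j - lam i) :=
          mul_le_mul_of_nonneg_right (CluA_sum hc0 hR0 i j) (Real.exp_pos _).le

end Pool.Agent.H.MP_e5d137_al.GLn
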