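import Pool.Agent.H.MP_e5d137_al.UB.Phi

/-!
# The collapse of the subdivision of a cycle: levels and classes
-/

namespace Pool.Agent.H.MP_e5d137_al.GLn

open Finsupp
open Pool.Agent.H.MP_e5d137_al.UB

variable {G : Type} {d : ℕ}

/-- the coordinatewise minimum of the levels of the entries -/
noncomputable def mt (lev : G → Fin d → ℤ) (ρ : List G) : Fin d → ℤ :=
  fun i => sInf ((fun a => lev a i) '' {a | a ∈ ρ})

/-- the vertex of the collapsed complex: level and class -/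
noncomputable def kY (lev : G → Fin d → ℤ) (Q : (Fin d → ℤ) → G → G → Prop) (ρ : List G) :
    (Fin d → ℤ) × Set G :=
  (mt lev ρ, {b | ∃ a ∈ ρ, Q (mt lev ρ) a b})

lemma CombA_fin (lev : G → Fin d → ℤ) (ρ : List G) (i : Fin d) :
    ((fun a => lev a i) '' {a | a ∈ ρ}).Finite :=
  (List.finite_toSet ρ).image _

lemma mt_le (lev : G → Fin d → ℤ) {ρ : List G} {a : G} (ha : a ∈ ρ) : mt lev ρ ≤ lev a := by
  intro i
  exact csInf_le (CombA_fin lev ρ i).bddBelow ⟨a, ha, rfl⟩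

lemma mt_mem (lev : G → Fin d → ℤ) {ρ : List G} (hρ : ρ ≠ []) (i : Fin d) :
    ∃ a ∈ ρ, mt lev ρ i = lev a i := by
  obtain ⟨b, hb⟩ := List.exists_mem_of_ne_nil ρ hρ
  have hne : ((fun a => lev a i) '' {a | a ∈ ρ}).Nonempty := ⟨_, b, hb, rfl⟩
  obtain ⟨a, ha, h⟩ := Int.csInf_mem hne (CombA_fin lev ρ i).bddBelow
  exact ⟨a, ha, h.symm⟩

lemma mt_anti (lev : G → Fin d → ℤ) {ρ ρ' : List G} (h : ρ'.Sublist ρ) (h' : ρ' ≠ []) :
    mt lev ρ ≤ mt lev ρ' := by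
  intro i
  obtain ⟨a, ha, e⟩ := mt_mem lev h' i
  rw [e]
  exact mt_le lev (h.subset ha) i

/-- The last list of a decreasing chain of lists is contained in all of them. -/
lemma CombA_common {V : Type} : ∀ (τ : List (List V)), τ ≠ [] → (∀ ρ ∈ τ, ρ ≠ []) →
    τ.Pairwise (fun ρ ρ' => ρ'.Sublist ρ) → ∃ a : V, ∀ ρ ∈ τ, a ∈ ρ
  | [], h, _, _ => absurd rfl h
  | [ρ], _, h1, _ => by
    obtain ⟨a, ha⟩ := List.exists_mem_of_ne_nil ρ (h1 ρ (by simp))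
    exact ⟨a, fun ρ' h => by
      rw [List.mem_singleton] at h
      rwa [h]⟩
  | ρ :: ρ₁ :: τ, _, h1, h2 => by
    rw [List.pairwise_cons] at h2
    obtain ⟨a, ha⟩ := CombA_common (ρ₁ :: τ) (by simp)
      (fun ρ' h => h1 ρ' (List.mem_cons_of_mem _ h)) h2.2
    refine ⟨a, fun ρ' h => ?_⟩
    rcases List.mem_cons.1 h with rfl | h
    · exact (h2.1 ρ₁ (by simp)).subset (ha ρ₁ (by simp))
    · exact ha ρ' h

/-- The lists in the collapsed subdivision: weakly increasing levels in a unit cube, classes of a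
common element. -/
lemma supp_kY {m : ℕ} (lev : G → Fin d → ℤ) (Q : (Fin d → ℤ) → G → G → Prop)
    (hQ : ∀ α, Equivalence (Q α)) (hmono : ∀ α β a b, α ≤ β → Q α a b → Q β a b) (z : Ch G)
    (hlen : ∀ σ ∈ z.support, σ.length = m + 1)
    (hlev : ∀ σ ∈ z.support, ∀ a ∈ σ, ∀ b ∈ σ, ∀ i, lev a i ≤ lev b i + 1)
    (hcl : ∀ σ ∈ z.support, ∀ a ∈ σ, ∀ b ∈ σ, Q (mt lev σ) a b)
    {τ : List ((Fin d → ℤ) × Set G)} (hτ : τ ∈ (mp (kY lev Q) (sd z)).support) :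
    τ.length = m + 1 ∧ τ.Pairwise (fun y y' => y.1 ≤ y'.1) ∧
    (∀ y ∈ τ, ∀ y' ∈ τ, ∀ i, y.1 i ≤ y'.1 i + 1) ∧
    ∃ a : G, ∀ y ∈ τ, y.2 = {b | Q y.1 a b} := by
  obtain ⟨τ', hτ', rfl⟩ := supp_mp hτ
  rw [sd] at hτ'
  obtain ⟨σ, hσ, hτ'⟩ := supp_lc _ _ hτ'
  obtain ⟨h1, h2, h3⟩ := supp_sdl hτ'
  have hl := hlen σ hσ
  have hne : τ' ≠ [] := by
    rintro rfl
    simp only [List.length_nil] at h1
    omega
  obtain ⟨a, ha⟩ := CombA_common τ' hne (fun ρ h => (h2 ρ h).1) h3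
  refine ⟨by rw [List.length_map, h1, hl], ?_, ?_, a, ?_⟩
  · rw [List.pairwise_map]
    refine h3.imp_of_mem ?_
    intro ρ ρ' _ hρ' hs
    exact mt_anti lev hs (h2 ρ' hρ').1
  · intro y hy y' hy' i
    obtain ⟨ρ, hρ, rfl⟩ := List.mem_map.1 hy
    obtain ⟨ρ', hρ', rfl⟩ := List.mem_map.1 hy'
    obtain ⟨c, hc, e⟩ := mt_mem lev (h2 ρ' hρ').1 i
    obtain ⟨b, hb⟩ := List.exists_mem_of_ne_nil ρ (h2 ρ hρ).1
    show mt lev ρ i ≤ mt lev ρ' i + 1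
    rw [e]
    exact (mt_le lev hb i).trans
      (hlev σ hσ b ((h2 ρ hρ).2.subset hb) c ((h2 ρ' hρ').2.subset hc) i)
  · intro y hy
    obtain ⟨ρ, hρ, rfl⟩ := List.mem_map.1 hy
    obtain ⟨hρ1, hρ2⟩ := h2 ρ hρ
    have hm : mt lev σ ≤ mt lev ρ := mt_anti lev hρ2 hρ1
    ext b
    show (∃ a' ∈ ρ, Q (mt lev ρ) a' b) ↔ Q (mt lev ρ) a b
    constructor
    · rintro ⟨a', ha', h⟩
      exact (hQ _).trans (hmono _ _ a a' hm
        (hcl σ hσ a (hρ2.subset (ha ρ hρ)) a' (hρ2.subset ha'))) h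
    · intro h
      exact ⟨a, ha ρ hρ, h⟩

end Pool.Agent.H.MP_e5d137_al.GLn
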