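import Pool.Agent.H.MP_e5d137_al.GLn.SiegA

/-!
# Size of reduced bases
-/

namespace Pool.Agent.H.MP_e5d137_al.GLn

open Finset Matrix

variable {n : ℕ}

/-- `P` and `P'` differ at most by the factor `X` -/
def Cmp (X : ℝ) (P P' : Matrix (Fin n) (Fin n) ℝ) : Prop :=
  ∀ x, ev P x ≤ X * ev P' x ∧ ev P' x ≤ X * ev P x

private lemma PertA_col (g : Gm n) (l : Fin n) :
    rm g *ᵥ Pi.single l 1 = fun i => (((g : Matrix (Fin n) (Fin n) ℤ) i l : ℤ) : ℝ) := by
  funext i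
  simp [rm]

private lemma PertA_single (l : Fin n) : nsq (Pi.single l (1 : ℝ)) = 1 := by
  unfold nsq
  rw [Finset.sum_eq_single l]
  · simp
  · intro b _ hb
    simp [Pi.single_eq_of_ne hb]
  · intro h
    exact absurd (Finset.mem_univ l) h

private lemma PertA_int (x : Fin n → ℤ) (hx : x ≠ 0) : 1 ≤ nsq (fun i => (x i : ℝ)) := by
  obtain ⟨i, hi⟩ := Function.ne_iff.mp hx
  have hi' : x i ≠ 0 := by simpa using hi
  have h1 : (1 : ℤ) ≤ x i ^ 2 := by
    have := sq_pos_of_ne_zero hi'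
    omega
  have h2 : (1 : ℝ) ≤ (x i : ℝ) ^ 2 := by exact_mod_cast h1
  unfold nsq
  exact h2.trans (Finset.single_le_sum (f := fun i => ((x i : ℝ)) ^ 2)
    (fun _ _ => sq_nonneg _) (Finset.mem_univ i))

private lemma PertA_back (g : Gm n) (x : Fin n → ℝ) : rm g *ᵥ (rm g⁻¹ *ᵥ x) = x := by
  rw [Matrix.mulVec_mulVec, rm_mul_inv, Matrix.one_mulVec]

private lemma PertA_col_ne (g : Gm n) (l : Fin n) :
    (fun i => (g : Matrix (Fin n) (Fin n) ℤ) i l) ≠ 0 := by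
  intro h0
  have h1 : rm g *ᵥ Pi.single l 1 = 0 := by
    rw [PertA_col]
    funext i
    have := congrFun h0 i
    simp only [Pi.zero_apply] at this
    simp [this]
  have h2 : rm g⁻¹ *ᵥ (rm g *ᵥ Pi.single l 1) = Pi.single l 1 := by
    rw [Matrix.mulVec_mulVec, rm_inv_mul, Matrix.one_mulVec]
  rw [h1, Matrix.mulVec_zero] at h2
  have h3 := congrFun h2 l
  simp at h3

private lemma PertA_nsq_entry (x : Fin n → ℝ) (i : Fin n) : x i ^ 2 ≤ nsq x := by
  unfold nsq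
  exact Finset.single_le_sum (f := fun i => (x i) ^ 2)
    (fun _ _ => sq_nonneg _) (Finset.mem_univ i)

/-- the diagonal entries of a reduced form of size `≤ X` -/
lemma diag_size {t X : ℝ} (ht : 1 ≤ t) (hX : 1 ≤ X) {P : Matrix (Fin n) (Fin n) ℝ}
    (hP : Cmp X P (fm 1)) {g : Gm n} {a : Fin n → ℝ} {u : Matrix (Fin n) (Fin n) ℝ}
    (h : Sg t a u) (hg : ∀ x, ev P (rm g *ᵥ x) = qf a u x) (j : Fin n) :
    1 ≤ t * X * a j ∧ a j ≤ t * X := by
  have hX0 : 0 < X := by linarith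
  have ht0 : 0 < t := by linarith
  constructor
  · have hn : 0 < n := lt_of_le_of_lt (Nat.zero_le _) j.isLt
    let o : Fin n := ⟨0, hn⟩
    have hoj : o ≤ j := Fin.mk_le_of_le_val (Nat.zero_le _)
    have h1 := h.mono o j hoj
    have h2 : qf a u (Pi.single o 1) = a o := by
      rw [qf_single, Finset.sum_eq_single o]
      · rw [h.ut.1 o]
        ring
      · intro b _ hb
        have hb' : o < b := lt_of_le_of_ne (Fin.mk_le_of_le_val (Nat.zero_le _)) (Ne.symm hb)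
        rw [h.ut.2 b o hb']
        ring
      · intro h0
        exact absurd (Finset.mem_univ o) h0
    have h3 := hg (Pi.single o 1)
    have h4 := (hP (rm g *ᵥ Pi.single o 1)).2
    rw [ev_fm_one, h3, h2] at h4
    have h5 : 1 ≤ nsq (rm g *ᵥ Pi.single o 1) := by
      rw [PertA_col]
      exact PertA_int _ (PertA_col_ne g o)
    have h6 : X * a o ≤ X * (t * a j) := mul_le_mul_of_nonneg_left h1 hX0.le
    nlinarith
  · obtain ⟨i, l, -, hji, hne⟩ := exists_entry g⁻¹ j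
    have h1 := lower_of_entry h (fun i => ((g⁻¹ : Gm n) : Matrix (Fin n) (Fin n) ℤ) i l) j i hji
      hne ht
    have h2 : (fun i => (((fun i => ((g⁻¹ : Gm n) : Matrix (Fin n) (Fin n) ℤ) i l) i : ℤ) : ℝ)) =
        rm g⁻¹ *ᵥ Pi.single l 1 := (PertA_col g⁻¹ l).symm
    rw [h2, ← hg, PertA_back] at h1
    have h3 := (hP (Pi.single l 1)).1
    rw [ev_fm_one, PertA_single, mul_one] at h3
    exact h1.trans (mul_le_mul_of_nonneg_left h3 ht0.le)

/-- Size of a reduced basis (centre `1`).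

Proof.  `a_j ≥ a_0 / t = P (g e₀) / t ≥ 1 / (t X)` (as `|g e₀| ≥ 1`).  `a_j ≤ t X`: by
`exists_entry` for `g⁻¹` there are `l ≤ j ≤ i` with `(g⁻¹)_il ≠ 0` and by `lower_of_entry`
`a_j ≤ t qf a u (g⁻¹ e_l) = t P (e_l) ≤ t X`.  Entries of `g`: `|g e_j|² ≤ X P (g e_j) =
X qf a u e_j ≤ X n t^3 a_j`.  Entries of `g⁻¹`: `qf a u (g⁻¹ e_l) = P (e_l) ≤ X`, so all entries
of `u g⁻¹ e_l` are at most `(X t X)^{1/2}`, and `tri_bound`. -/
theorem red_size_one (n : ℕ) (t : ℝ) (ht : 1 ≤ t) : ∃ c : ℕ, ∀ X : ℕ, 2 ≤ X →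
    ∀ (P : Matrix (Fin n) (Fin n) ℝ) (g : Gm n), Cmp X P (fm 1) → Rd t P g →
    El g ≤ X ^ c := by
  obtain ⟨K, hK⟩ := exists_nat_ge (max (n * t ^ 4) (t * (1 + t) ^ n))
  have hK1 : (n : ℝ) * t ^ 4 ≤ K := (le_max_left _ _).trans hK
  have hK2 : t * (1 + t) ^ n ≤ K := (le_max_right _ _).trans hK
  have ht0 : 0 < t := by linarith
  have hKt : 1 ≤ t * (1 + t) ^ n := by
    have : (1 : ℝ) ≤ (1 + t) ^ n := one_le_pow₀ (by linarith)
    nlinarith
  have hK3 : (1 : ℝ) ≤ K := hKt.trans hK2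
  refine ⟨n * K + 1 + 1, fun X hX P g hP hR => ?_⟩
  have hX1 : (1 : ℝ) ≤ X := by exact_mod_cast (by omega : 1 ≤ X)
  have hX0 : (0 : ℝ) < X := by linarith
  obtain ⟨a, u, h, hg⟩ := hR
  have hd := diag_size ht hX1 hP h hg
  have e1 : ∀ i j, |rm g i j| ≤ ((K * X : ℕ) : ℝ) := by
    intro i j
    have h1 := (hP (rm g *ᵥ Pi.single j 1)).2
    rw [ev_fm_one, hg] at h1
    have h2 := qf_single_le h ht j
    have h3 := (hd j).2
    have h4 := PertA_nsq_entry (rm g *ᵥ Pi.single j 1) i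
    have h5 : (rm g *ᵥ Pi.single j 1) i = rm g i j := by simp
    rw [h5] at h4
    have h6 : (n : ℝ) * t ^ 3 * a j ≤ n * t ^ 3 * (t * X) :=
      mul_le_mul_of_nonneg_left h3 (by positivity)
    have h7 : (X : ℝ) * qf a u (Pi.single j 1) ≤ X * (n * t ^ 3 * (t * X)) :=
      mul_le_mul_of_nonneg_left (h2.trans h6) hX0.le
    have h8 : rm g i j ^ 2 ≤ (K * X : ℝ) ^ 2 := by
      have h9 : (X : ℝ) * (n * t ^ 3 * (t * X)) = (n * t ^ 4) * X ^ 2 := by ring
      have h10 : ((n : ℝ) * t ^ 4) * X ^ 2 ≤ K * X ^ 2 :=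
        mul_le_mul_of_nonneg_right hK1 (by positivity)
      have h11 : (K : ℝ) * X ^ 2 ≤ (K * X) ^ 2 := by
        have : (K : ℝ) ≤ K ^ 2 := by nlinarith
        calc (K : ℝ) * X ^ 2 ≤ K ^ 2 * X ^ 2 := mul_le_mul_of_nonneg_right this (by positivity)
          _ = (K * X) ^ 2 := by ring
      linarith
    push_cast
    exact abs_le_of_sq_le_sq h8 (by positivity)
  have e2 : ∀ i j, |rm g⁻¹ i j| ≤ ((K * X : ℕ) : ℝ) := by
    intro i l
    have h1 := (hP (Pi.single l 1)).1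
    rw [ev_fm_one, PertA_single, mul_one, ← PertA_back g (Pi.single l 1), hg] at h1
    have h2 : ∀ k, |(u *ᵥ (rm g⁻¹ *ᵥ Pi.single l 1)) k| ≤ t * X := by
      intro k
      have h3 : a k * ((u *ᵥ (rm g⁻¹ *ᵥ Pi.single l 1)) k) ^ 2 ≤ X := by
        refine le_trans ?_ h1
        unfold qf
        exact Finset.single_le_sum
          (f := fun k => a k * ((u *ᵥ (rm g⁻¹ *ᵥ Pi.single l 1)) k) ^ 2)
          (fun k _ => mul_nonneg (h.pos k).le (sq_nonneg _)) (Finset.mem_univ k)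
      have h4 := (hd k).1
      have h5 := h.pos k
      set y := (u *ᵥ (rm g⁻¹ *ᵥ Pi.single l 1)) k with hy
      have h6 : y ^ 2 ≤ (t * X) ^ 2 := by
        have h7 : y ^ 2 ≤ t * X * a k * y ^ 2 := by nlinarith [sq_nonneg y]
        have h8 : t * X * (a k * y ^ 2) ≤ t * X * X :=
          mul_le_mul_of_nonneg_left h3 (by positivity)
        have h9 : t * X * X ≤ (t * X : ℝ) ^ 2 := by
          have : t ≤ t ^ 2 := by nlinarith
          calc t * X * X = t * X ^ 2 := by ring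
            _ ≤ t ^ 2 * X ^ 2 := mul_le_mul_of_nonneg_right this (by positivity)
            _ = (t * X) ^ 2 := by ring
        nlinarith
      exact abs_le_of_sq_le_sq h6 (by positivity)
    have h3 := tri_bound h.ut ht0.le (by positivity : (0 : ℝ) ≤ t * X) h.le _ h2 i
    have h5 : (rm g⁻¹ *ᵥ Pi.single l 1) i = rm g⁻¹ i l := by simp
    rw [h5] at h3
    push_cast
    calc |rm g⁻¹ i l| ≤ t * X * (1 + t) ^ n := h3
      _ = (t * (1 + t) ^ n) * X := by ring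
      _ ≤ K * X := mul_le_mul_of_nonneg_right hK2 hX0.le
  have h1 := El_le e1 e2
  have h2 : n * K + 1 ≤ X ^ (n * K + 1) :=
    (Nat.lt_pow_self (by omega)).le
  have h3 : max 1 (n * (K * X)) ≤ (n * K + 1) * X := by
    apply max_le
    · exact Nat.mul_pos (Nat.succ_pos _) (by omega)
    · nlinarith
  calc El g ≤ max 1 (n * (K * X)) := h1
    _ ≤ (n * K + 1) * X := h3
    _ ≤ X ^ (n * K + 1) * X := Nat.mul_le_mul_right _ h2
    _ = X ^ (n * K + 1 + 1) := (pow_succ _ _).symm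

/-- size of a reduced basis (any centre; apply the case of centre `1` to
`(rm h)ᵀ * P * rm h` and `h⁻¹ * g`) -/
theorem red_size (n : ℕ) (t : ℝ) (ht : 1 ≤ t) : ∃ c : ℕ, ∀ X : ℕ, 2 ≤ X →
    ∀ (P : Matrix (Fin n) (Fin n) ℝ) (g h : Gm n), Cmp X P (fm h) → Rd t P g →
    El (h⁻¹ * g) ≤ X ^ c := by
  obtain ⟨c, hc⟩ := red_size_one n t ht
  refine ⟨c, fun X hX P g h hP hR => ?_⟩
  have key : ∀ x, ev ((rm h)ᵀ * P * rm h) x = ev P (rm h *ᵥ x) := by
    intro x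
    rw [ev, ev, ← Matrix.mulVec_mulVec, ← Matrix.mulVec_mulVec, Matrix.dotProduct_mulVec,
      Matrix.vecMul_transpose]
  refine hc X hX ((rm h)ᵀ * P * rm h) (h⁻¹ * g) ?_ ?_
  · intro x
    have h1 := hP (rm h *ᵥ x)
    have h2 : ev (fm h) (rm h *ᵥ x) = nsq x := by
      rw [ev_fm, Matrix.mulVec_mulVec, rm_inv_mul, Matrix.one_mulVec]
    rw [key, ev_fm_one, ← h2]
    exact h1
  · obtain ⟨a, u, h1, h2⟩ := hR
    refine ⟨a, u, h1, fun x => ?_⟩
    rw [key, rm_mul, ← Matrix.mulVec_mulVec, PertA_back, h2]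

end Pool.Agent.H.MP_e5d137_al.GLn
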