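import Pool.Agent.H.MP_e5d137_al.UB.Sd

/-!
# Iterated barycentric subdivision of list chains in a real vector space
-/

namespace Pool.Agent.H.MP_e5d137_al.GLn

open Finsupp
open Pool.Agent.H.MP_e5d137_al.UB

universe u

variable {V : Type u} [AddCommGroup V] [Module ℝ V]

/-- barycentre of a list -/
noncomputable def bry (ρ : List V) : V := ((ρ.length : ℝ)⁻¹) • ρ.sum

/-- predicates stable under barycentres -/
def Cvx (p : V → Prop) : Prop := ∀ ρ : List V, ρ ≠ [] → (∀ v ∈ ρ, p v) → p (bry ρ)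

/-- subdivision with vertices in `V` -/
noncomputable def sb : Ch V →ₗ[ℤ] Ch V := (mp bry) ∘ₗ sd

lemma bd_sb (c : Ch V) : bd (sb c) = sb (bd c) := by
  simp only [sb, LinearMap.comp_apply]
  rw [bd_mp, bd_sd]

lemma SubA_pos {ρ : List V} (h : ρ ≠ []) : (0 : ℝ) < ρ.length := by
  exact_mod_cast List.length_pos_of_ne_nil h

lemma SubA_bry (ℓ : V →ₗ[ℝ] ℝ) {ρ : List V} (h : ρ ≠ []) :
    (ρ.length : ℝ) * ℓ (bry ρ) = (ρ.map ℓ).sum := by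
  have h1 := SubA_pos h
  unfold bry
  rw [map_smul, map_list_sum, smul_eq_mul]
  field_simp

lemma SubA_sum_le (l : List ℝ) (r : ℝ) (h : ∀ x ∈ l, x ≤ r) : l.sum ≤ l.length * r := by
  have := List.sum_le_card_nsmul l r h
  simpa using this

lemma SubA_le_sum (l : List ℝ) (r : ℝ) (h : ∀ x ∈ l, r ≤ x) : l.length * r ≤ l.sum := by
  have := List.card_nsmul_le_sum l r h
  simpa using this

/-- half spaces are convex -/
lemma cvx_le (ℓ : V →ₗ[ℝ] ℝ) (r : ℝ) : Cvx (fun v => ℓ v ≤ r) := by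
  intro ρ hρ h
  have h1 := SubA_pos hρ
  have h2 := SubA_bry ℓ hρ
  have h3 := SubA_sum_le (ρ.map ℓ) r (fun x hx => by
    obtain ⟨v, hv, rfl⟩ := List.mem_map.1 hx
    exact h v hv)
  rw [← h2, List.length_map] at h3
  exact le_of_mul_le_mul_left h3 h1

lemma SubA_near (ℓ : V →ₗ[ℝ] ℝ) {ρ : List V} (hρ : ρ ≠ []) (w : V) (ε : ℝ)
    (h : ∀ v ∈ ρ, |ℓ v - ℓ w| ≤ ε) : |ℓ (bry ρ) - ℓ w| ≤ ε := by
  have h1 : ℓ (bry ρ) ≤ ℓ w + ε := by
    refine cvx_le ℓ (ℓ w + ε) ρ hρ (fun v hv => ?_)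
    have := (abs_le.1 (h v hv)).2
    show ℓ v ≤ ℓ w + ε
    linarith
  have h2 : (-ℓ) (bry ρ) ≤ - ℓ w + ε := by
    refine cvx_le (-ℓ) (- ℓ w + ε) ρ hρ (fun v hv => ?_)
    have := (abs_le.1 (h v hv)).1
    show (-ℓ) v ≤ - ℓ w + ε
    rw [LinearMap.neg_apply]
    linarith
  rw [LinearMap.neg_apply] at h2
  rw [abs_le]
  constructor <;> linarith

lemma SubA_mesh (ℓ : V →ₗ[ℝ] ℝ) {σ ρ ρ' : List V} (hρ : ρ.Sublist σ) (hρ' : ρ'.Sublist ρ)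
    (h0 : ρ' ≠ []) {ε : ℝ} (hε : 0 ≤ ε) (h : ∀ v ∈ σ, ∀ w ∈ σ, |ℓ v - ℓ w| ≤ ε) :
    |ℓ (bry ρ) - ℓ (bry ρ')| ≤ (1 - 1 / (σ.length : ℝ)) * ε := by
  obtain ⟨ρ'', hp⟩ := hρ'.exists_perm_append
  have h1 : ρ ≠ [] := by
    rintro rfl
    exact h0 (List.sublist_nil.1 hρ')
  have ha := SubA_pos h0
  have hb := SubA_pos h1
  have ha1 : (1 : ℝ) ≤ ρ'.length := by
    exact_mod_cast List.length_pos_of_ne_nil h0
  have hbn : (ρ.length : ℝ) ≤ σ.length := by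
    exact_mod_cast hρ.length_le
  have hlen : (ρ.length : ℝ) = ρ'.length + ρ''.length := by
    have := hp.length_eq
    rw [List.length_append] at this
    exact_mod_cast this
  have hsum : (ρ.map ℓ).sum = (ρ'.map ℓ).sum + (ρ''.map ℓ).sum := by
    rw [(hp.map ℓ).sum_eq, List.map_append, List.sum_append]
  rw [← SubA_bry ℓ h1, ← SubA_bry ℓ h0] at hsum
  have hmem : ∀ w ∈ ρ'', w ∈ σ := fun w hw =>
    hρ.subset (hp.symm.subset (List.mem_append_right _ hw))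
  have hnear : ∀ w ∈ ρ'', |ℓ (bry ρ') - ℓ w| ≤ ε := fun w hw =>
    SubA_near ℓ h0 w ε (fun v hv => h v (hρ.subset (hρ'.subset hv)) w (hmem w hw))
  have hup := SubA_sum_le (ρ''.map ℓ) (ℓ (bry ρ') + ε) (fun x hx => by
    obtain ⟨w, hw, rfl⟩ := List.mem_map.1 hx
    have := (abs_le.1 (hnear w hw)).1
    linarith)
  have hlo := SubA_le_sum (ρ''.map ℓ) (ℓ (bry ρ') - ε) (fun x hx => by
    obtain ⟨w, hw, rfl⟩ := List.mem_map.1 hx
    have := (abs_le.1 (hnear w hw)).2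
    linarith)
  rw [List.length_map] at hup hlo
  have hc : (0 : ℝ) ≤ ρ''.length := Nat.cast_nonneg _
  have hD : (ρ.length : ℝ) * |ℓ (bry ρ) - ℓ (bry ρ')| ≤ (ρ.length - 1) * ε := by
    rw [← abs_of_pos hb, ← abs_mul, abs_of_pos hb, abs_le]
    have e1 : (ρ''.length : ℝ) * ε ≤ (ρ.length - 1) * ε :=
      mul_le_mul_of_nonneg_right (by linarith) hε
    have e3 : (ρ.length : ℝ) * (ℓ (bry ρ) - ℓ (bry ρ'))
        = (ρ''.map ℓ).sum - ρ''.length * ℓ (bry ρ') := by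
      rw [mul_sub, hsum, hlen]
      ring
    rw [e3]
    have e4 : (ρ''.length : ℝ) * (ℓ (bry ρ') + ε)
        = ρ''.length * ℓ (bry ρ') + ρ''.length * ε := by ring
    have e5 : (ρ''.length : ℝ) * (ℓ (bry ρ') - ε)
        = ρ''.length * ℓ (bry ρ') - ρ''.length * ε := by ring
    constructor <;> linarith
  have hn : (0 : ℝ) < σ.length := lt_of_lt_of_le hb hbn
  have h2 : |ℓ (bry ρ) - ℓ (bry ρ')| ≤ (1 - 1 / (ρ.length : ℝ)) * ε := by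
    have e2 : (1 - 1 / (ρ.length : ℝ)) * ε = ((ρ.length - 1) * ε) / ρ.length := by
      field_simp
    rw [e2, le_div_iff₀ hb, mul_comm]
    exact hD
  refine h2.trans (mul_le_mul_of_nonneg_right ?_ hε)
  have := one_div_le_one_div_of_le hb hbn
  linarith

/-- the subdivision of a simplex: length, convexity, mesh (for a linear functional `ℓ`) and mass -/
lemma supp_sbl {σ τ : List V} (h : τ ∈ (mp bry (sdl σ)).support) :
    τ.length = σ.length ∧ (∀ p : V → Prop, Cvx p → (∀ v ∈ σ, p v) → ∀ v ∈ τ, p v) ∧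
    ∀ (ℓ : V →ₗ[ℝ] ℝ) (ε : ℝ), 0 ≤ ε → (∀ v ∈ σ, ∀ w ∈ σ, |ℓ v - ℓ w| ≤ ε) →
      ∀ v ∈ τ, ∀ w ∈ τ, |ℓ v - ℓ w| ≤ (1 - 1 / (σ.length : ℝ)) * ε := by
  obtain ⟨τ', hτ', rfl⟩ := supp_mp h
  obtain ⟨h1, h2, h3⟩ := supp_sdl hτ'
  refine ⟨by rw [List.length_map, h1], ?_, ?_⟩
  · intro p hp hv v hvτ
    obtain ⟨ρ, hρ, rfl⟩ := List.mem_map.1 hvτ
    exact hp ρ (h2 ρ hρ).1 (fun v hv' => hv v ((h2 ρ hρ).2.subset hv'))
  · intro ℓ ε hε hσ v hv w hw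
    obtain ⟨ρ, hρ, rfl⟩ := List.mem_map.1 hv
    obtain ⟨ρ', hρ', rfl⟩ := List.mem_map.1 hw
    have h4 : τ'.Pairwise (fun ρ ρ' => ρ'.Sublist ρ ∨ ρ.Sublist ρ') :=
      h3.imp (fun {a b} hab => Or.inl hab)
    have h5 : ∀ ρ ∈ τ', ∀ ρ' ∈ τ', ρ'.Sublist ρ ∨ ρ.Sublist ρ' := by
      intro a ha b hb
      have hsym : Std.Symm (fun ρ ρ' : List V => ρ'.Sublist ρ ∨ ρ.Sublist ρ') :=
        ⟨fun a b hab => hab.symm⟩
      exact List.Pairwise.forall_of_forall (R := fun ρ ρ' : List V => ρ'.Sublist ρ ∨ ρ.Sublist ρ')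
        (fun x _ => Or.inl (List.Sublist.refl x)) h4 ha hb
    rcases h5 ρ hρ ρ' hρ' with hs | hs
    · exact SubA_mesh ℓ (h2 ρ hρ).2 hs (h2 ρ' hρ').1 hε hσ
    · rw [abs_sub_comm]
      exact SubA_mesh ℓ (h2 ρ' hρ').2 hs (h2 ρ hρ).1 hε hσ

lemma ms_sb (k : ℕ) (c : Ch V) (hc : ∀ σ ∈ c.support, σ.length ≤ k) :
    ms (sb c) ≤ k.factorial * ms c := by
  simp only [sb, LinearMap.comp_apply]
  refine (ms_mp _ _).trans (ms_lc_le _ _ _ (fun σ hσ => ?_))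
  exact (ms_sdl σ).trans (Nat.factorial_le (hc σ hσ))

/-- iterated subdivision -/
noncomputable def sbN (N : ℕ) : Ch V →ₗ[ℤ] Ch V := sb ^ N

lemma sbN_zero (c : Ch V) : sbN 0 c = c := rfl

lemma sbN_succ (N : ℕ) (c : Ch V) : sbN (N + 1) c = sb (sbN N c) := by
  rw [sbN, pow_succ']
  rfl

lemma bd_sbN (N : ℕ) (c : Ch V) : bd (sbN N c) = sbN N (bd c) := by
  induction N with
  | zero => rfl
  | succ N ih => rw [sbN_succ, bd_sb, ih, sbN_succ]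

lemma SubA_supp {c : Ch V} {τ : List V} (h : τ ∈ (sb c).support) :
    ∃ ρ ∈ c.support, τ ∈ (mp bry (sdl ρ)).support := by
  have e : sb c = Finsupp.linearCombination ℤ (fun ρ => mp bry (sdl ρ)) c := by
    show mp bry (sd c) = _
    rw [sd, Finsupp.apply_linearCombination]
    rfl
  rw [e] at h
  exact supp_lc _ _ h

lemma SubA_fac (n : ℕ) : (0 : ℝ) ≤ 1 - 1 / (n : ℝ) := by
  rcases Nat.eq_zero_or_pos n with rfl | hn
  · simp
  · have h1 : (1 : ℝ) ≤ n := by exact_mod_cast hn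
    have h2 : 1 / (n : ℝ) ≤ 1 := by
      rw [div_le_one (by linarith)]
      exact h1
    linarith

/-- the iterated subdivision: length, convexity and mesh -/
lemma supp_sbN (N : ℕ) {c : Ch V} {τ : List V} (h : τ ∈ (sbN N c).support) :
    ∃ σ ∈ c.support, τ.length = σ.length ∧
    (∀ p : V → Prop, Cvx p → (∀ v ∈ σ, p v) → ∀ v ∈ τ, p v) ∧
    ∀ (ℓ : V →ₗ[ℝ] ℝ) (ε : ℝ), 0 ≤ ε → (∀ v ∈ σ, ∀ w ∈ σ, |ℓ v - ℓ w| ≤ ε) →
      ∀ v ∈ τ, ∀ w ∈ τ, |ℓ v - ℓ w| ≤ (1 - 1 / (σ.length : ℝ)) ^ N * ε := by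
  induction N generalizing τ with
  | zero =>
    refine ⟨τ, h, rfl, fun p _ hp => hp, fun ℓ ε _ hτ v hv w hw => ?_⟩
    rw [pow_zero, one_mul]
    exact hτ v hv w hw
  | succ N ih =>
    rw [sbN_succ] at h
    obtain ⟨ρ, hρ, hτ⟩ := SubA_supp h
    obtain ⟨a1, a2, a3⟩ := supp_sbl hτ
    obtain ⟨σ, hσ, b1, b2, b3⟩ := ih hρ
    refine ⟨σ, hσ, a1.trans b1, fun p hp hv => a2 p hp (b2 p hp hv),
      fun ℓ ε hε hv v hvτ w hwτ => ?_⟩
    have h1 : 0 ≤ (1 - 1 / (σ.length : ℝ)) ^ N * ε :=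
      mul_nonneg (pow_nonneg (SubA_fac _) _) hε
    have h2 := a3 ℓ _ h1 (b3 ℓ ε hε hv) v hvτ w hwτ
    rw [b1] at h2
    rw [pow_succ', mul_assoc]
    exact h2

lemma ms_sbN (N k : ℕ) (c : Ch V) (hc : ∀ σ ∈ c.support, σ.length ≤ k) :
    ms (sbN N c) ≤ k.factorial ^ N * ms c := by
  induction N with
  | zero => rw [sbN_zero, pow_zero, one_mul]
  | succ N ih =>
    rw [sbN_succ, pow_succ', mul_assoc]
    refine (ms_sb k _ (fun τ hτ => ?_)).trans (Nat.mul_le_mul_left _ ih)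
    obtain ⟨σ, hσ, h1, -⟩ := supp_sbN N hτ
    rw [h1]
    exact hc σ hσ

end Pool.Agent.H.MP_e5d137_al.GLn
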