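import Pool.Agent.H.MP_e5d137_al.GLn.Ex
import Pool.Agent.H.MP_e5d137_al.GLn.PertA
import Pool.Agent.H.MP_e5d137_al.GLn.SubA

/-!
# Preparations for the cone property of `GL(n, ℤ)`
-/

namespace Pool.Agent.H.MP_e5d137_al.GLn

open Finset Matrix
open Pool.Agent.H.MP_e5d137_al.UB

variable {n : ℕ}

lemma fm_posDef (g : Gm n) : (fm g).PosDef := by
  rw [posDef_iff_dotProduct_mulVec]
  refine ⟨?_, fun x hx => ?_⟩
  · rw [Matrix.IsHermitian, Matrix.conjTranspose_eq_transpose_of_trivial, fm,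
      Matrix.transpose_mul, Matrix.transpose_transpose]
  · have h1 : star x ⬝ᵥ (fm g *ᵥ x) = nsq (rm g⁻¹ *ᵥ x) := by
      rw [star_trivial]
      exact ev_fm g x
    rw [h1]
    have h2 : rm g⁻¹ *ᵥ x ≠ 0 := by
      intro h3
      apply hx
      have h4 : rm g *ᵥ (rm g⁻¹ *ᵥ x) = x := by
        rw [Matrix.mulVec_mulVec, rm_mul_inv, Matrix.one_mulVec]
      rw [← h4, h3, Matrix.mulVec_zero]
    obtain ⟨i, hi⟩ := Function.ne_iff.1 h2
    rw [nsq]
    exact Finset.sum_pos' (fun j _ => sq_nonneg _) ⟨i, Finset.mem_univ i, by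
      have : (rm g⁻¹ *ᵥ x) i ≠ 0 := hi
      positivity⟩

lemma ConeA_sum (ρ : List (Matrix (Fin n) (Fin n) ℝ)) (hρ : ρ ≠ []) (h : ∀ P ∈ ρ, P.PosDef) :
    ρ.sum.PosDef := by
  induction ρ with
  | nil => exact absurd rfl hρ
  | cons P ρ ih =>
    rw [List.sum_cons]
    have hP := h P (List.mem_cons_self ..)
    by_cases h0 : ρ = []
    · rw [h0, List.sum_nil, add_zero]
      exact hP
    · exact hP.add (ih h0 fun Q hQ => h Q (List.mem_cons_of_mem _ hQ))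

lemma cvx_posDef : Cvx (fun P : Matrix (Fin n) (Fin n) ℝ => P.PosDef) := by
  intro ρ hρ h
  have h1 := ConeA_sum ρ hρ h
  have h2 : (0 : ℝ) < (ρ.length : ℝ)⁻¹ := by
    have : 0 < ρ.length := List.length_pos_iff.2 hρ
    positivity
  exact h1.smul h2

lemma cvx_Cmp (X : ℝ) (P' : Matrix (Fin n) (Fin n) ℝ) :
    Cvx (fun P : Matrix (Fin n) (Fin n) ℝ => Cmp X P P') := by
  intro ρ hρ h x
  refine ⟨?_, ?_⟩
  · exact cvx_le (evL x) (X * ev P' x) ρ hρ fun P hP => (h P hP x).1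
  · have h1 := cvx_le (-(X • evL x)) (-(ev P' x)) ρ hρ fun P hP => by
      have h2 := (h P hP x).2
      simp only [LinearMap.neg_apply, LinearMap.smul_apply, evL_apply, smul_eq_mul]
      linarith
    simp only [LinearMap.neg_apply, LinearMap.smul_apply, evL_apply, smul_eq_mul] at h1
    linarith

lemma ConeA_inv (g : Gm n) : El g⁻¹ = El g := by
  rw [El, El, inv_inv]
  congr 1
  exact max_comm _ _

/-- the form of an element near `h` -/
lemma cmp_fm {g h : Gm n} {R : ℕ} (hg : El (h⁻¹ * g) ≤ R) :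
    Cmp ((n * R : ℝ) ^ 2 + 1) (fm g) (fm h) := by
  intro x
  have hg' : El (g⁻¹ * h) ≤ R := by
    have e : g⁻¹ * h = (h⁻¹ * g)⁻¹ := by group
    rw [e, ConeA_inv]
    exact hg
  have key : ∀ a b : Gm n, El (a⁻¹ * b) ≤ R →
      ev (fm a) x ≤ ((n * R : ℝ) ^ 2 + 1) * ev (fm b) x := by
    intro a b hab
    have h0 : 0 ≤ ev (fm b) x := by
      rw [ev_fm]
      exact nsq_nonneg _
    have h1 := ev_fm_le a b x
    have h2 : (n * El (a⁻¹ * b) : ℝ) ^ 2 ≤ (n * R : ℝ) ^ 2 := by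
      have h3 : (El (a⁻¹ * b) : ℝ) ≤ R := by exact_mod_cast hab
      gcongr
    nlinarith [mul_le_mul_of_nonneg_right h2 h0]
  exact ⟨key g h hg', key h g hg⟩

/-- the choice of a reduced basis -/
noncomputable def pos (P : Matrix (Fin n) (Fin n) ℝ) : Gm n :=
  open Classical in if h : P.PosDef then (exists_red P h).choose else 1

lemma pos_spec {P : Matrix (Fin n) (Fin n) ℝ} (h : P.PosDef) : Rd (4 ^ n) P (pos P) := by
  rw [pos, dif_pos h]
  exact (exists_red P h).choose_spec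

/-- number of subdivisions: mesh `≤ X⁻ᴶ` with polynomially many simplices -/
lemma exists_N (k J : ℕ) : ∃ c : ℕ, ∀ X : ℕ, 2 ≤ X → ∃ N : ℕ, N ≤ X ^ c ∧
    (k + 1).factorial ^ N ≤ X ^ c ∧ (1 - 1 / ((k + 1 : ℕ) : ℝ)) ^ N * (X : ℝ) ^ J ≤ 1 := by
  refine ⟨2 * (k + 1) * J * ((k + 1).factorial + 1), fun X hX => ?_⟩
  obtain ⟨L, hL⟩ : ∃ L, L = Nat.clog 2 X := ⟨_, rfl⟩
  have h1 : X ≤ 2 ^ L := by
    rw [hL]
    exact Nat.le_pow_clog one_lt_two X
  have h2 : 2 ^ L ≤ X ^ 2 := by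
    have h3 : 2 ^ (L - 1) < X := by
      rw [hL]
      exact Nat.pow_pred_clog_lt_self one_lt_two (by omega)
    have h4 : 1 ≤ L := by
      rw [hL]
      exact Nat.clog_pos one_lt_two hX
    have h5 : 2 ^ L = 2 * 2 ^ (L - 1) := by
      obtain ⟨l, rfl⟩ := Nat.exists_eq_add_of_le' h4
      rw [Nat.add_sub_cancel, pow_succ, mul_comm]
    rw [h5, pow_two]
    exact Nat.mul_le_mul hX h3.le
  have hX1 : 1 ≤ X := by omega
  refine ⟨(k + 1) * J * L, ?_, ?_, ?_⟩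
  · calc (k + 1) * J * L ≤ 2 ^ ((k + 1) * J * L) := Nat.lt_two_pow_self.le
      _ = (2 ^ L) ^ ((k + 1) * J) := by rw [← pow_mul]; congr 1; ring
      _ ≤ (X ^ 2) ^ ((k + 1) * J) := Nat.pow_le_pow_left h2 _
      _ = X ^ (2 * (k + 1) * J * 1) := by rw [← pow_mul]; congr 1; ring
      _ ≤ X ^ (2 * (k + 1) * J * ((k + 1).factorial + 1)) :=
          Nat.pow_le_pow_right hX1 (Nat.mul_le_mul_left _ (by omega))
  · calc (k + 1).factorial ^ ((k + 1) * J * L) ≤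
        (2 ^ (k + 1).factorial) ^ ((k + 1) * J * L) :=
          Nat.pow_le_pow_left Nat.lt_two_pow_self.le _
      _ = (2 ^ L) ^ ((k + 1) * J * (k + 1).factorial) := by
          rw [← pow_mul, ← pow_mul]; congr 1; ring
      _ ≤ (X ^ 2) ^ ((k + 1) * J * (k + 1).factorial) := Nat.pow_le_pow_left h2 _
      _ = X ^ (2 * (k + 1) * J * (k + 1).factorial) := by rw [← pow_mul]; congr 1; ring
      _ ≤ X ^ (2 * (k + 1) * J * ((k + 1).factorial + 1)) :=
          Nat.pow_le_pow_right hX1 (Nat.mul_le_mul_left _ (by omega))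
  · have hk : (0 : ℝ) < ((k + 1 : ℕ) : ℝ) := by positivity
    have h3 : (0 : ℝ) ≤ 1 - 1 / ((k + 1 : ℕ) : ℝ) := by
      rw [sub_nonneg, div_le_one hk]
      push_cast
      linarith [(Nat.cast_nonneg k : (0 : ℝ) ≤ (k : ℝ))]
    have h4 : (1 - 1 / ((k + 1 : ℕ) : ℝ)) ^ (k + 1) ≤ 1 / 2 := by
      have h5 : 1 - 1 / ((k + 1 : ℕ) : ℝ) ≤ Real.exp (-(1 / ((k + 1 : ℕ) : ℝ))) := by
        have := Real.add_one_le_exp (-(1 / ((k + 1 : ℕ) : ℝ)))
        linarith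
      have h6 : (1 - 1 / ((k + 1 : ℕ) : ℝ)) ^ (k + 1) ≤
          Real.exp (-(1 / ((k + 1 : ℕ) : ℝ))) ^ (k + 1) := pow_le_pow_left₀ h3 h5 _
      have h7 : Real.exp (-(1 / ((k + 1 : ℕ) : ℝ))) ^ (k + 1) = Real.exp (-1) := by
        rw [← Real.exp_nat_mul]
        congr 1
        field_simp
      have h8 : Real.exp (-1) ≤ 1 / 2 := by
        rw [Real.exp_neg, one_div]
        have h9 := Real.add_one_le_exp (1 : ℝ)
        exact inv_anti₀ two_pos (by linarith)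
      linarith [h6.trans_eq h7]
    have h5 : (1 - 1 / ((k + 1 : ℕ) : ℝ)) ^ ((k + 1) * J * L) ≤ (1 / 2) ^ (J * L) := by
      have e : (k + 1) * J * L = (k + 1) * (J * L) := by ring
      rw [e, pow_mul]
      exact pow_le_pow_left₀ (pow_nonneg h3 _) h4 _
    have h6 : (X : ℝ) ^ J ≤ 2 ^ (J * L) := by
      have h7 : (X : ℝ) ≤ 2 ^ L := by exact_mod_cast h1
      rw [mul_comm J L, pow_mul]
      exact pow_le_pow_left₀ (by positivity) h7 _
    calc (1 - 1 / ((k + 1 : ℕ) : ℝ)) ^ ((k + 1) * J * L) * (X : ℝ) ^ J ≤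
        (1 / 2) ^ (J * L) * 2 ^ (J * L) :=
          mul_le_mul h5 h6 (by positivity) (by positivity)
      _ = 1 := by rw [← mul_pow]; norm_num

end Pool.Agent.H.MP_e5d137_al.GLn
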