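import Pool.Agent.H.MP_e5d137_al.GLn.Sieg
import Pool.Agent.H.MP_e5d137_al.GLn.PertA

/-!
# Size of reduced bases, perturbation of reduced forms
-/

namespace Pool.Agent.H.MP_e5d137_al.GLn

open Finset Matrix

variable {n : ℕ}

/-- the Lagrange decomposition of `P ∘ g` -/
lemma Pert_lag {P : Matrix (Fin n) (Fin n) ℝ} (hP : P.PosDef) (g : Gm n) :
    ∃ a u, (∀ i, 0 < a i) ∧ UT u ∧ ∀ x, ev P (rm g *ᵥ x) = qf a u x := by
  have hsym : Pᵀ = P := by
    have h := hP.isHermitian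
    rwa [Matrix.IsHermitian, Matrix.conjTranspose_eq_transpose_of_trivial] at h
  have hev : ∀ x : Fin n → ℝ, x ⬝ᵥ (((rm g)ᵀ * P * rm g) *ᵥ x) = ev P (rm g *ᵥ x) := by
    intro x
    rw [ev, Matrix.mul_assoc, ← Matrix.mulVec_mulVec, ← Matrix.mulVec_mulVec,
      Matrix.dotProduct_mulVec x, Matrix.vecMul_transpose]
  have hQ : ((rm g)ᵀ * P * rm g).PosDef := by
    refine Matrix.PosDef.of_dotProduct_mulVec_pos ?_ fun x hx => ?_
    · rw [Matrix.IsHermitian, Matrix.conjTranspose_eq_transpose_of_trivial,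
        Matrix.transpose_mul, Matrix.transpose_mul, Matrix.transpose_transpose, hsym,
        Matrix.mul_assoc]
    · rw [star_trivial, hev]
      have hne : rm g *ᵥ x ≠ 0 := by
        intro h0
        apply hx
        have h1 := congrArg (fun y => rm g⁻¹ *ᵥ y) h0
        simp only [Matrix.mulVec_mulVec, rm_inv_mul, Matrix.one_mulVec, Matrix.mulVec_zero] at h1
        exact h1
      have h2 := hP.dotProduct_mulVec_pos hne
      rwa [star_trivial] at h2
  obtain ⟨a, u, ha, hu, h⟩ := exists_lagrange _ hQ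
  refine ⟨a, u, ha, hu, fun x => ?_⟩
  rw [← h x]
  exact (hev x).symm

/-- the comparison for one pair of decompositions which are close -/
lemma Pert_core {t η : ℝ} (ht : 1 ≤ t) (hη : 0 ≤ η) (hη1 : η ≤ 1) {a a' : Fin n → ℝ}
    {u u' : Matrix (Fin n) (Fin n) ℝ} (ha : ∀ i, 0 < a i) (hu : UT u) (h' : Sg t a' u')
    (h1 : ∀ x, qf a u x ≤ (1 + η) * qf a' u' x) (h2 : ∀ x, qf a' u' x ≤ (1 + η) * qf a u x)
    {Y : ℝ} (hY0 : 0 < Y) (hY : ∀ j, 1 ≤ Y * a' j ∧ a' j ≤ Y)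
    (hs : 4 * η * Y ^ 2 * ((n : ℝ) + 1) ^ 2 ≤ 1) : Sg (4 * t) a u := by
  obtain ⟨v', hv', huv', hvu'⟩ := h'.ut.exists_inv
  obtain ⟨v, hv, huv, hvu⟩ := hu.exists_inv
  have hw : u = (u * v') * u' := by rw [Matrix.mul_assoc, hvu', Matrix.mul_one]
  have hw2 : u' = (u' * v) * u := by rw [Matrix.mul_assoc, hvu, Matrix.mul_one]
  have hwU : UT (u * v') := hu.mul hv'
  have hwU2 : UT (u' * v) := h'.ut.mul hv
  set w := u * v' with hwdef
  have hc1 : ∀ j, ∑ i, a i * w i j ^ 2 ≤ (1 + η) * a' j := fun j =>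
    (compare ha h'.ut hw h1 j).1
  have hle1 : ∀ j, a j ≤ (1 + η) * a' j := by
    intro j
    have h := (compare ha h'.ut hw h1 j).2 j
    rwa [hwU.1 j, one_pow, mul_one] at h
  have hle2 : ∀ j, a' j ≤ (1 + η) * a j := by
    intro j
    have h := (compare h'.pos hu hw2 h2 j).2 j
    rwa [hwU2.1 j, one_pow, mul_one] at h
  -- off diagonal entries of `w`
  have hoff : ∀ i j, i < j → a i * w i j ^ 2 ≤ 2 * η * a' j := by
    intro i j hij
    have h3 : a i * w i j ^ 2 + a j * w j j ^ 2 ≤ ∑ k, a k * w k j ^ 2 := by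
      have h4 : ∑ k ∈ ({i, j} : Finset (Fin n)), a k * w k j ^ 2 ≤ ∑ k, a k * w k j ^ 2 :=
        Finset.sum_le_sum_of_subset_of_nonneg (Finset.subset_univ _)
          fun k _ _ => mul_nonneg (ha k).le (sq_nonneg _)
      rwa [Finset.sum_pair (ne_of_lt hij)] at h4
    rw [hwU.1 j, one_pow, mul_one] at h3
    have h5 := h3.trans (hc1 j)
    have h6 := hle2 j
    have h7 := h'.pos j
    have h8 := ha j
    -- `(1 - η) a'_j ≤ a_j`
    have h9 : (1 - η) * a' j ≤ a j := by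
      have h10 : (1 - η) * a' j ≤ (1 - η) * ((1 + η) * a j) :=
        mul_le_mul_of_nonneg_left h6 (by linarith)
      have h11 : (1 - η) * ((1 + η) * a j) = a j - η ^ 2 * a j := by ring
      have h12 : 0 ≤ η ^ 2 * a j := by positivity
      linarith
    linarith
  have hhalf : ∀ i, a' i ≤ 2 * a i := by
    intro i
    have := hle2 i
    have h8 := ha i
    nlinarith
  have hn1 : (0 : ℝ) < (n : ℝ) + 1 := by positivity
  have hwb : ∀ i j, i < j → |w i j| ≤ 1 / ((n : ℝ) + 1) := by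
    intro i j hij
    have h3 := hoff i j hij
    have h4 := hhalf i
    obtain ⟨h5, -⟩ := hY i
    obtain ⟨-, h6⟩ := hY j
    -- `1 ≤ Y a'_i ≤ 2 Y a_i`
    have h7 : 1 ≤ 2 * Y * a i := by nlinarith
    have h8 : w i j ^ 2 ≤ 4 * η * Y ^ 2 := by
      calc w i j ^ 2 = 1 * w i j ^ 2 := (one_mul _).symm
        _ ≤ (2 * Y * a i) * w i j ^ 2 := mul_le_mul_of_nonneg_right h7 (sq_nonneg _)
        _ = 2 * Y * (a i * w i j ^ 2) := by ring
        _ ≤ 2 * Y * (2 * η * a' j) := mul_le_mul_of_nonneg_left h3 (by positivity)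
        _ ≤ 2 * Y * (2 * η * Y) := by
          refine mul_le_mul_of_nonneg_left (mul_le_mul_of_nonneg_left h6 (by positivity))
            (by positivity)
        _ = 4 * η * Y ^ 2 := by ring
    have h9 : (|w i j| * ((n : ℝ) + 1)) ^ 2 ≤ 1 := by
      rw [mul_pow, sq_abs]
      exact (mul_le_mul_of_nonneg_right h8 (by positivity)).trans hs
    have h10 : |w i j| * ((n : ℝ) + 1) ≤ 1 := by
      have h11 : 0 ≤ |w i j| * ((n : ℝ) + 1) := by positivity
      nlinarith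
    rw [le_div_iff₀ hn1]
    exact h10
  have ht0 : (0 : ℝ) ≤ t := by linarith
  refine ⟨ha, hu, fun i j => ?_, fun i j hij => ?_⟩
  · have h3 : u i j = ∑ k, w i k * u' k j := by
      conv_lhs => rw [hw]
      rw [Matrix.mul_apply]
    have h4 : ∀ k ∈ (Finset.univ : Finset (Fin n)), |w i k * u' k j| ≤
        (if k = i then t else 0) + 1 / ((n : ℝ) + 1) * t := by
      intro k _
      rw [abs_mul]
      have h5 := h'.le k j
      have h6 : (0 : ℝ) ≤ 1 / ((n : ℝ) + 1) * t := by positivity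
      rcases lt_trichotomy k i with hk | hk | hk
      · rw [hwU.2 i k hk, abs_zero, zero_mul, if_neg (ne_of_lt hk)]
        linarith
      · subst hk
        rw [hwU.1 k, abs_one, one_mul, if_pos rfl]
        linarith
      · rw [if_neg (ne_of_gt hk), zero_add]
        exact mul_le_mul (hwb i k hk) h5 (abs_nonneg _) (by positivity)
    have h5 : |u i j| ≤ ∑ k : Fin n, ((if k = i then t else 0) + 1 / ((n : ℝ) + 1) * t) := by
      rw [h3]
      exact (Finset.abs_sum_le_sum_abs _ _).trans (Finset.sum_le_sum h4)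
    rw [Finset.sum_add_distrib, Finset.sum_ite_eq' Finset.univ i, if_pos (Finset.mem_univ i),
      Finset.sum_const, Finset.card_univ, Fintype.card_fin, nsmul_eq_mul] at h5
    have h6 : (n : ℝ) * (1 / ((n : ℝ) + 1) * t) ≤ t := by
      have h7 : (n : ℝ) * (1 / ((n : ℝ) + 1)) ≤ 1 := by
        rw [mul_one_div, div_le_one hn1]
        linarith
      calc (n : ℝ) * (1 / ((n : ℝ) + 1) * t) = ((n : ℝ) * (1 / ((n : ℝ) + 1))) * t := by ring
        _ ≤ 1 * t := mul_le_mul_of_nonneg_right h7 ht0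
        _ = t := one_mul t
    linarith
  · have h3 := hle1 i
    have h4 := hle2 j
    have h5 := h'.mono i j hij
    have h6 := h'.pos i
    have h7 := h'.pos j
    have h8 := ha j
    calc a i ≤ (1 + η) * a' i := h3
      _ ≤ 2 * a' i := mul_le_mul_of_nonneg_right (by linarith) h6.le
      _ ≤ 2 * (t * a' j) := mul_le_mul_of_nonneg_left h5 (by norm_num)
      _ ≤ 2 * (t * (2 * a j)) := by
        refine mul_le_mul_of_nonneg_left (mul_le_mul_of_nonneg_left (hhalf j) ht0) (by norm_num)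
      _ = 4 * t * a j := by ring

/-- Perturbation of a reduced form.

Proof.  `P' ∘ g = qf a' u'` with `Sg t a' u'`.  Let `qf a u = P ∘ g` be the Lagrange
decomposition, `w = u u'⁻¹`, unitriangular.  With `ε = X^{-c}` (`c` large) and
`|P - P'| ≤ ε |x|² ≤ ε X P'`, `≤ ε X P`: `compare` gives
`∑_i a_i w_ij² ≤ (1 + ε X) a'_j` and `a'_j ≤ (1 + ε X) a_j`; so
`∑_{i < j} a_i w_ij² ≤ 3 ε X a'_j`, `w_ij² ≤ 6 ε X a'_j / a'_i ≤ 6 ε t² X³ ≤ (1 / (n + 1))²`
for `i < j`; as `u = w u'`, `|u_ij| ≤ t + n * (1 / (n + 1)) * t ≤ 2 t`; and `a_i ≤ 2 a'_i ≤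
2 t a'_j ≤ 4 t a_j`. -/
theorem pert (n : ℕ) (t : ℝ) (ht : 1 ≤ t) : ∃ c : ℕ, ∀ X : ℕ, 2 ≤ X →
    ∀ (P P' : Matrix (Fin n) (Fin n) ℝ) (g : Gm n), P.PosDef → Cmp X P (fm 1) →
    Cmp X P' (fm 1) → (∀ x, |ev P x - ev P' x| * X ^ c ≤ nsq x) → Rd t P' g →
    Rd (4 * t) P g := by
  obtain ⟨k, hk⟩ := pow_unbounded_of_one_lt (4 * t ^ 2 * ((n : ℝ) + 1) ^ 2)
    (one_lt_two : (1 : ℝ) < 2)
  refine ⟨3 + k, fun X hX P P' g hP h1 h2 h3 h4 => ?_⟩
  obtain ⟨a', u', h', hP'⟩ := h4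
  obtain ⟨a, u, ha, hu, hPg⟩ := Pert_lag hP g
  have hX2 : (2 : ℝ) ≤ X := by exact_mod_cast hX
  have hX0 : (0 : ℝ) < X := by linarith
  have hX1 : (1 : ℝ) ≤ X := by linarith
  have hXk : 4 * t ^ 2 * ((n : ℝ) + 1) ^ 2 ≤ (X : ℝ) ^ k :=
    hk.le.trans (pow_le_pow_left₀ (by norm_num) hX2 k)
  set η : ℝ := 1 / (X : ℝ) ^ (2 + k) with hηdef
  have hpow0 : (0 : ℝ) < (X : ℝ) ^ (2 + k) := by positivity
  have hη0 : 0 ≤ η := by positivity
  have hη1 : η ≤ 1 := by
    rw [hηdef, div_le_one hpow0]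
    exact one_le_pow₀ hX1
  have hηX : η * (X : ℝ) ^ (2 + k) = 1 := by
    rw [hηdef]
    field_simp
  -- the difference of the two forms
  have hdiff : ∀ x Q, Cmp X Q (fm 1) → |ev P x - ev P' x| ≤ η * ev Q x := by
    intro x Q hQ
    have h5 := h3 x
    have h6 := (hQ x).2
    rw [ev_fm_one] at h6
    have h7 : |ev P x - ev P' x| * (X : ℝ) ^ (2 + k) ≤ ev Q x := by
      have h8 : (|ev P x - ev P' x| * (X : ℝ) ^ (2 + k)) * X ≤ ev Q x * X := by
        calc (|ev P x - ev P' x| * (X : ℝ) ^ (2 + k)) * X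
            = |ev P x - ev P' x| * (X : ℝ) ^ (3 + k) := by ring
          _ ≤ nsq x := h5
          _ ≤ X * ev Q x := h6
          _ = ev Q x * X := mul_comm _ _
      exact le_of_mul_le_mul_right h8 hX0
    calc |ev P x - ev P' x| = η * (|ev P x - ev P' x| * (X : ℝ) ^ (2 + k)) := by
          rw [mul_comm |ev P x - ev P' x|, ← mul_assoc, hηX, one_mul]
      _ ≤ η * ev Q x := mul_le_mul_of_nonneg_left h7 hη0
  refine ⟨a, u, ?_, hPg⟩
  have hc1 : ∀ x, qf a u x ≤ (1 + η) * qf a' u' x := by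
    intro x
    have h5 := hdiff (rm g *ᵥ x) P' h2
    have h6 := le_abs_self (ev P (rm g *ᵥ x) - ev P' (rm g *ᵥ x))
    rw [hPg, hP'] at h6
    rw [hPg, hP'] at h5
    linarith
  have hc2 : ∀ x, qf a' u' x ≤ (1 + η) * qf a u x := by
    intro x
    have h5 := hdiff (rm g *ᵥ x) P h1
    have h6 := neg_abs_le (ev P (rm g *ᵥ x) - ev P' (rm g *ᵥ x))
    rw [hPg, hP'] at h6
    rw [hPg, hP'] at h5
    linarith
  have ht0 : 0 < t := by linarith
  refine Pert_core ht hη0 hη1 ha hu h' hc1 hc2 (Y := t * X) (by positivity)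
    (fun j => diag_size ht hX1 h2 h' hP' j) ?_
  have h5 : η * (X : ℝ) ^ 2 * (X : ℝ) ^ k = 1 := by
    rw [mul_assoc, ← pow_add, hηX]
  calc 4 * η * (t * X) ^ 2 * ((n : ℝ) + 1) ^ 2
      = η * (X : ℝ) ^ 2 * (4 * t ^ 2 * ((n : ℝ) + 1) ^ 2) := by ring
    _ ≤ η * (X : ℝ) ^ 2 * (X : ℝ) ^ k := mul_le_mul_of_nonneg_left hXk (by positivity)
    _ = 1 := h5

/-- Reduced bases of very close forms are boundedly close. -/
theorem red_close (n : ℕ) (t : ℝ) (ht : 1 ≤ t) : ∃ C c : ℕ, ∀ X : ℕ, 2 ≤ X →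
    ∀ (P P' : Matrix (Fin n) (Fin n) ℝ) (g g' : Gm n), P.PosDef → Cmp X P (fm 1) →
    Cmp X P' (fm 1) → (∀ x, |ev P x - ev P' x| * X ^ c ≤ nsq x) → Rd t P g → Rd t P' g' →
    El (g⁻¹ * g') ≤ C := by
  obtain ⟨C, hC⟩ := siegel_El n (4 * t) (by linarith)
  obtain ⟨c, hc⟩ := pert n t ht
  refine ⟨C, c, fun X hX P P' g g' hP h1 h2 h3 h4 h5 => hC P g g' ?_ (hc X hX P P' g' hP h1 h2 h3 h5)⟩
  obtain ⟨a, u, h, h'⟩ := h4
  refine ⟨a, u, ⟨h.pos, h.ut, fun i j => (h.le i j).trans (by linarith), fun i j hij => ?_⟩, h'⟩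
  have := h.mono i j hij
  have h6 := h.pos j
  nlinarith

end Pool.Agent.H.MP_e5d137_al.GLn
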