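import Pool.Agent.H.MP_e5d137_al.GLn.SubA

/-!
# The homotopy between a chain and its iterated subdivision
-/

namespace Pool.Agent.H.MP_e5d137_al.GLn

open Finsupp
open Pool.Agent.H.MP_e5d137_al.UB

universe u

variable {V : Type u} [AddCommGroup V] [Module ℝ V]

/-- the homotopy on simplices -/
noncomputable def Sub_n : ℕ → List V → Ch V
  | 0, _ => 0
  | k + 1, σ => cn (bry σ) (mp bry (sdl σ) - single σ 1 -
      Finsupp.linearCombination ℤ (Sub_n k) (bdl σ))

noncomputable def Sub_h (σ : List V) : Ch V := Sub_n σ.length σ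

lemma Sub_nil : Sub_h ([] : List V) = 0 := rfl

lemma Sub_cons (a : V) (σ : List V) : Sub_h (a :: σ) = cn (bry (a :: σ))
    (mp bry (sdl (a :: σ)) - single (a :: σ) 1 -
      Finsupp.linearCombination ℤ Sub_h (bdl (a :: σ))) := by
  show Sub_n (a :: σ).length (a :: σ) = _
  rw [List.length_cons, Sub_n]
  congr 2
  refine lc_congr _ _ _ (fun τ hτ => ?_)
  have h2 := (supp_bdl hτ).2
  rw [List.length_cons] at h2
  rw [Sub_h, show τ.length = σ.length by omega]

lemma Sub_lin (c : Ch V) (h : ∀ σ ∈ c.support, bd (Sub_h σ) +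
      Finsupp.linearCombination ℤ Sub_h (bdl σ) = mp bry (sdl σ) - single σ 1) :
    bd (Finsupp.linearCombination ℤ Sub_h c) + Finsupp.linearCombination ℤ Sub_h (bd c) =
      sb c - c := by
  have h1 : bd (Finsupp.linearCombination ℤ Sub_h c) + Finsupp.linearCombination ℤ Sub_h (bd c) =
      Finsupp.linearCombination ℤ (fun σ => bd (Sub_h σ) +
        Finsupp.linearCombination ℤ Sub_h (bdl σ)) c := by
    clear h
    induction c using Finsupp.induction_linear with
    | zero => simp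
    | add a b ha hb =>
      simp only [map_add]
      rw [← ha, ← hb]
      abel
    | single σ k => simp
  have h2 : sb c - c = Finsupp.linearCombination ℤ (fun σ => mp bry (sdl σ) - single σ 1) c := by
    clear h h1
    induction c using Finsupp.induction_linear with
    | zero => simp
    | add a b ha hb =>
      simp only [map_add]
      rw [← ha, ← hb]
      abel
    | single σ k => simp [sb, sd, smul_sub]
  rw [h1, h2]
  exact lc_congr _ _ _ h

lemma Sub_bd (n : ℕ) : ∀ σ : List V, σ.length = n → bd (Sub_h σ) +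
      Finsupp.linearCombination ℤ Sub_h (bdl σ) = mp bry (sdl σ) - single σ 1 := by
  induction n with
  | zero =>
    intro σ hσ
    rw [List.length_eq_zero_iff.1 hσ]
    simp [Sub_nil, bdl]
  | succ n ih =>
    intro σ hσ
    cases σ with
    | nil => simp at hσ
    | cons a σ =>
      have h1 := Sub_lin (bdl (a :: σ)) (fun τ hτ => ih τ (by
        have h2 := (supp_bdl hτ).2
        omega))
      rw [bd_bdl, map_zero, add_zero] at h1
      rw [Sub_cons, bd_cn]
      have h3 : bd (mp bry (sdl (a :: σ)) - single (a :: σ) 1 -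
          Finsupp.linearCombination ℤ Sub_h (bdl (a :: σ))) = 0 := by
        rw [map_sub, map_sub, h1, bd_mp, bd_sdl, bd_single, one_smul]
        simp [sb]
      rw [h3, map_zero]
      abel

/-- the bound for the mass -/
def Sub_B : ℕ → ℕ
  | 0 => 0
  | k + 1 => (k + 1).factorial + 1 + (k + 1) * Sub_B k

lemma Sub_B_mono : Monotone Sub_B := by
  refine monotone_nat_of_le_succ (fun k => ?_)
  rw [Sub_B]
  nlinarith [Nat.zero_le (k * Sub_B k)]

lemma Sub_ms (n : ℕ) : ∀ σ : List V, σ.length = n → ms (Sub_h σ) ≤ Sub_B n := by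
  induction n with
  | zero =>
    intro σ hσ
    rw [List.length_eq_zero_iff.1 hσ]
    simp [Sub_nil]
  | succ n ih =>
    intro σ hσ
    cases σ with
    | nil => simp at hσ
    | cons a σ =>
      rw [Sub_cons, Sub_B]
      refine (ms_cn _ _).trans ((ms_sub_le _ _).trans (Nat.add_le_add ((ms_sub_le _ _).trans
        (Nat.add_le_add ?_ ?_)) ?_))
      · refine (ms_mp _ _).trans ((ms_sdl _).trans ?_)
        rw [hσ]
      · rw [ms_single]
        simp
      · refine (ms_lc_le _ _ (Sub_B n) (fun τ hτ => ih τ ?_)).trans ?_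
        · have h2 := (supp_bdl hτ).2
          omega
        · rw [mul_comm]
          exact Nat.mul_le_mul_right _ ((ms_bdl _).trans hσ.le)

lemma Sub_supp (n : ℕ) : ∀ (σ τ : List V), σ.length = n → τ ∈ (Sub_h σ).support →
    τ.length = σ.length + 1 ∧ ∀ p : V → Prop, Cvx p → (∀ v ∈ σ, p v) → ∀ v ∈ τ, p v := by
  induction n with
  | zero =>
    intro σ τ hσ hτ
    rw [List.length_eq_zero_iff.1 hσ, Sub_nil] at hτ
    simp at hτ
  | succ n ih =>
    intro σ τ hσ hτ
    cases σ with
    | nil => simp at hσ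
    | cons a σ =>
      rw [Sub_cons] at hτ
      obtain ⟨ρ, hρ, rfl⟩ := supp_cn hτ
      have key : ρ.length = (a :: σ).length ∧
          ∀ p : V → Prop, Cvx p → (∀ v ∈ (a :: σ), p v) → ∀ v ∈ ρ, p v := by
        rcases supp_sub hρ with hρ | hρ
        · rcases supp_sub hρ with hρ | hρ
          · exact ⟨(supp_sbl hρ).1, (supp_sbl hρ).2.1⟩
          · rw [supp_single hρ]
            exact ⟨rfl, fun p _ h => h⟩
        · obtain ⟨ξ, hξ, hρξ⟩ := supp_lc _ _ hρ
          obtain ⟨e1, e2⟩ := supp_bdl hξ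
          obtain ⟨f1, f2⟩ := ih ξ ρ (by omega) hρξ
          exact ⟨by omega, fun p hp h => f2 p hp (fun v hv => h v (e1.subset hv))⟩
      refine ⟨by rw [List.length_cons, key.1], fun p hp h v hv => ?_⟩
      rcases List.mem_cons.1 hv with rfl | hv
      · exact hp _ (List.cons_ne_nil _ _) h
      · exact key.2 p hp h v hv

/-- The homotopy between the identity and the subdivision.

Proof.  Recursion on the length: `η [] = 0`, `η σ = cn (bry σ) (w σ)` with
`w σ = mp bry (sdl σ) - single σ 1 - lc η (bdl σ)`; `w σ` is a cycle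
(`bd (sdl σ) = sd (bdl σ)`, induction), so `bd (η σ) = w σ` by `bd_cn`.  Mass:
`ms (η σ) ≤ B k` for lists of length `≤ k`, with `B (k + 1) = (k + 1)! + 1 + (k + 1) B k`. -/
theorem exists_sb_hty : ∃ (hh : Ch V →ₗ[ℤ] Ch V) (B : ℕ → ℕ),
    (∀ c, bd (hh c) + hh (bd c) = sb c - c) ∧
    (∀ (k : ℕ) (c : Ch V), (∀ σ ∈ c.support, σ.length ≤ k) → ms (hh c) ≤ B k * ms c) ∧
    ∀ (c : Ch V) (τ : List V), τ ∈ (hh c).support → ∃ σ ∈ c.support, σ ≠ [] ∧
      τ.length = σ.length + 1 ∧ ∀ p : V → Prop, Cvx p → (∀ v ∈ σ, p v) → ∀ v ∈ τ, p v := by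
  refine ⟨Finsupp.linearCombination ℤ Sub_h, Sub_B, fun c => Sub_lin c
    (fun σ _ => Sub_bd _ σ rfl), fun k c hc => ms_lc_le _ _ _ (fun σ hσ =>
      (Sub_ms _ σ rfl).trans (Sub_B_mono (hc σ hσ))), fun c τ hτ => ?_⟩
  obtain ⟨σ, hσ, h⟩ := supp_lc _ _ hτ
  refine ⟨σ, hσ, ?_, Sub_supp _ σ τ rfl h⟩
  rintro rfl
  rw [Sub_nil] at h
  simp at h

lemma Sub_len {N : ℕ} {c : Ch V} {k : ℕ} (hc : ∀ σ ∈ c.support, σ.length ≤ k) :
    ∀ σ ∈ (sbN N c).support, σ.length ≤ k := by
  intro τ hτ
  obtain ⟨σ, hσ, h, -⟩ := supp_sbN N hτ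
  rw [h]
  exact hc σ hσ

/-- The homotopy between the identity and the iterated subdivision,
`HN = ∑_{j < N} hh ∘ sb^j`, with a bound for the mass. -/
theorem exists_sbN_hty_ms (k : ℕ) : ∃ B : ℕ, ∀ N : ℕ, ∃ (HN : Ch V →ₗ[ℤ] Ch V),
    (∀ c, bd (HN c) + HN (bd c) = sbN N c - c) ∧
    (∀ (c : Ch V), (∀ σ ∈ c.support, σ.length ≤ k) →
      ms (HN c) ≤ N * B * k.factorial ^ N * ms c) ∧
    ∀ (c : Ch V) (τ : List V), τ ∈ (HN c).support → ∃ σ ∈ c.support, σ ≠ [] ∧
      τ.length = σ.length + 1 ∧ ∀ p : V → Prop, Cvx p → (∀ v ∈ σ, p v) → ∀ v ∈ τ, p v := by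
  obtain ⟨hh, B, h1, h2, h3⟩ := exists_sb_hty (V := V)
  refine ⟨B k, fun N => ?_⟩
  induction N with
  | zero =>
    refine ⟨0, fun c => ?_, fun c _ => ?_, fun c τ hτ => ?_⟩
    · rw [sbN_zero]
      simp
    · simp
    · simp at hτ
  | succ N ih =>
    obtain ⟨HN, e1, e2, e3⟩ := ih
    refine ⟨HN + hh ∘ₗ sbN N, fun c => ?_, fun c hc => ?_, fun c τ hτ => ?_⟩
    · simp only [LinearMap.add_apply, LinearMap.comp_apply, map_add]
      have f1 := e1 c
      have f2 := h1 (sbN N c)
      rw [bd_sbN] at f2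
      rw [sbN_succ]
      have : bd (HN c) + bd (hh (sbN N c)) + (HN (bd c) + hh (sbN N (bd c))) =
          (bd (HN c) + HN (bd c)) + (bd (hh (sbN N c)) + hh (sbN N (bd c))) := by abel
      rw [this, f1, f2]
      abel
    · simp only [LinearMap.add_apply, LinearMap.comp_apply]
      refine (ms_add_le _ _).trans ?_
      have f1 := e2 c hc
      have f2 := (h2 k (sbN N c) (Sub_len hc)).trans
        (Nat.mul_le_mul_left _ (ms_sbN N k c hc))
      have f3 : 1 ≤ k.factorial := Nat.succ_le_of_lt (Nat.factorial_pos k)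
      have f4 : k.factorial ^ N ≤ k.factorial ^ (N + 1) := Nat.pow_le_pow_right f3 (Nat.le_succ _)
      calc ms (HN c) + ms (hh (sbN N c))
          ≤ N * B k * k.factorial ^ N * ms c + B k * (k.factorial ^ N * ms c) :=
            Nat.add_le_add f1 f2
        _ = (N + 1) * B k * k.factorial ^ N * ms c := by ring
        _ ≤ (N + 1) * B k * k.factorial ^ (N + 1) * ms c :=
            Nat.mul_le_mul_right _ (Nat.mul_le_mul_left _ f4)
    · simp only [LinearMap.add_apply, LinearMap.comp_apply] at hτ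
      rcases supp_add hτ with hτ | hτ
      · exact e3 c τ hτ
      · obtain ⟨ρ, hρ, hne, hl, hp⟩ := h3 _ _ hτ
        obtain ⟨σ, hσ, g1, g2, -⟩ := supp_sbN N hρ
        refine ⟨σ, hσ, ?_, by omega, fun p hp' h => hp p hp' (g2 p hp' h)⟩
        rintro rfl
        exact hne (List.length_eq_zero_iff.1 (by simpa using g1))

end Pool.Agent.H.MP_e5d137_al.GLn
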