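import Pool.Agent.H.MP_e5d137_al.GLn.ConeA
import Pool.Agent.H.MP_e5d137_al.GLn.Pert
import Pool.Agent.H.MP_e5d137_al.GLn.Sub
import Pool.Agent.H.MP_e5d137_al.UB.Pb

/-!
# The cone property of `GL(n, ℤ)`
-/

namespace Pool.Agent.H.MP_e5d137_al.GLn

open Finset Matrix
open Pool.Agent.H.MP_e5d137_al.UB

variable {n : ℕ}

lemma ConeG_ev_nonneg {P : Matrix (Fin n) (Fin n) ℝ} (hP : P.PosDef) (x : Fin n → ℝ) :
    0 ≤ ev P x := by
  have := hP.posSemidef.dotProduct_mulVec_nonneg x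
  simpa [ev] using this

lemma ConeG_cmp_mono {P P' : Matrix (Fin n) (Fin n) ℝ} (hP : P.PosDef) (hP' : P'.PosDef)
    {X Y : ℝ} (h : Cmp X P P') (hXY : X ≤ Y) : Cmp Y P P' := fun x =>
  ⟨(h x).1.trans (mul_le_mul_of_nonneg_right hXY (ConeG_ev_nonneg hP' x)),
    (h x).2.trans (mul_le_mul_of_nonneg_right hXY (ConeG_ev_nonneg hP x))⟩

/-- the form of an element near `h`, with a bound which is at least `2` -/
lemma ConeG_cmp_fm {g h : Gm n} {R : ℕ} (hg : El (h⁻¹ * g) ≤ R) :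
    Cmp (((n * R) ^ 2 + 2 : ℕ) : ℝ) (fm g) (fm h) := by
  refine ConeG_cmp_mono (fm_posDef g) (fm_posDef h) (cmp_fm hg) ?_
  push_cast
  linarith

lemma ConeG_El_mul {R : ℕ} {g h k : Gm n} (h1 : El (k⁻¹ * g) ≤ R) (h2 : El (k⁻¹ * h) ≤ R) :
    El (g⁻¹ * h) ≤ R * R := by
  have e : g⁻¹ * h = (k⁻¹ * g)⁻¹ * (k⁻¹ * h) := by group
  rw [e]
  refine (El_szf.mul _ _).trans (Nat.mul_le_mul ?_ h2)
  rw [El_szf.inv]
  exact h1

/-- the chain filling a cycle -/
lemma ConeG_bd {V : Type} [AddCommGroup V] [Module ℝ V] {G : Type} (f : G → V) (p : V → G)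
    (v₀ : V) (N : ℕ) (HN : Ch V →ₗ[ℤ] Ch V)
    (hHN : ∀ c, bd (HN c) + HN (bd c) = sbN N c - c) (x : Ch G) (hx : bd x = 0) :
    bd (mp p (sbN N (cn v₀ (mp f x))) - mp p (HN (mp f x)) - pr (fun a => a) (p ∘ f) x) = x := by
  have h0 : bd (mp f x) = 0 := by rw [bd_mp, hx, map_zero]
  have h1 : bd (mp p (sbN N (cn v₀ (mp f x)))) = mp p (sbN N (mp f x)) := by
    rw [bd_mp, bd_sbN, bd_cn, h0, map_zero, sub_zero]
  have h2 : bd (mp p (HN (mp f x))) = mp p (sbN N (mp f x)) - mp (p ∘ f) x := by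
    have := hHN (mp f x)
    rw [h0, map_zero, add_zero] at this
    rw [bd_mp, this, map_sub, mp_mp]
  have h3 : bd (pr (fun a => a) (p ∘ f) x) = mp (p ∘ f) x - x := by
    have := bd_pr (fun a => a) (p ∘ f) x
    rw [hx, map_zero, add_zero, mp_id] at this
    exact this
  rw [map_sub, map_sub, h1, h2, h3]
  abel

/-- The cone property of `GL(n, ℤ)`.

Proof.  Let `x` be a cycle of lists of length `k`, `R`-small, `X`-near `1`.  Let
`c = cn (fm 1) (mp fm x)`, a chain of lists of length `k + 1` of forms with boundary `mp fm x`;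
all entries `P` are positive definite with `Cmp X' P (fm 1)`, `X' = (n X)^2 + 1` (`cmp_fm`), so
`|ev P x - ev P' x| ≤ X' |x|²` for two entries.  Choose `N` by `exists_N` such that the mesh
of `sbN N c` is `≤ X'^(-c₀)` (`c₀` of `red_close`).  Let `HN` be the homotopy of
`exists_sbN_hty`.  Put
`y = mp pos (sbN N c) - mp pos (HN (mp fm x)) - pr id (pos ∘ fm) x`.
Then `bd y = mp pos (sbN N (mp fm x)) - (mp pos (sbN N (mp fm x)) - mp pos (mp fm x))
- (mp (pos ∘ fm) x - x) = x` (using `bd x = 0`).  Lists in `mp pos (sbN N c)`: `red_close`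
(smallness), `red_size_one` (nearness to `1`).  Lists in the two other chains: the forms are
convex combinations of the `fm a`, `a ∈ σ` (`σ` in the support of `x`), hence
`Cmp R'' P (fm g₀)` with `g₀ ∈ σ`, `R'' = (n R)^2 + 1`, and `red_size` bounds `El (g₀⁻¹ * pos P)`
by a constant. Masses: `ms_sbN`, `exists_sbN_hty`, `ms_pr`. -/
theorem cone_GL (n : ℕ) : Cone (El (n := n)) := by
  intro k R
  have ht : (1 : ℝ) ≤ 4 ^ n := one_le_pow₀ (by norm_num)
  obtain ⟨C, c₀, hclose⟩ := red_close n (4 ^ n) ht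
  obtain ⟨c₁, hone⟩ := red_size_one n (4 ^ n) ht
  obtain ⟨c₂, hsize⟩ := red_size n (4 ^ n) ht
  obtain ⟨c₃, hN⟩ := exists_N k (c₀ + 1)
  obtain ⟨B, hB⟩ := exists_sbN_hty_ms (V := Matrix (Fin n) (Fin n) ℝ) k
  obtain ⟨R₁, hR₁⟩ : ∃ R₁ : ℕ, R₁ = (n * R) ^ 2 + 2 := ⟨_, rfl⟩
  have pb1 : PB (fun X => (n * X) ^ 2 + 2) := (((PB.const n).mul PB.id).pow 2).add (PB.const 2)
  obtain ⟨c, hc⟩ : PB (fun X => X + ((n * X) ^ 2 + 2) ^ c₁ + (((n * X) ^ 2 + 2) ^ c₃ +
      ((n * X) ^ 2 + 2) ^ c₃ * B * ((n * X) ^ 2 + 2) ^ c₃ + k)) :=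
    (PB.id.add (pb1.pow c₁)).add (((pb1.pow c₃).add (((pb1.pow c₃).mul (PB.const B)).mul
      (pb1.pow c₃))).add (PB.const k))
  refine ⟨C + (R + R₁ ^ c₂) * (R + R₁ ^ c₂), c, fun X hX x hx hbd => ?_⟩
  have hcX := hc X hX
  simp only at hcX
  obtain ⟨X₁, hX₁⟩ : ∃ X₁ : ℕ, X₁ = (n * X) ^ 2 + 2 := ⟨_, rfl⟩
  rw [← hX₁] at hcX
  have hX₁2 : 2 ≤ X₁ := by omega
  have hR₁2 : 2 ≤ R₁ := by omega
  obtain ⟨N, hN1, hN2, hN3⟩ := hN X₁ hX₁2
  obtain ⟨HN, hHN1, hHN2, hHN3⟩ := hB N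
  -- facts on the forms
  have cmpX : ∀ a : Gm n, El (1⁻¹ * a) ≤ X → Cmp (X₁ : ℝ) (fm a) (fm 1) := by
    intro a ha
    rw [hX₁]
    exact ConeG_cmp_fm ha
  have cmpR : ∀ a g : Gm n, El (g⁻¹ * a) ≤ R → Cmp (R₁ : ℝ) (fm a) (fm g) := by
    intro a g ha
    rw [hR₁]
    exact ConeG_cmp_fm ha
  have near1 : ∀ P : Matrix (Fin n) (Fin n) ℝ, P.PosDef → Cmp (X₁ : ℝ) P (fm 1) →
      El (1⁻¹ * pos P) ≤ X ^ c := by
    intro P hP h1
    have := hone X₁ hX₁2 P (pos P) h1 (pos_spec hP)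
    rw [inv_one, one_mul]
    omega
  have nearR : ∀ (P : Matrix (Fin n) (Fin n) ℝ) (g : Gm n), P.PosDef → Cmp (R₁ : ℝ) P (fm g) →
      El (g⁻¹ * pos P) ≤ R + R₁ ^ c₂ := by
    intro P g hP h1
    have := hsize R₁ hR₁2 P (pos P) g h1 (pos_spec hP)
    omega
  have hlen : ∀ σ ∈ x.support, σ.length ≤ k := fun σ hσ => (hx σ hσ).1.le
  have hlenf : ∀ σ ∈ (mp fm x).support, σ.length ≤ k := by
    intro σ hσ
    obtain ⟨ρ, hρ, rfl⟩ := supp_mp hσ
    rw [List.length_map]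
    exact hlen ρ hρ
  have hlenc : ∀ σ ∈ (cn (fm (1 : Gm n)) (mp fm x)).support, σ.length ≤ k + 1 := by
    intro σ hσ
    obtain ⟨ρ, hρ, rfl⟩ := supp_cn hσ
    rw [List.length_cons]
    have := hlenf ρ hρ
    omega
  refine ⟨mp pos (sbN N (cn (fm (1 : Gm n)) (mp fm x))) - mp pos (HN (mp fm x)) -
    pr (fun a => a) (pos ∘ fm) x, fun τ hτ => ?_, ConeG_bd fm pos (fm 1) N HN hHN1 x hbd, ?_⟩
  · rcases supp_sub hτ with hτ | hτ
    · rcases supp_sub hτ with hτ | hτ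
      · -- the subdivided cone
        obtain ⟨τ', hτ', rfl⟩ := supp_mp hτ
        obtain ⟨σ', hσ', h1, h2, h3⟩ := supp_sbN N hτ'
        obtain ⟨σ'', hσ'', rfl⟩ := supp_cn hσ'
        obtain ⟨σ, hσ, rfl⟩ := supp_mp hσ''
        obtain ⟨e1, e2, e3⟩ := hx σ hσ
        have hPD : ∀ v ∈ fm (1 : Gm n) :: σ.map fm, v.PosDef := by
          intro v hv
          rcases List.mem_cons.1 hv with rfl | hv
          · exact fm_posDef 1
          · obtain ⟨a, ha, rfl⟩ := List.mem_map.1 hv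
            exact fm_posDef a
        have hCM : ∀ v ∈ fm (1 : Gm n) :: σ.map fm, Cmp (X₁ : ℝ) v (fm 1) := by
          intro v hv
          rcases List.mem_cons.1 hv with rfl | hv
          · refine cmpX 1 ?_
            rw [inv_one, one_mul, El_szf.one]
            omega
          · obtain ⟨a, ha, rfl⟩ := List.mem_map.1 hv
            exact cmpX a (e3 a ha)
        have hlen1 : (fm (1 : Gm n) :: σ.map fm).length = k + 1 := by
          rw [List.length_cons, List.length_map, e1]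
        have hPD' := h2 _ cvx_posDef hPD
        have hCM' := h2 _ (cvx_Cmp (X₁ : ℝ) (fm 1)) hCM
        have hmesh : ∀ v ∈ τ', ∀ w ∈ τ', ∀ y : Fin n → ℝ,
            |ev v y - ev w y| * (X₁ : ℝ) ^ c₀ ≤ nsq y := by
          intro v hv w hw y
          have hε : (0 : ℝ) ≤ X₁ * nsq y := mul_nonneg (by positivity) (nsq_nonneg y)
          have h4 := h3 (evL y) (X₁ * nsq y) hε (fun v hv w hw => by
            rw [evL_apply, evL_apply, abs_le]
            have a1 := ConeG_ev_nonneg (hPD v hv) y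
            have a2 := ConeG_ev_nonneg (hPD w hw) y
            have a3 := (hCM v hv y).1
            have a4 := (hCM w hw y).1
            rw [ev_fm_one] at a3 a4
            constructor <;> linarith) v hv w hw
          rw [evL_apply, evL_apply, hlen1] at h4
          have h5 : |ev v y - ev w y| * (X₁ : ℝ) ^ c₀ ≤
              (1 - 1 / ((k + 1 : ℕ) : ℝ)) ^ N * (X₁ * nsq y) * (X₁ : ℝ) ^ c₀ :=
            mul_le_mul_of_nonneg_right h4 (by positivity)
          have h6 : (1 - 1 / ((k + 1 : ℕ) : ℝ)) ^ N * (X₁ * nsq y) * (X₁ : ℝ) ^ c₀ =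
              ((1 - 1 / ((k + 1 : ℕ) : ℝ)) ^ N * (X₁ : ℝ) ^ (c₀ + 1)) * nsq y := by ring
          rw [h6] at h5
          exact h5.trans (mul_le_of_le_one_left (nsq_nonneg y) hN3)
        refine ⟨by rw [List.length_map, h1, hlen1], fun a ha b hb => ?_, fun a ha => ?_⟩
        · obtain ⟨P, hP, rfl⟩ := List.mem_map.1 ha
          obtain ⟨P', hP', rfl⟩ := List.mem_map.1 hb
          exact (hclose X₁ hX₁2 P P' (pos P) (pos P') (hPD' P hP) (hCM' P hP) (hCM' P' hP')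
            (hmesh P hP P' hP') (pos_spec (hPD' P hP)) (pos_spec (hPD' P' hP'))).trans
            (Nat.le_add_right _ _)
        · obtain ⟨P, hP, rfl⟩ := List.mem_map.1 ha
          exact near1 P (hPD' P hP) (hCM' P hP)
      · -- the homotopy
        obtain ⟨τ', hτ', rfl⟩ := supp_mp hτ
        obtain ⟨σ', hσ', hne, h1, h2⟩ := hHN3 _ _ hτ'
        obtain ⟨σ, hσ, rfl⟩ := supp_mp hσ'
        obtain ⟨e1, e2, e3⟩ := hx σ hσ
        have hσne : σ ≠ [] := by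
          rintro rfl
          exact hne rfl
        obtain ⟨g₀, hg₀⟩ := List.exists_mem_of_ne_nil σ hσne
        have hPD' : ∀ v ∈ τ', v.PosDef := h2 _ cvx_posDef (by
          intro v hv
          obtain ⟨a, ha, rfl⟩ := List.mem_map.1 hv
          exact fm_posDef a)
        have hCM' : ∀ v ∈ τ', Cmp (X₁ : ℝ) v (fm 1) := h2 _ (cvx_Cmp (X₁ : ℝ) (fm 1)) (by
          intro v hv
          obtain ⟨a, ha, rfl⟩ := List.mem_map.1 hv
          exact cmpX a (e3 a ha))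
        have hCR' : ∀ v ∈ τ', Cmp (R₁ : ℝ) v (fm g₀) := h2 _ (cvx_Cmp (R₁ : ℝ) (fm g₀)) (by
          intro v hv
          obtain ⟨a, ha, rfl⟩ := List.mem_map.1 hv
          exact cmpR a g₀ (e2 g₀ hg₀ a ha))
        refine ⟨by rw [List.length_map, h1, List.length_map, e1], fun a ha b hb => ?_,
          fun a ha => ?_⟩
        · obtain ⟨P, hP, rfl⟩ := List.mem_map.1 ha
          obtain ⟨P', hP', rfl⟩ := List.mem_map.1 hb
          exact (ConeG_El_mul (nearR P g₀ (hPD' P hP) (hCR' P hP))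
            (nearR P' g₀ (hPD' P' hP') (hCR' P' hP'))).trans (Nat.le_add_left _ _)
        · obtain ⟨P, hP, rfl⟩ := List.mem_map.1 ha
          exact near1 P (hPD' P hP) (hCM' P hP)
    · -- the prism
      obtain ⟨σ, hσ, h1, h2⟩ := supp_pr hτ
      obtain ⟨e1, e2, e3⟩ := hx σ hσ
      have hE : ∀ g₀ ∈ σ, ∀ y ∈ τ, El (g₀⁻¹ * y) ≤ R + R₁ ^ c₂ := by
        intro g₀ hg₀ y hy
        obtain ⟨a, ha, rfl | rfl⟩ := h2 y hy
        · exact (e2 g₀ hg₀ _ ha).trans (Nat.le_add_right _ _)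
        · exact nearR _ g₀ (fm_posDef a) (cmpR a g₀ (e2 g₀ hg₀ a ha))
      refine ⟨by rw [h1, e1], fun a ha b hb => ?_, fun a ha => ?_⟩
      · obtain ⟨g₀, hg₀, _⟩ := h2 a ha
        exact (ConeG_El_mul (hE g₀ hg₀ a ha) (hE g₀ hg₀ b hb)).trans (Nat.le_add_left _ _)
      · obtain ⟨a', ha', rfl | rfl⟩ := h2 a ha
        · have := e3 _ ha'
          omega
        · exact near1 _ (fm_posDef a') (cmpX a' (e3 a' ha'))
  · -- the mass
    have m1 : ms (mp pos (sbN N (cn (fm (1 : Gm n)) (mp fm x)))) ≤ X₁ ^ c₃ * ms x := by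
      refine (ms_mp _ _).trans ((ms_sbN N (k + 1) _ hlenc).trans (Nat.mul_le_mul hN2 ?_))
      exact (ms_cn _ _).trans (ms_mp _ _)
    have m2 : ms (mp pos (HN (mp fm x))) ≤ X₁ ^ c₃ * B * X₁ ^ c₃ * ms x := by
      refine (ms_mp _ _).trans ((hHN2 _ hlenf).trans (Nat.mul_le_mul (Nat.mul_le_mul
        (Nat.mul_le_mul_right _ hN1) ?_) (ms_mp _ _)))
      exact (Nat.pow_le_pow_left (Nat.factorial_le (Nat.le_succ k)) N).trans hN2
    have m3 : ms (pr (fun a => a) (pos ∘ fm) x) ≤ k * ms x := ms_pr _ _ x hlen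
    refine (ms_sub_le _ _).trans ((Nat.add_le_add ((ms_sub_le _ _).trans
      (Nat.add_le_add m1 m2)) m3).trans ?_)
    calc X₁ ^ c₃ * ms x + X₁ ^ c₃ * B * X₁ ^ c₃ * ms x + k * ms x
        = (X₁ ^ c₃ + X₁ ^ c₃ * B * X₁ ^ c₃ + k) * ms x := by ring
      _ ≤ X ^ c * ms x := Nat.mul_le_mul_right _ (by omega)

end Pool.Agent.H.MP_e5d137_al.GLn
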