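import Pool.Agent.H.MP_e5d137_al.UB.Cone

/-!
# `GL(n, ℤ)`: forms, Siegel sets, size function
-/

namespace Pool.Agent.H.MP_e5d137_al.GLn

open Finset Matrix

variable {n : ℕ}

/-- the group `GL(n, ℤ)` -/
abbrev Gm (n : ℕ) : Type := Matrix.GeneralLinearGroup (Fin n) ℤ

/-- the real matrix of an element of `GL(n, ℤ)` -/
noncomputable def rm (g : Gm n) : Matrix (Fin n) (Fin n) ℝ :=
  (g : Matrix (Fin n) (Fin n) ℤ).map (Int.castRingHom ℝ)

/-- the square of the euclidean norm -/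
def nsq (x : Fin n → ℝ) : ℝ := ∑ i, x i ^ 2

/-- the value at `x` of the quadratic form of the matrix `P` -/
def ev (P : Matrix (Fin n) (Fin n) ℝ) (x : Fin n → ℝ) : ℝ := x ⬝ᵥ (P *ᵥ x)

/-- the quadratic form `∑ a_i (u x)_i ^ 2` -/
def qf (a : Fin n → ℝ) (u : Matrix (Fin n) (Fin n) ℝ) (x : Fin n → ℝ) : ℝ :=
  ∑ i, a i * ((u *ᵥ x) i) ^ 2

/-- upper unitriangular matrices -/
def UT (u : Matrix (Fin n) (Fin n) ℝ) : Prop := (∀ i, u i i = 1) ∧ ∀ i j, j < i → u i j = 0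

/-- the Siegel condition -/
structure Sg (t : ℝ) (a : Fin n → ℝ) (u : Matrix (Fin n) (Fin n) ℝ) : Prop where
  pos : ∀ i, 0 < a i
  ut : UT u
  le : ∀ i j, |u i j| ≤ t
  mono : ∀ i j, i ≤ j → a i ≤ t * a j

/-- `P ∘ g` lies in the Siegel set of parameter `t` -/
def Rd (t : ℝ) (P : Matrix (Fin n) (Fin n) ℝ) (g : Gm n) : Prop :=
  ∃ a u, Sg t a u ∧ ∀ x, ev P (rm g *ᵥ x) = qf a u x

/-- the form `x ↦ |g⁻¹ x|²` -/
noncomputable def fm (g : Gm n) : Matrix (Fin n) (Fin n) ℝ := (rm g⁻¹)ᵀ * rm g⁻¹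

/-- the row sum norm of an integral matrix -/
def nrm (A : Matrix (Fin n) (Fin n) ℤ) : ℕ := Finset.univ.sup fun i => ∑ j, (A i j).natAbs

/-- the size function of `GL(n, ℤ)` -/
def El (g : Gm n) : ℕ := max 1 (max (nrm (g : Matrix (Fin n) (Fin n) ℤ))
  (nrm ((g⁻¹ : Gm n) : Matrix (Fin n) (Fin n) ℤ)))

lemma rm_one : rm (1 : Gm n) = 1 := by
  simp [rm]

lemma rm_mul (g h : Gm n) : rm (g * h) = rm g * rm h := by
  rw [rm, Matrix.GeneralLinearGroup.coe_mul, Matrix.map_mul]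
  rfl

lemma rm_mul_inv (g : Gm n) : rm g * rm g⁻¹ = 1 := by
  rw [← rm_mul, mul_inv_cancel, rm_one]

lemma rm_inv_mul (g : Gm n) : rm g⁻¹ * rm g = 1 := by
  rw [← rm_mul, inv_mul_cancel, rm_one]

lemma nsq_eq (x : Fin n → ℝ) : nsq x = x ⬝ᵥ x := by
  simp [nsq, dotProduct, sq]

lemma nsq_nonneg (x : Fin n → ℝ) : 0 ≤ nsq x := by
  unfold nsq
  positivity

lemma ev_fm (g : Gm n) (x : Fin n → ℝ) : ev (fm g) x = nsq (rm g⁻¹ *ᵥ x) := by
  rw [ev, fm, nsq_eq, ← Matrix.mulVec_mulVec, Matrix.dotProduct_mulVec, Matrix.vecMul_transpose]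

lemma ev_fm_one (x : Fin n → ℝ) : ev (fm (1 : Gm n)) x = nsq x := by
  rw [ev_fm, inv_one, rm_one, Matrix.one_mulVec]

lemma ev_add (P P' : Matrix (Fin n) (Fin n) ℝ) (x : Fin n → ℝ) :
    ev (P + P') x = ev P x + ev P' x := by
  simp [ev, Matrix.add_mulVec, dotProduct_add]

lemma ev_smul (c : ℝ) (P : Matrix (Fin n) (Fin n) ℝ) (x : Fin n → ℝ) :
    ev (c • P) x = c * ev P x := by
  simp [ev, Matrix.smul_mulVec, dotProduct_smul]

/-- evaluation of the form at `x`, as a linear map -/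
noncomputable def evL (x : Fin n → ℝ) : Matrix (Fin n) (Fin n) ℝ →ₗ[ℝ] ℝ where
  toFun P := ev P x
  map_add' P P' := ev_add P P' x
  map_smul' c P := by simp [ev_smul]

@[simp] lemma evL_apply (x : Fin n → ℝ) (P : Matrix (Fin n) (Fin n) ℝ) : evL x P = ev P x := rfl

/-- entries of an element are bounded by its size -/
lemma entry_le_El (g : Gm n) (i j : Fin n) : ((g : Matrix (Fin n) (Fin n) ℤ) i j).natAbs ≤ El g := by
  have h1 : ((g : Matrix (Fin n) (Fin n) ℤ) i j).natAbs ≤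
      ∑ j, ((g : Matrix (Fin n) (Fin n) ℤ) i j).natAbs :=
    Finset.single_le_sum (f := fun j => ((g : Matrix (Fin n) (Fin n) ℤ) i j).natAbs)
      (fun _ _ => Nat.zero_le _) (Finset.mem_univ j)
  have h2 : ∑ j, ((g : Matrix (Fin n) (Fin n) ℤ) i j).natAbs ≤
      nrm (g : Matrix (Fin n) (Fin n) ℤ) :=
    Finset.le_sup (f := fun i => ∑ j, ((g : Matrix (Fin n) (Fin n) ℤ) i j).natAbs)
      (Finset.mem_univ i)
  exact h1.trans (h2.trans ((le_max_left _ _).trans (le_max_right _ _)))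

lemma Def_nrm_le {A : Matrix (Fin n) (Fin n) ℤ} {B : ℕ} (h : ∀ i j, (A i j).natAbs ≤ B) :
    nrm A ≤ n * B := by
  refine Finset.sup_le fun i _ => ?_
  have h1 := Finset.sum_le_card_nsmul Finset.univ (fun j => (A i j).natAbs) B fun j _ => h i j
  simpa using h1

lemma Def_row_le (A : Matrix (Fin n) (Fin n) ℤ) (i : Fin n) : ∑ j, (A i j).natAbs ≤ nrm A :=
  Finset.le_sup (f := fun i => ∑ j, (A i j).natAbs) (Finset.mem_univ i)

lemma Def_nrm_mul (A B : Matrix (Fin n) (Fin n) ℤ) : nrm (A * B) ≤ nrm A * nrm B := by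
  refine Finset.sup_le fun i _ => ?_
  calc ∑ j, ((A * B) i j).natAbs ≤ ∑ j, ∑ k, (A i k).natAbs * (B k j).natAbs := by
        refine Finset.sum_le_sum fun j _ => ?_
        rw [Matrix.mul_apply]
        refine (Int.natAbs_sum_le _ _).trans (le_of_eq ?_)
        exact Finset.sum_congr rfl fun k _ => Int.natAbs_mul _ _
    _ = ∑ k, (A i k).natAbs * ∑ j, (B k j).natAbs := by
        rw [Finset.sum_comm]
        exact Finset.sum_congr rfl fun k _ => (Finset.mul_sum _ _ _).symm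
    _ ≤ ∑ k, (A i k).natAbs * nrm B :=
        Finset.sum_le_sum fun k _ => Nat.mul_le_mul_left _ (Def_row_le B k)
    _ = (∑ k, (A i k).natAbs) * nrm B := (Finset.sum_mul _ _ _).symm
    _ ≤ nrm A * nrm B := Nat.mul_le_mul_right _ (Def_row_le A i)

lemma Def_nrm_one : nrm (1 : Matrix (Fin n) (Fin n) ℤ) ≤ 1 := by
  refine Finset.sup_le fun i _ => ?_
  rw [Finset.sum_eq_single i]
  · rw [Matrix.one_apply_eq]; rfl
  · intro j _ hj
    rw [Matrix.one_apply_ne (Ne.symm hj)]; rfl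
  · intro h
    exact absurd (Finset.mem_univ i) h

lemma Def_nrm_le_El (g : Gm n) : nrm (g : Matrix (Fin n) (Fin n) ℤ) ≤ El g :=
  (le_max_left _ _).trans (le_max_right _ _)

lemma Def_nrm_inv_le_El (g : Gm n) : nrm ((g⁻¹ : Gm n) : Matrix (Fin n) (Fin n) ℤ) ≤ El g :=
  (le_max_right _ _).trans (le_max_right _ _)

lemma Def_natAbs_le {g : Gm n} {B : ℕ} (h : ∀ i j, |rm g i j| ≤ B) (i j : Fin n) :
    ((g : Matrix (Fin n) (Fin n) ℤ) i j).natAbs ≤ B := by
  have h1 := h i j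
  have h2 : rm g i j = (((g : Matrix (Fin n) (Fin n) ℤ) i j : ℤ) : ℝ) := rfl
  rw [h2, ← Int.cast_abs] at h1
  have h3 : |(g : Matrix (Fin n) (Fin n) ℤ) i j| ≤ (B : ℤ) := by exact_mod_cast h1
  rw [Int.abs_eq_natAbs] at h3
  exact_mod_cast h3

/-- the size is bounded if the entries of the matrix and of its inverse are bounded -/
lemma El_le {g : Gm n} {B : ℕ} (h1 : ∀ i j, |rm g i j| ≤ B) (h2 : ∀ i j, |rm g⁻¹ i j| ≤ B) :
    El g ≤ max 1 (n * B) :=
  max_le (le_max_left _ _) (max_le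
    ((Def_nrm_le (Def_natAbs_le h1)).trans (le_max_right _ _))
    ((Def_nrm_le (Def_natAbs_le h2)).trans (le_max_right _ _)))

/-- the size function has the required properties -/
theorem El_szf : UB.Szf (El (n := n)) where
  one := by
    apply le_antisymm
    · refine max_le le_rfl (max_le ?_ ?_)
      · rw [Units.val_one]
        exact Def_nrm_one
      · rw [inv_one, Units.val_one]
        exact Def_nrm_one
    · exact le_max_left _ _
  pos := fun g => le_max_left _ _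
  mul := fun g h => by
    have hg : 1 ≤ El g := le_max_left _ _
    have hh : 1 ≤ El h := le_max_left _ _
    refine max_le ?_ (max_le ?_ ?_)
    · exact Nat.mul_pos hg hh
    · rw [Units.val_mul]
      exact (Def_nrm_mul _ _).trans (Nat.mul_le_mul (Def_nrm_le_El g) (Def_nrm_le_El h))
    · rw [_root_.mul_inv_rev, Units.val_mul, mul_comm (El g)]
      exact (Def_nrm_mul _ _).trans (Nat.mul_le_mul (Def_nrm_inv_le_El h) (Def_nrm_inv_le_El g))
  inv := fun g => by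
    rw [El, El, inv_inv, max_comm (nrm _)]
  fin := fun R => by
    have hS : {A : Matrix (Fin n) (Fin n) ℤ | ∀ i j, A i j ∈ Set.Icc (-(R : ℤ)) (R : ℤ)}.Finite := by
      have h1 := Set.Finite.pi' (fun _ : Fin n =>
        Set.Finite.pi' (fun _ : Fin n => Set.finite_Icc (-(R : ℤ)) (R : ℤ)))
      exact h1
    refine (hS.preimage (f := fun g : Gm n => (g : Matrix (Fin n) (Fin n) ℤ))
      Units.val_injective.injOn).subset ?_
    intro g hg i j
    have h2 : ((g : Matrix (Fin n) (Fin n) ℤ) i j).natAbs ≤ R := (entry_le_El g i j).trans hg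
    show (g : Matrix (Fin n) (Fin n) ℤ) i j ∈ Set.Icc (-(R : ℤ)) (R : ℤ)
    rw [Set.mem_Icc]
    omega

/-- `|g x|² ≤ (n El g)² |x|²` -/
lemma nsq_le (g : Gm n) (x : Fin n → ℝ) : nsq (rm g *ᵥ x) ≤ (n * El g : ℝ) ^ 2 * nsq x := by
  have hent : ∀ i j, rm g i j ^ 2 ≤ (El g : ℝ) ^ 2 := by
    intro i j
    have h1 := entry_le_El g i j
    have h2 : |rm g i j| ≤ (El g : ℝ) := by
      have h3 : rm g i j = (((g : Matrix (Fin n) (Fin n) ℤ) i j : ℤ) : ℝ) := rfl
      rw [h3, ← Int.cast_abs, Int.abs_eq_natAbs]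
      exact_mod_cast h1
    rw [← sq_abs]
    exact pow_le_pow_left₀ (abs_nonneg _) h2 2
  have hrow : ∀ i, (rm g *ᵥ x) i ^ 2 ≤ (n * (El g : ℝ) ^ 2) * nsq x := by
    intro i
    have h1 : (rm g *ᵥ x) i = ∑ j, rm g i j * x j := rfl
    rw [h1]
    refine (Finset.sum_mul_sq_le_sq_mul_sq Finset.univ (fun j => rm g i j) x).trans ?_
    refine mul_le_mul_of_nonneg_right ?_ (nsq_nonneg x)
    have h2 := Finset.sum_le_card_nsmul Finset.univ (fun j => rm g i j ^ 2) ((El g : ℝ) ^ 2)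
      fun j _ => hent i j
    simpa using h2
  calc nsq (rm g *ᵥ x) ≤ ∑ _i : Fin n, (n * (El g : ℝ) ^ 2) * nsq x :=
        Finset.sum_le_sum fun i _ => hrow i
    _ = (n * El g : ℝ) ^ 2 * nsq x := by
        rw [Finset.sum_const, Finset.card_univ, Fintype.card_fin, nsmul_eq_mul]
        ring

/-- comparison of the forms of two elements -/
lemma ev_fm_le (g h : Gm n) (x : Fin n → ℝ) :
    ev (fm g) x ≤ (n * El (g⁻¹ * h) : ℝ) ^ 2 * ev (fm h) x := by
  rw [ev_fm, ev_fm]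
  have h1 : rm g⁻¹ *ᵥ x = rm (g⁻¹ * h) *ᵥ (rm h⁻¹ *ᵥ x) := by
    rw [Matrix.mulVec_mulVec, ← rm_mul, mul_assoc, mul_inv_cancel, mul_one]
  rw [h1]
  exact nsq_le _ _

end Pool.Agent.H.MP_e5d137_al.GLn
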