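import Pool.Agent.H.MP_e5d137_al.GLn.Lag

/-!
# Existence of reduced bases
-/

namespace Pool.Agent.H.MP_e5d137_al.GLn

open Finset Matrix

variable {n : ℕ}

/-- one step of the Lagrange decomposition -/
lemma Ex_step (P : Matrix (Fin (n + 1)) (Fin (n + 1)) ℝ) (hP : P.PosDef) :
    ∃ (l : Fin n → ℝ) (P' : Matrix (Fin n) (Fin n) ℝ), P'.PosDef ∧
      ∀ (x₀ : ℝ) (x : Fin n → ℝ), ev P (Fin.cons x₀ x) =
        P 0 0 * (x₀ + ∑ j, l j * x j) ^ 2 + ev P' x := by
  have ha : 0 < P 0 0 := hP.diag_pos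
  have hsym : ∀ i j, P i j = P j i := fun i j => by
    have h := hP.isHermitian.apply j i
    simpa using h
  obtain ⟨P', hP'⟩ : ∃ P' : Matrix (Fin n) (Fin n) ℝ, P' = Matrix.of fun i j =>
    P i.succ j.succ - P i.succ 0 * P 0 j.succ / P 0 0 := ⟨_, rfl⟩
  have key : ∀ (x₀ : ℝ) (x : Fin n → ℝ), ev P (Fin.cons x₀ x) =
      P 0 0 * (x₀ + ∑ j, P 0 j.succ / P 0 0 * x j) ^ 2 + ev P' x := by
    intro x₀ x
    have e1 : ∑ j, P 0 j.succ / P 0 0 * x j = (∑ j, P 0 j.succ * x j) / P 0 0 := by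
      rw [Finset.sum_div]
      exact Finset.sum_congr rfl fun j _ => by ring
    have e2 : ev P (Fin.cons x₀ x) = x₀ * (P 0 0 * x₀ + ∑ j, P 0 j.succ * x j) +
        ∑ i, x i * (P i.succ 0 * x₀ + ∑ j, P i.succ j.succ * x j) := by
      simp only [ev, dotProduct, Matrix.mulVec, Fin.sum_univ_succ, Fin.cons_zero, Fin.cons_succ]
    have e3 : ev P' x = ∑ i, x i * ∑ j, P i.succ j.succ * x j -
        (∑ j, P 0 j.succ * x j) ^ 2 / P 0 0 := by
      have h1 : ∀ i, (P' *ᵥ x) i = ∑ j, P i.succ j.succ * x j -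
          P i.succ 0 * (∑ j, P 0 j.succ * x j) / P 0 0 := by
        intro i
        rw [Matrix.mulVec, dotProduct, Finset.mul_sum, Finset.sum_div,
          ← Finset.sum_sub_distrib]
        refine Finset.sum_congr rfl fun j _ => ?_
        rw [hP', Matrix.of_apply]
        ring
      rw [ev, dotProduct]
      have h2 : ∑ i, x i * (P' *ᵥ x) i = ∑ i, x i * ∑ j, P i.succ j.succ * x j -
          ∑ i, (P 0 i.succ * x i) * ((∑ j, P 0 j.succ * x j) / P 0 0) := by
        rw [← Finset.sum_sub_distrib]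
        refine Finset.sum_congr rfl fun i _ => ?_
        rw [h1 i, hsym i.succ 0]
        ring
      rw [h2, ← Finset.sum_mul]
      ring
    have e4 : ∑ i, x i * (P i.succ 0 * x₀ + ∑ j, P i.succ j.succ * x j) =
        x₀ * (∑ j, P 0 j.succ * x j) + ∑ i, x i * ∑ j, P i.succ j.succ * x j := by
      rw [Finset.mul_sum, ← Finset.sum_add_distrib]
      refine Finset.sum_congr rfl fun i _ => ?_
      rw [hsym i.succ 0]
      ring
    rw [e2, e4, e1, e3]
    field_simp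
    ring
  refine ⟨fun j => P 0 j.succ / P 0 0, P', ?_, key⟩
  refine Matrix.PosDef.of_dotProduct_mulVec_pos ?_ fun x hx => ?_
  · refine Matrix.IsHermitian.ext fun i j => ?_
    rw [hP']
    simp only [Matrix.of_apply, star_trivial]
    rw [hsym i.succ j.succ, hsym i.succ 0, hsym 0 j.succ]
    ring
  · have hx' : (Fin.cons (-∑ j, P 0 j.succ / P 0 0 * x j) x : Fin (n + 1) → ℝ) ≠ 0 := by
      intro h
      apply hx
      funext i
      have := congrFun h i.succ
      simpa using this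
    have h1 := hP.dotProduct_mulVec_pos hx'
    have h2 := key (-∑ j, P 0 j.succ / P 0 0 * x j) x
    rw [neg_add_cancel, zero_pow two_ne_zero, mul_zero, zero_add, ev, ev] at h2
    simp only [star_trivial] at h1 ⊢
    rw [← h2]
    exact h1

/-- the block matrix `(1, k; 0, γ)` -/
def Ex_blk (k : Fin n → ℤ) (γ : Matrix (Fin n) (Fin n) ℤ) :
    Matrix (Fin (n + 1)) (Fin (n + 1)) ℤ :=
  Matrix.of (Fin.cons (Fin.cons 1 k) fun i => Fin.cons 0 (γ i))

lemma Ex_blk_mul (k k' : Fin n → ℤ) (γ γ' : Matrix (Fin n) (Fin n) ℤ) :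
    Ex_blk k γ * Ex_blk k' γ' = Ex_blk (k' + k ᵥ* γ') (γ * γ') := by
  ext i j
  refine Fin.cases ?_ (fun i => ?_) i <;> refine Fin.cases ?_ (fun j => ?_) j
  · simp [Ex_blk, Matrix.mul_apply, Fin.sum_univ_succ]
  · simp [Ex_blk, Matrix.mul_apply, Fin.sum_univ_succ, Matrix.vecMul, dotProduct]
  · simp [Ex_blk, Matrix.mul_apply, Fin.sum_univ_succ]
  · simp [Ex_blk, Matrix.mul_apply, Fin.sum_univ_succ]

lemma Ex_blk_one : Ex_blk (0 : Fin n → ℤ) 1 = 1 := by
  ext i j
  refine Fin.cases ?_ (fun i => ?_) i <;> refine Fin.cases ?_ (fun j => ?_) j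
  · simp [Ex_blk]
  · rw [Matrix.one_apply_ne (Fin.succ_ne_zero j).symm]
    simp [Ex_blk]
  · rw [Matrix.one_apply_ne (Fin.succ_ne_zero i)]
    simp [Ex_blk]
  · simp [Ex_blk, Matrix.one_apply]

/-- the block matrix as an element of the group -/
def Ex_B (k : Fin n → ℤ) (γ : Gm n) : Gm (n + 1) where
  val := Ex_blk k (γ : Matrix (Fin n) (Fin n) ℤ)
  inv := Ex_blk (-(k ᵥ* ((γ⁻¹ : Gm n) : Matrix (Fin n) (Fin n) ℤ)))
    ((γ⁻¹ : Gm n) : Matrix (Fin n) (Fin n) ℤ)
  val_inv := by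
    rw [Ex_blk_mul, neg_add_cancel, Units.mul_inv, Ex_blk_one]
  inv_val := by
    rw [Ex_blk_mul, Matrix.neg_vecMul, Matrix.vecMul_vecMul, Units.inv_mul, Matrix.vecMul_one,
      add_neg_cancel, Ex_blk_one]

lemma Ex_B_mulVec (k : Fin n → ℤ) (γ : Gm n) (x₀ : ℝ) (x : Fin n → ℝ) :
    rm (Ex_B k γ) *ᵥ (Fin.cons x₀ x : Fin (n + 1) → ℝ) =
      Fin.cons (x₀ + ∑ j, (k j : ℝ) * x j) (rm γ *ᵥ x) := by
  ext i
  refine Fin.cases ?_ (fun i => ?_) i
  · simp [rm, Ex_B, Ex_blk, Matrix.mulVec, dotProduct, Fin.sum_univ_succ]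
  · simp [rm, Ex_B, Ex_blk, Matrix.mulVec, dotProduct, Fin.sum_univ_succ]

/-- the transposition of the first two basis vectors -/
def Ex_sw (n : ℕ) : Matrix (Fin (n + 2)) (Fin (n + 2)) ℤ :=
  Matrix.of fun i j => if i = Equiv.swap 0 1 j then 1 else 0

lemma Ex_sw_sq (n : ℕ) : Ex_sw n * Ex_sw n = 1 := by
  ext i j
  rw [Matrix.mul_apply, Finset.sum_eq_single (Equiv.swap 0 1 j)]
  · simp [Ex_sw, Matrix.one_apply]
  · intro k _ hk
    simp [Ex_sw, hk]
  · exact fun h => absurd (Finset.mem_univ _) h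

/-- the transposition as an element of the group -/
def Ex_S (n : ℕ) : Gm (n + 2) := ⟨Ex_sw n, Ex_sw n, Ex_sw_sq n, Ex_sw_sq n⟩

lemma Ex_S_mulVec (n : ℕ) : rm (Ex_S n) *ᵥ (Pi.single 0 1 : Fin (n + 2) → ℝ) = Pi.single 1 1 := by
  ext i
  rw [Matrix.mulVec_single_one]
  simp only [rm, Ex_S, Ex_sw, Matrix.col_apply, Matrix.map_apply, Matrix.of_apply,
    Equiv.swap_apply_left, Pi.single_apply]
  split_ifs <;> simp

lemma Ex_single (n : ℕ) : (Pi.single 0 1 : Fin (n + 1) → ℝ) = Fin.cons 1 0 := by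
  ext i
  refine Fin.cases ?_ (fun i => ?_) i
  · simp
  · simp

/-- the values at the images of the first basis vector are bounded below -/
lemma Ex_min (P : Matrix (Fin (n + 1)) (Fin (n + 1)) ℝ) (hP : P.PosDef) :
    ∃ g₀ : Gm (n + 1), ∀ g : Gm (n + 1),
      ev P (rm g₀ *ᵥ Pi.single 0 1) ≤ 2 * ev P (rm g *ᵥ Pi.single 0 1) := by
  obtain ⟨a, u, ha, hu, h⟩ := exists_lagrange P hP
  obtain ⟨δ, hδ, hl⟩ := exists_lower ha hu
  have hb : ∀ g : Gm (n + 1), δ ≤ ev P (rm g *ᵥ Pi.single 0 1) := by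
    intro g
    rw [h]
    have h1 : rm g *ᵥ (Pi.single 0 1 : Fin (n + 1) → ℝ) =
        fun i => (((g : Matrix (Fin (n + 1)) (Fin (n + 1)) ℤ) i 0 : ℤ) : ℝ) := by
      ext i
      rw [Matrix.mulVec_single_one]
      rfl
    rw [h1]
    refine hl (fun i => (g : Matrix (Fin (n + 1)) (Fin (n + 1)) ℤ) i 0) fun h0 => ?_
    have h2 : (((g⁻¹ : Gm (n + 1)) : Matrix (Fin (n + 1)) (Fin (n + 1)) ℤ) *
        (g : Matrix (Fin (n + 1)) (Fin (n + 1)) ℤ)) 0 0 = 1 := by
      rw [Units.inv_mul, Matrix.one_apply_eq]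
    rw [Matrix.mul_apply, Finset.sum_eq_zero] at h2
    · exact zero_ne_one h2
    · intro k _
      rw [congrFun h0 k]
      simp
  have hbd : BddBelow (Set.range fun g : Gm (n + 1) => ev P (rm g *ᵥ Pi.single 0 1)) :=
    ⟨δ, by rintro _ ⟨g, rfl⟩; exact hb g⟩
  have hm : δ ≤ ⨅ g : Gm (n + 1), ev P (rm g *ᵥ Pi.single 0 1) := le_ciInf hb
  have hm2 : (⨅ g : Gm (n + 1), ev P (rm g *ᵥ Pi.single 0 1)) <
      2 * ⨅ g : Gm (n + 1), ev P (rm g *ᵥ Pi.single 0 1) := by linarith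
  obtain ⟨g₀, hg₀⟩ := exists_lt_of_ciInf_lt hm2
  refine ⟨g₀, fun g => hg₀.le.trans ?_⟩
  have := ciInf_le hbd g
  linarith

lemma Ex_main : ∀ (n : ℕ) (P : Matrix (Fin n) (Fin n) ℝ), P.PosDef → ∃ (g : Gm n)
    (a : Fin n → ℝ) (u : Matrix (Fin n) (Fin n) ℝ), (∀ i, 0 < a i) ∧ UT u ∧
      (∀ i j, |u i j| ≤ 1) ∧ (∀ i j : Fin n, (i : ℕ) + 1 = j → a i ≤ 4 * a j) ∧
      ∀ x, ev P (rm g *ᵥ x) = qf a u x := by
  intro n
  induction n with
  | zero =>
    intro P _
    exact ⟨1, fun i => i.elim0, 1, fun i => i.elim0, UT.one, fun i => i.elim0,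
      fun i => i.elim0, fun x => by simp [ev, qf, dotProduct]⟩
  | succ n ih =>
    intro P hP
    obtain ⟨g₀, hg₀⟩ := Ex_min P hP
    have hP₀ : ((rm g₀)ᵀ * P * rm g₀).PosDef := by
      rw [← Matrix.conjTranspose_eq_transpose_of_trivial]
      refine hP.conjTranspose_mul_mul_same fun x y hxy => ?_
      have h1 := congrArg (fun z => rm g₀⁻¹ *ᵥ z) hxy
      simpa only [Matrix.mulVec_mulVec, rm_inv_mul, Matrix.one_mulVec] using h1
    have hev : ∀ x, ev P (rm g₀ *ᵥ x) = ev ((rm g₀)ᵀ * P * rm g₀) x := by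
      intro x
      rw [ev, ev, ← Matrix.mulVec_mulVec, ← Matrix.mulVec_mulVec, Matrix.dotProduct_mulVec _ (rm g₀)ᵀ,
        Matrix.vecMul_transpose]
    obtain ⟨l, P', hP', hl⟩ := Ex_step _ hP₀
    obtain ⟨γ, a', u', ha', hu', hu1, ha4, hγ⟩ := ih P' hP'
    obtain ⟨b, hb⟩ : ∃ b, b = ((rm g₀)ᵀ * P * rm g₀) 0 0 := ⟨_, rfl⟩
    rw [← hb] at hl
    have hb0 : 0 < b := by rw [hb]; exact hP₀.diag_pos
    obtain ⟨k, hk⟩ : ∃ k : Fin n → ℤ, k = fun j => -round ((l ᵥ* rm γ) j) := ⟨_, rfl⟩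
    obtain ⟨m, hm⟩ : ∃ m : Fin n → ℝ, m = fun j => (k j : ℝ) + (l ᵥ* rm γ) j := ⟨_, rfl⟩
    have hm2 : ∀ j, |m j| ≤ 1 / 2 := by
      intro j
      rw [hm, hk]
      have := abs_sub_round ((l ᵥ* rm γ) j)
      simp only [Int.cast_neg]
      rwa [neg_add_eq_sub]
    have hval : ∀ (x₀ : ℝ) (x : Fin n → ℝ), ev P (rm (g₀ * Ex_B k γ) *ᵥ
        (Fin.cons x₀ x : Fin (n + 1) → ℝ)) = b * (x₀ + ∑ j, m j * x j) ^ 2 + qf a' u' x := by
      intro x₀ x
      rw [rm_mul, ← Matrix.mulVec_mulVec, hev, Ex_B_mulVec, hl, hγ]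
      have h1 : ∑ j, l j * (rm γ *ᵥ x) j = ∑ j, (l ᵥ* rm γ) j * x j := by
        have := Matrix.dotProduct_mulVec l (rm γ) x
        simpa [dotProduct] using this
      have h2 : ∑ j, m j * x j = ∑ j, (k j : ℝ) * x j + ∑ j, (l ᵥ* rm γ) j * x j := by
        rw [← Finset.sum_add_distrib, hm]
        exact Finset.sum_congr rfl fun j _ => by ring
      rw [h1, h2]
      ring
    refine ⟨g₀ * Ex_B k γ, Fin.cons b a', Matrix.of (Fin.cons (Fin.cons 1 m)
      fun i => Fin.cons 0 (u' i)), ?_, ⟨?_, ?_⟩, ?_, ?_, ?_⟩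
    · intro i
      refine Fin.cases ?_ (fun i => ?_) i
      · simpa using hb0
      · simpa using ha' i
    · intro i
      refine Fin.cases ?_ (fun i => ?_) i
      · simp
      · simpa using hu'.1 i
    · intro i j
      refine Fin.cases (fun h => absurd h (Fin.not_lt_zero _)) (fun i => ?_) i
      refine Fin.cases (fun _ => ?_) (fun j h => ?_) j
      · simp
      · simpa using hu'.2 i j (Fin.succ_lt_succ_iff.1 h)
    · intro i j
      refine Fin.cases ?_ (fun i => ?_) i <;> refine Fin.cases ?_ (fun j => ?_) j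
      · simp
      · simpa using (hm2 j).trans (by norm_num)
      · simp
      · simpa using hu1 i j
    · intro i j
      refine Fin.cases ?_ (fun j => ?_) j
      · intro h
        simp at h
      refine Fin.cases (fun h => ?_) (fun i h => ?_) i
      · have hj : (j : ℕ) = 0 := by simpa using h.symm
        obtain ⟨n', rfl⟩ : ∃ n', n = n' + 1 := ⟨n - 1, by have := j.isLt; omega⟩
        have hj0 : j = 0 := Fin.ext hj
        subst hj0
        simp only [Fin.cons_zero, Fin.cons_succ]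
        have h1 := hg₀ (g₀ * Ex_B k γ * Ex_S n')
        have h2 : ev P (rm g₀ *ᵥ Pi.single 0 1) = b := by
          rw [hev, Ex_single, hl]
          simp [ev]
        have h3 : (Pi.single 1 1 : Fin (n' + 2) → ℝ) = Fin.cons 0 (Pi.single 0 1) := by
          ext i
          refine Fin.cases ?_ (fun i => ?_) i
          · rw [Fin.cons_zero, Pi.single_apply, if_neg]
            intro h
            have h7 := congrArg Fin.val h
            simp at h7
          · rw [Fin.cons_succ, Pi.single_apply, Pi.single_apply]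
            have e : (1 : Fin (n' + 2)) = Fin.succ 0 := rfl
            rw [e]
            by_cases hi : i = 0
            · rw [if_pos hi, if_pos (by rw [hi])]
            · rw [if_neg hi, if_neg fun h => hi (Fin.succ_injective _ h)]
        have h4 : ∑ j, m j * (Pi.single 0 1 : Fin (n' + 1) → ℝ) j = m 0 := by
          rw [Finset.sum_eq_single 0]
          · rw [Pi.single_eq_same, mul_one]
          · intro j _ hj
            rw [Pi.single_eq_of_ne hj, mul_zero]
          · exact fun h => absurd (Finset.mem_univ _) h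
        have h5 : qf a' u' (Pi.single 0 1) = a' 0 := by
          rw [qf_single, Fin.sum_univ_succ, hu'.1]
          rw [Finset.sum_eq_zero]
          · ring
          · intro i _
            rw [hu'.2 _ _ (Fin.succ_pos i)]
            ring
        rw [h2, rm_mul _ (Ex_S n'), ← Matrix.mulVec_mulVec, Ex_S_mulVec, h3, hval, h4, h5,
          zero_add] at h1
        have h6 : m 0 ^ 2 ≤ 1 / 4 := by
          rw [← sq_abs]
          have := hm2 0
          have h7 := abs_nonneg (m 0)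
          nlinarith
        nlinarith
      · have := ha4 i j (by simpa using h)
        simpa using this
    · intro x
      have hx : x = Fin.cons (x 0) (fun i => x i.succ) := (Fin.cons_self_tail x).symm
      rw [hx, hval]
      simp [qf, Fin.sum_univ_succ, Matrix.mulVec, dotProduct]

/-- Hermite reduction.

Proof.  Induction on `n`.  For `n + 1`: the values `ev P (rm g *ᵥ e₀)`, `g ∈ GL`, are bounded
below by a positive number (`exists_lower`; `g e₀` is a nonzero integral vector), so there is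
`g₀` with `ev P (g₀ e₀) ≤ 2 ev P (g e₀)` for all `g`.  Write (Lagrange, one step)
`P (g₀ x) = a₀ (x₀ + ℓ x')² + P' x'`, reduce `P'` by induction: `P' (γ' x') = qf a' u' x'`.
Replace `g₀` by `g = g₀ * diag (1, γ') * (shear by an integral row k)` with
`|(ℓ γ')_j + k_j| ≤ 1/2`.  Then `P (g x) = a₀ (x₀ + ℓ'' x')² + qf a' u' x'` and, with the
transposition `s` of `0, 1`: `a₀ = P (g e₀) = P (g₀ e₀) ≤ 2 P (g s e₀) = 2 P (g e₁)
= 2 (a₀ ℓ''_1² + a'_0) ≤ a₀ / 2 + 2 a'_0`, so `a₀ ≤ 4 a'_0`.  This gives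
`a_i ≤ 4 a_{i+1}`, hence `a_i ≤ 4 ^ n a_j` for `i ≤ j`. -/
theorem exists_red (P : Matrix (Fin n) (Fin n) ℝ) (hP : P.PosDef) :
    ∃ g, Rd (4 ^ n) P g := by
  obtain ⟨g, a, u, ha, hu, hu1, ha4, h⟩ := Ex_main n P hP
  have h1 : (1 : ℝ) ≤ 4 ^ n := one_le_pow₀ (by norm_num)
  refine ⟨g, a, u, ⟨ha, hu, fun i j => (hu1 i j).trans h1, fun i j hij => ?_⟩, h⟩
  have h2 : ∀ (d : ℕ) (i j : Fin n), (i : ℕ) + d = j → a i ≤ 4 ^ d * a j := by
    intro d
    induction d with
    | zero =>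
      intro i j hij
      have : i = j := Fin.ext (by simpa using hij)
      rw [this]
      simp
    | succ d ih =>
      intro i j hij
      have hj := j.isLt
      have h3 := ih i ⟨i + d, by omega⟩ rfl
      have h4 := ha4 ⟨i + d, by omega⟩ j (by simp only; omega)
      calc a i ≤ 4 ^ d * a ⟨i + d, by omega⟩ := h3
        _ ≤ 4 ^ d * (4 * a j) := mul_le_mul_of_nonneg_left h4 (by positivity)
        _ = 4 ^ (d + 1) * a j := by ring
  have h3 := h2 ((j : ℕ) - i) i j (by have : (i : ℕ) ≤ j := hij; omega)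
  refine h3.trans (mul_le_mul_of_nonneg_right ?_ (ha j).le)
  exact pow_le_pow_right₀ (by norm_num) (by have := j.isLt; omega)

end Pool.Agent.H.MP_e5d137_al.GLn
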