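import Pool.Agent.H.MP_e5d137_al.GLn.Lag

/-!
# Iwasawa coordinates of the elements of `GL(n, ℤ)`
-/

namespace Pool.Agent.H.MP_e5d137_al.GLn

open Finset Matrix

variable {n d : ℕ}

lemma IwaA_posDef (g : Gm n) : (fm g).PosDef := by
  have h1 : Function.Injective (rm g⁻¹).mulVec := by
    intro x y hxy
    have h2 := congrArg (fun z => rm g *ᵥ z) hxy
    simp only [Matrix.mulVec_mulVec, rm_mul_inv, Matrix.one_mulVec] at h2
    exact h2
  have h2 := Matrix.PosDef.conjTranspose_mul_self (rm g⁻¹) h1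
  rwa [Matrix.conjTranspose_eq_transpose_of_trivial] at h2

lemma exists_iwa (g : Gm n) :
    ∃ a u, (∀ i, 0 < a i) ∧ UT u ∧ ∀ x, ev (fm g) x = qf a u x :=
  exists_lagrange (fm g) (IwaA_posDef g)

/-- the diagonal coordinates -/
noncomputable def ia (g : Gm n) : Fin n → ℝ := (exists_iwa g).choose

/-- the unipotent coordinates -/
noncomputable def iu (g : Gm n) : Matrix (Fin n) (Fin n) ℝ := (exists_iwa g).choose_spec.choose

lemma ia_pos (g : Gm n) (i : Fin n) : 0 < ia g i := (exists_iwa g).choose_spec.choose_spec.1 i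

lemma iu_ut (g : Gm n) : UT (iu g) := (exists_iwa g).choose_spec.choose_spec.2.1

lemma ev_iwa (g : Gm n) (x : Fin n → ℝ) : ev (fm g) x = qf (ia g) (iu g) x :=
  (exists_iwa g).choose_spec.choose_spec.2.2 x

lemma IwaA_qf (a : Fin n → ℝ) (u : Matrix (Fin n) (Fin n) ℝ) (x : Fin n → ℝ) :
    qf a u x = ev (uᵀ * Matrix.diagonal a * u) x := by
  rw [ev, ← Matrix.mulVec_mulVec, ← Matrix.mulVec_mulVec, Matrix.dotProduct_mulVec,
    Matrix.vecMul_transpose, qf, dotProduct]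
  refine Finset.sum_congr rfl fun i _ => ?_
  rw [Matrix.mulVec_diagonal]
  ring

lemma IwaA_symm_eq {P Q : Matrix (Fin n) (Fin n) ℝ} (hP : Pᵀ = P) (hQ : Qᵀ = Q)
    (h : ∀ x, ev P x = ev Q x) : P = Q := by
  have key : ∀ (R : Matrix (Fin n) (Fin n) ℝ), Rᵀ = R → ∀ i j,
      ev R (Pi.single i 1 + Pi.single j 1) - ev R (Pi.single i 1) - ev R (Pi.single j 1) =
        2 * R i j := by
    intro R hR i j
    have h1 : R j i = R i j := by
      conv_lhs => rw [← hR]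
      rfl
    simp only [ev, Matrix.mulVec_add, add_dotProduct, dotProduct_add, single_one_dotProduct,
      Matrix.mulVec_single_one, Matrix.col_apply]
    rw [h1]
    ring
  ext i j
  have h1 := key P hP i j
  have h2 := key Q hQ i j
  rw [h, h, h, h2] at h1
  linarith

lemma IwaA_det {u : Matrix (Fin n) (Fin n) ℝ} (hu : UT u) : u.det = 1 := by
  rw [Matrix.det_of_upperTriangular]
  · exact Finset.prod_eq_one fun i _ => hu.1 i
  · intro i j hij
    exact hu.2 i j hij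

lemma IwaA_inv {u : Matrix (Fin n) (Fin n) ℝ} (hu : UT u) :
    UT u⁻¹ ∧ u * u⁻¹ = 1 ∧ u⁻¹ * u = 1 := by
  obtain ⟨v, hv, h1, h2⟩ := hu.exists_inv
  rw [Matrix.inv_eq_right_inv h1]
  exact ⟨hv, h1, h2⟩

/-- the product of the diagonal coordinates is `det (fm g) = 1` -/
lemma ia_prod (g : Gm n) : ∏ i, ia g i = 1 := by
  have h1 : fm g = (iu g)ᵀ * Matrix.diagonal (ia g) * iu g := by
    apply IwaA_symm_eq
    · rw [fm, Matrix.transpose_mul, Matrix.transpose_transpose]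
    · rw [Matrix.transpose_mul, Matrix.transpose_mul, Matrix.transpose_transpose,
        Matrix.diagonal_transpose, mul_assoc]
    · intro x
      rw [ev_iwa, IwaA_qf]
  have h2 := congrArg Matrix.det h1
  have h3 : (rm g⁻¹).det * (rm g).det = 1 := by
    rw [← Matrix.det_mul, rm_inv_mul, Matrix.det_one]
  have h4 : (rm g⁻¹).det * (rm g⁻¹).det = 1 := by
    have h5 : (rm g⁻¹).det = (((g⁻¹ : Gm n) : Matrix (Fin n) (Fin n) ℤ).det : ℝ) := by
      rw [rm]
      exact (Int.cast_det _).symm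
    have h6 : IsUnit ((g⁻¹ : Gm n) : Matrix (Fin n) (Fin n) ℤ).det := by
      rw [← Matrix.isUnit_iff_isUnit_det]
      exact Units.isUnit _
    rw [h5]
    rcases Int.isUnit_iff.1 h6 with h7 | h7 <;> rw [h7] <;> norm_num
  rw [fm, Matrix.det_mul, Matrix.det_transpose, h4, Matrix.det_mul, Matrix.det_mul,
    Matrix.det_transpose, IwaA_det (iu_ut g), Matrix.det_diagonal] at h2
  linarith

/-- the relative unipotent coordinate -/
noncomputable def iw (g h : Gm n) : Matrix (Fin n) (Fin n) ℝ := iu g * (iu h)⁻¹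

lemma iw_ut (g h : Gm n) : UT (iw g h) := (iu_ut g).mul (IwaA_inv (iu_ut h)).1

lemma iw_self (g : Gm n) : iw g g = 1 := (IwaA_inv (iu_ut g)).2.1

lemma iw_mul (g h k : Gm n) : iw g h * iw h k = iw g k := by
  rw [iw, iw, iw, mul_assoc, ← mul_assoc (iu h)⁻¹, (IwaA_inv (iu_ut h)).2.2, one_mul]

lemma iu_eq (g h : Gm n) : iu g = iw g h * iu h := by
  rw [iw, mul_assoc, (IwaA_inv (iu_ut h)).2.2, mul_one]

/-- Near elements (`El (g⁻¹ h) ≤ R`, `ρ = (n R)^2`): `ia g i ≤ ρ ia h i`,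
`ia g i * (iw g h i j)^2 ≤ ρ ia h j` (`compare`, `ev_fm_le`). -/
lemma iwa_near {g h : Gm n} {R : ℕ} (hR : El (g⁻¹ * h) ≤ R) :
    (∀ i, ia g i ≤ (n * R : ℝ) ^ 2 * ia h i) ∧
    ∀ i j, ia g i * iw g h i j ^ 2 ≤ (n * R : ℝ) ^ 2 * ia h j := by
  have h1 : ∀ x, qf (ia g) (iu g) x ≤ (n * R : ℝ) ^ 2 * qf (ia h) (iu h) x := by
    intro x
    rw [← ev_iwa, ← ev_iwa]
    refine (ev_fm_le g h x).trans ?_
    have h2 : 0 ≤ ev (fm h) x := by
      rw [ev_fm]
      exact nsq_nonneg _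
    refine mul_le_mul_of_nonneg_right ?_ h2
    have h3 : (El (g⁻¹ * h) : ℝ) ≤ R := by exact_mod_cast hR
    have h4 : (n : ℝ) * El (g⁻¹ * h) ≤ n * R := mul_le_mul_of_nonneg_left h3 (Nat.cast_nonneg n)
    have h5 : (0 : ℝ) ≤ (n : ℝ) * El (g⁻¹ * h) := by positivity
    exact pow_le_pow_left₀ h5 h4 2
  have h2 : ∀ i j, ia g i * iw g h i j ^ 2 ≤ (n * R : ℝ) ^ 2 * ia h j := fun i j =>
    (compare (ia_pos g) (iu_ut h) (iu_eq g h) h1 j).2 i
  refine ⟨fun i => ?_, h2⟩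
  have h3 := h2 i i
  rwa [(iw_ut g h).1 i, one_pow, mul_one] at h3

end Pool.Agent.H.MP_e5d137_al.GLn
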