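import Pool.Agent.H.MP_e5d137_al.GLn.IwaA

/-!
# Levels
-/

namespace Pool.Agent.H.MP_e5d137_al.GLn

open Finset Matrix

variable {n d : ℕ}

/-- The level of an element: rounded logarithms of the ratios of the diagonal coordinates. -/
noncomputable def lev (Λ : ℝ) (g : Gm (d + 1)) : Fin d → ℤ :=
  fun i => ⌊Real.log (ia g i.succ / ia g i.castSucc) / Λ⌋

/-- the height function of a level: `ht α i = ∑_{l < i} α_l` -/
def ht (α : Fin d → ℤ) (i : Fin (d + 1)) : ℤ := ∑ l : Fin d, if l.castSucc < i then α l else 0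

lemma IwaB_diff {G : Type*} [AddCommGroup G] (c : Fin d → G) {i j : Fin (d + 1)} (hij : i ≤ j) :
    (∑ l : Fin d, if l.castSucc < j then c l else 0) -
      (∑ l : Fin d, if l.castSucc < i then c l else 0) =
      ∑ l : Fin d, if i ≤ l.castSucc ∧ l.castSucc < j then c l else 0 := by
  rw [← Finset.sum_sub_distrib]
  refine Finset.sum_congr rfl fun l _ => ?_
  by_cases h1 : l.castSucc < i
  · have h2 : l.castSucc < j := lt_of_lt_of_le h1 hij
    have h3 : ¬ (i ≤ l.castSucc ∧ l.castSucc < j) := fun h => absurd h.1 (not_le.2 h1)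
    rw [if_pos h1, if_pos h2, if_neg h3, sub_self]
  · rw [if_neg h1, sub_zero]
    by_cases h2 : l.castSucc < j
    · rw [if_pos h2, if_pos ⟨not_lt.1 h1, h2⟩]
    · rw [if_neg h2, if_neg fun h => h2 h.2]

lemma IwaB_tel (F : Fin (d + 1) → ℝ) (j : Fin (d + 1)) :
    (∑ l : Fin d, if l.castSucc < j then F l.succ - F l.castSucc else 0) = F j - F 0 := by
  induction j using Fin.induction with
  | zero =>
    rw [sub_self]
    exact Finset.sum_eq_zero fun l _ => if_neg (Fin.not_lt_zero _)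
  | succ k ih =>
    have h1 : (∑ l : Fin d, if l.castSucc < k.succ then F l.succ - F l.castSucc else 0) =
        (∑ l : Fin d, if l.castSucc < k.castSucc then F l.succ - F l.castSucc else 0) +
          ∑ l : Fin d, if l = k then F l.succ - F l.castSucc else 0 := by
      rw [← Finset.sum_add_distrib]
      refine Finset.sum_congr rfl fun l _ => ?_
      have e1 : (l.castSucc < k.succ) ↔ l ≤ k := by
        rw [Fin.lt_def, Fin.le_def, Fin.val_castSucc, Fin.val_succ]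
        omega
      have e2 : (l.castSucc < k.castSucc) ↔ l < k := Fin.castSucc_lt_castSucc_iff
      rw [if_congr e1 rfl rfl, if_congr e2 rfl rfl]
      rcases lt_trichotomy l k with h | h | h
      · rw [if_pos h.le, if_pos h, if_neg h.ne, add_zero]
      · rw [if_pos h.le, if_neg (by rw [h]; exact lt_irrefl _), if_pos h, zero_add]
      · rw [if_neg (not_le.2 h), if_neg (not_lt.2 h.le), if_neg h.ne', add_zero]
    rw [h1, ih, Finset.sum_ite_eq' Finset.univ k, if_pos (Finset.mem_univ k)]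
    ring

lemma ht_mono {α β : Fin d → ℤ} (h : α ≤ β) {i j : Fin (d + 1)} (hij : i ≤ j) :
    ht α j - ht α i ≤ ht β j - ht β i := by
  rw [ht, ht, ht, ht, IwaB_diff α hij, IwaB_diff β hij]
  refine Finset.sum_le_sum fun l _ => ?_
  split_ifs
  · exact h l
  · exact le_rfl

lemma IwaB_ht_add_one (α : Fin d → ℤ) {i j : Fin (d + 1)} (hij : i ≤ j) :
    ht (fun l => α l + 1) j - ht (fun l => α l + 1) i ≤ ht α j - ht α i + d := by
  rw [ht, ht, ht, ht, IwaB_diff _ hij, IwaB_diff α hij]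
  have h1 : (d : ℤ) = ∑ _l : Fin d, (1 : ℤ) := by simp
  rw [h1, ← Finset.sum_add_distrib]
  refine Finset.sum_le_sum fun l _ => ?_
  split_ifs
  · exact le_rfl
  · norm_num

lemma IwaB_log (g : Gm (d + 1)) {i j : Fin (d + 1)} (hij : i ≤ j) :
    Real.log (ia g j / ia g i) = ∑ l : Fin d, if i ≤ l.castSucc ∧ l.castSucc < j then
      Real.log (ia g l.succ / ia g l.castSucc) else 0 := by
  have h0 : ∀ i j, Real.log (ia g j / ia g i) = Real.log (ia g j) - Real.log (ia g i) :=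
    fun i j => Real.log_div (ia_pos g j).ne' (ia_pos g i).ne'
  simp only [h0]
  rw [← IwaB_diff (fun l : Fin d => Real.log (ia g l.succ) - Real.log (ia g l.castSucc)) hij,
    IwaB_tel (fun i => Real.log (ia g i)) j, IwaB_tel (fun i => Real.log (ia g i)) i]
  ring

lemma IwaB_lev {Λ : ℝ} (hΛ : 0 < Λ) (g : Gm (d + 1)) (l : Fin d) :
    Λ * (lev Λ g l : ℝ) ≤ Real.log (ia g l.succ / ia g l.castSucc) ∧
    Real.log (ia g l.succ / ia g l.castSucc) ≤ Λ * (lev Λ g l : ℝ) + Λ := by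
  have h1 := Int.floor_le (Real.log (ia g l.succ / ia g l.castSucc) / Λ)
  have h2 := (Int.lt_floor_add_one (Real.log (ia g l.succ / ia g l.castSucc) / Λ)).le
  rw [le_div_iff₀ hΛ] at h1
  rw [div_le_iff₀ hΛ] at h2
  refine ⟨?_, ?_⟩
  · rw [mul_comm]
    exact h1
  · calc Real.log (ia g l.succ / ia g l.castSucc) ≤ _ := h2
      _ = Λ * (lev Λ g l : ℝ) + Λ := by
        rw [lev]
        ring

/-- ratios of the diagonal coordinates in terms of the level -/
lemma ratio_lev {Λ : ℝ} (hΛ : 0 < Λ) (g : Gm (d + 1)) {i j : Fin (d + 1)} (hij : i ≤ j) :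
    Real.exp (Λ * (ht (lev Λ g) j - ht (lev Λ g) i : ℤ)) ≤ ia g j / ia g i ∧
    ia g j / ia g i ≤ Real.exp (Λ * (ht (lev Λ g) j - ht (lev Λ g) i : ℤ) + Λ * d) := by
  have hpos : 0 < ia g j / ia g i := div_pos (ia_pos g j) (ia_pos g i)
  have h1 : (Λ * (ht (lev Λ g) j - ht (lev Λ g) i : ℤ) : ℝ) =
      ∑ l : Fin d, if i ≤ l.castSucc ∧ l.castSucc < j then Λ * (lev Λ g l : ℝ) else 0 := by
    rw [ht, ht, IwaB_diff (lev Λ g) hij, Int.cast_sum, Finset.mul_sum]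
    refine Finset.sum_congr rfl fun l _ => ?_
    split_ifs
    · rfl
    · rw [Int.cast_zero, mul_zero]
  rw [← Real.le_log_iff_exp_le hpos, ← Real.log_le_iff_le_exp hpos, h1, IwaB_log g hij]
  constructor
  · refine Finset.sum_le_sum fun l _ => ?_
    split_ifs
    · exact (IwaB_lev hΛ g l).1
    · exact le_rfl
  · have h2 : (Λ * d : ℝ) = ∑ _l : Fin d, Λ := by
      rw [Finset.sum_const, Finset.card_univ, Fintype.card_fin, nsmul_eq_mul, mul_comm]
    rw [h2, ← Finset.sum_add_distrib]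
    refine Finset.sum_le_sum fun l _ => ?_
    split_ifs
    · exact (IwaB_lev hΛ g l).2
    · linarith

/-- the elementary relation at level `α` with constant `M` -/
def Stp (Λ M : ℝ) (α : Fin d → ℤ) (g h : Gm (d + 1)) : Prop :=
  ∀ i j, i < j → iw g h i j ^ 2 ≤ M * Real.exp (Λ * (ht α j - ht α i : ℤ)) ∧
    iw h g i j ^ 2 ≤ M * Real.exp (Λ * (ht α j - ht α i : ℤ))

lemma Stp.symm {Λ M : ℝ} {α : Fin d → ℤ} {g h : Gm (d + 1)} (hs : Stp Λ M α g h) :
    Stp Λ M α h g := fun i j hij => ⟨(hs i j hij).2, (hs i j hij).1⟩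

lemma Stp.mono {Λ M : ℝ} (hΛ : 0 ≤ Λ) (hM : 0 ≤ M) {α β : Fin d → ℤ} (h : α ≤ β)
    {g k : Gm (d + 1)} (hs : Stp Λ M α g k) : Stp Λ M β g k := by
  intro i j hij
  have h1 : ((ht α j - ht α i : ℤ) : ℝ) ≤ ((ht β j - ht β i : ℤ) : ℝ) := by
    exact_mod_cast ht_mono h hij.le
  have h2 : M * Real.exp (Λ * (ht α j - ht α i : ℤ)) ≤ M * Real.exp (Λ * (ht β j - ht β i : ℤ)) :=
    mul_le_mul_of_nonneg_left (Real.exp_le_exp.2 (mul_le_mul_of_nonneg_left h1 hΛ)) hM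
  exact ⟨(hs i j hij).1.trans h2, (hs i j hij).2.trans h2⟩

/-- bounds between two near elements -/
lemma IwaB_near {R : ℕ} {ρ : ℝ} (hρ : ((d + 1 : ℕ) * R : ℝ) ^ 2 ≤ ρ) {g h : Gm (d + 1)}
    (hR : El (g⁻¹ * h) ≤ R) :
    (∀ i, ia g i ≤ ρ * ia h i) ∧ ∀ i j, ia g i * iw g h i j ^ 2 ≤ ρ * ia h j := by
  obtain ⟨h1, h2⟩ := iwa_near hR
  exact ⟨fun i => (h1 i).trans (mul_le_mul_of_nonneg_right hρ (ia_pos h i).le),
    fun i j => (h2 i j).trans (mul_le_mul_of_nonneg_right hρ (ia_pos h j).le)⟩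

lemma IwaB_ratio {ρ : ℝ} (hρ : 0 ≤ ρ) {g h : Gm (d + 1)} (h1 : ∀ i, ia g i ≤ ρ * ia h i)
    (h2 : ∀ i, ia h i ≤ ρ * ia g i) (i j : Fin (d + 1)) :
    ia g j / ia g i ≤ ρ ^ 2 * (ia h j / ia h i) := by
  have hg := ia_pos g i
  have hh := ia_pos h i
  have hgj := ia_pos g j
  have hhj := ia_pos h j
  rw [mul_div_assoc', div_le_div_iff₀ hg hh]
  calc ia g j * ia h i ≤ (ρ * ia h j) * (ρ * ia g i) :=
        mul_le_mul (h1 j) (h2 i) hh.le (by positivity)
    _ = ρ ^ 2 * ia h j * ia g i := by ring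

/-- Near elements have levels differing by at most one and are related at all levels within one
of theirs. -/
theorem near_lev (d R : ℕ) : ∃ Λ M : ℝ, 1 ≤ Λ ∧ 1 ≤ M ∧ ∀ g h : Gm (d + 1),
    El (g⁻¹ * h) ≤ R → (∀ i, lev Λ g i ≤ lev Λ h i + 1) ∧
    ∀ α : Fin d → ℤ, (∀ i, lev Λ g i ≤ α i + 1) → Stp Λ M α g h := by
  obtain ⟨ρ, hρ1, hρ⟩ : ∃ ρ : ℝ, 1 ≤ ρ ∧ ((d + 1 : ℕ) * R : ℝ) ^ 2 ≤ ρ :=
    ⟨max 1 (((d + 1 : ℕ) * R : ℝ) ^ 2), le_max_left _ _, le_max_right _ _⟩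
  have hρ0 : 0 ≤ ρ := zero_le_one.trans hρ1
  have hρ2 : 1 ≤ ρ ^ 2 := one_le_pow₀ hρ1
  obtain ⟨Λ, hΛ1, hΛ⟩ : ∃ Λ : ℝ, 1 ≤ Λ ∧ Real.log (ρ ^ 2) ≤ Λ :=
    ⟨max 1 (Real.log (ρ ^ 2)), le_max_left _ _, le_max_right _ _⟩
  have hΛ0 : 0 < Λ := zero_lt_one.trans_le hΛ1
  refine ⟨Λ, ρ ^ 2 * Real.exp (2 * (Λ * d)), hΛ1, ?_, ?_⟩
  · have h1 : (1 : ℝ) ≤ Real.exp (2 * (Λ * d)) := Real.one_le_exp (by positivity)
    calc (1 : ℝ) = 1 * 1 := (one_mul 1).symm
      _ ≤ ρ ^ 2 * Real.exp (2 * (Λ * d)) := mul_le_mul hρ2 h1 zero_le_one (by positivity)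
  intro g h hgh
  have hhg : El (h⁻¹ * g) ≤ R := by
    have h1 : h⁻¹ * g = (g⁻¹ * h)⁻¹ := by group
    rw [h1, El_szf.inv]
    exact hgh
  obtain ⟨a1, a2⟩ := IwaB_near hρ hgh
  obtain ⟨b1, b2⟩ := IwaB_near hρ hhg
  refine ⟨fun l => ?_, fun α hα i j hij => ?_⟩
  · -- levels
    have h1 := IwaB_ratio hρ0 a1 b1 l.castSucc l.succ
    have hp1 : 0 < ia g l.succ / ia g l.castSucc := div_pos (ia_pos g _) (ia_pos g _)
    have hp2 : 0 < ia h l.succ / ia h l.castSucc := div_pos (ia_pos h _) (ia_pos h _)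
    have h2 := Real.log_le_log hp1 h1
    rw [Real.log_mul (by positivity) hp2.ne'] at h2
    have h3 : Real.log (ia g l.succ / ia g l.castSucc) / Λ ≤
        Real.log (ia h l.succ / ia h l.castSucc) / Λ + 1 := by
      rw [div_add_one hΛ0.ne', div_le_div_iff_of_pos_right hΛ0]
      linarith
    have h4 := Int.floor_mono h3
    rw [Int.floor_add_one] at h4
    exact h4
  · -- the relation
    have hgi := ia_pos g i
    have hgj := ia_pos g j
    have hhi := ia_pos h i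
    have hhj := ia_pos h j
    have hα' : lev Λ g ≤ fun l => α l + 1 := hα
    have c1 : ht (lev Λ g) j - ht (lev Λ g) i ≤ ht α j - ht α i + d :=
      (ht_mono hα' hij.le).trans (IwaB_ht_add_one α hij.le)
    have c2 : ((ht (lev Λ g) j - ht (lev Λ g) i : ℤ) : ℝ) ≤ ((ht α j - ht α i : ℤ) : ℝ) + d := by
      exact_mod_cast c1
    have c3 : ia g j / ia g i ≤
        Real.exp (2 * (Λ * d)) * Real.exp (Λ * (ht α j - ht α i : ℤ)) := by
      refine (ratio_lev hΛ0 g hij.le).2.trans ?_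
      rw [← Real.exp_add, Real.exp_le_exp]
      have c4 := mul_le_mul_of_nonneg_left c2 hΛ0.le
      rw [mul_add] at c4
      linarith
    have c5 : ρ ^ 2 * (ia g j / ia g i) ≤
        ρ ^ 2 * Real.exp (2 * (Λ * d)) * Real.exp (Λ * (ht α j - ht α i : ℤ)) := by
      rw [mul_assoc]
      exact mul_le_mul_of_nonneg_left c3 (by positivity)
    constructor
    · refine le_trans ?_ c5
      rw [mul_div_assoc', le_div_iff₀ hgi]
      calc iw g h i j ^ 2 * ia g i = ia g i * iw g h i j ^ 2 := mul_comm _ _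
        _ ≤ ρ * ia h j := a2 i j
        _ ≤ ρ * (ρ * ia g j) := mul_le_mul_of_nonneg_left (b1 j) hρ0
        _ = ρ ^ 2 * ia g j := by ring
    · refine le_trans ?_ c5
      rw [mul_div_assoc', le_div_iff₀ hgi]
      calc iw h g i j ^ 2 * ia g i ≤ iw h g i j ^ 2 * (ρ * ia h i) :=
            mul_le_mul_of_nonneg_left (a1 i) (sq_nonneg _)
        _ = ρ * (ia h i * iw h g i j ^ 2) := by ring
        _ ≤ ρ * (ρ * ia g j) := mul_le_mul_of_nonneg_left (b2 i j) hρ0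
        _ = ρ ^ 2 * ia g j := by ring

end Pool.Agent.H.MP_e5d137_al.GLn
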