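import Pool.Agent.H.MP_e5d137_al.GLn.Def

/-!
# Lagrange decomposition of positive definite forms, comparison of two decompositions
-/

namespace Pool.Agent.H.MP_e5d137_al.GLn

open Finset Matrix

variable {n : ℕ}

lemma UT.one : UT (1 : Matrix (Fin n) (Fin n) ℝ) :=
  ⟨fun i => Matrix.one_apply_eq i, fun _ _ h => Matrix.one_apply_ne (ne_of_gt h)⟩

lemma Lag_diag {u v : Matrix (Fin n) (Fin n) ℝ} (hu : ∀ i j, j < i → u i j = 0)
    (hv : ∀ i j, j < i → v i j = 0) (i : Fin n) : (u * v) i i = u i i * v i i := by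
  rw [Matrix.mul_apply]
  refine Finset.sum_eq_single i (fun k _ hk => ?_) (fun h => absurd (Finset.mem_univ i) h)
  rcases lt_or_gt_of_ne hk with h | h
  · rw [hu i k h, zero_mul]
  · rw [hv k i h, mul_zero]

lemma UT.mul {u v : Matrix (Fin n) (Fin n) ℝ} (hu : UT u) (hv : UT v) : UT (u * v) := by
  refine ⟨fun i => ?_, fun i j hij => ?_⟩
  · rw [Lag_diag hu.2 hv.2, hu.1, hv.1, one_mul]
  · rw [Matrix.mul_apply]
    refine Finset.sum_eq_zero fun k _ => ?_
    rcases lt_or_ge k i with h | h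
    · rw [hu.2 i k h, zero_mul]
    · rw [hv.2 k j (lt_of_lt_of_le hij h), mul_zero]

/-- a unitriangular matrix has a unitriangular inverse -/
lemma UT.exists_inv {u : Matrix (Fin n) (Fin n) ℝ} (hu : UT u) :
    ∃ v, UT v ∧ u * v = 1 ∧ v * u = 1 := by
  have hb : u.BlockTriangular id := fun i j h => hu.2 i j h
  have hdet : u.det = 1 := by
    rw [Matrix.det_of_isUpperTriangular hb]
    exact Finset.prod_eq_one fun i _ => hu.1 i
  have hU : IsUnit u.det := by
    rw [hdet]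
    exact isUnit_one
  have : Invertible u := Matrix.invertibleOfIsUnitDet u hU
  have hb' := Matrix.blockTriangular_inv_of_blockTriangular hb
  have h1 : u * u⁻¹ = 1 := Matrix.mul_nonsing_inv u hU
  have h2 : u⁻¹ * u = 1 := Matrix.nonsing_inv_mul u hU
  have hz : ∀ i j, j < i → u⁻¹ i j = 0 := fun i j h => hb' h
  refine ⟨u⁻¹, ⟨fun i => ?_, hz⟩, h1, h2⟩
  have h3 := Lag_diag hu.2 hz i
  rw [h1, Matrix.one_apply_eq, hu.1, one_mul] at h3
  exact h3.symm

/-- Lagrange decomposition.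

Proof.  Induction on `n`.  For `n + 1` write (with `Fin.cons`) `P x = a₀ (x₀ + ℓ · x')² + P' x'`,
`a₀ = P 0 0 > 0`, `ℓ j = P 0 (j+1) / P 0 0`, `P' i j = P (i+1) (j+1) - P (i+1) 0 * P 0 (j+1) / P 0 0`,
which is symmetric and positive definite: `P' x' = P (-ℓ x', x') > 0`. -/
theorem exists_lagrange (P : Matrix (Fin n) (Fin n) ℝ) (hP : P.PosDef) :
    ∃ a u, (∀ i, 0 < a i) ∧ UT u ∧ ∀ x, ev P x = qf a u x := by
  induction n with
  | zero => exact ⟨fun _ => 1, 1, fun _ => one_pos, UT.one, fun x => by simp [ev, qf, dotProduct]⟩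
  | succ n ih =>
    have ha : 0 < P 0 0 := hP.diag_pos
    have hsym : ∀ i j, P i j = P j i := fun i j => by
      have h := hP.isHermitian.apply j i
      simpa using h
    obtain ⟨P', hP'⟩ : ∃ P' : Matrix (Fin n) (Fin n) ℝ, P' = Matrix.of fun i j =>
      P i.succ j.succ - P i.succ 0 * P 0 j.succ / P 0 0 := ⟨_, rfl⟩
    have key : ∀ (x₀ : ℝ) (x : Fin n → ℝ), ev P (Fin.cons x₀ x) =
        P 0 0 * (x₀ + ∑ j, P 0 j.succ / P 0 0 * x j) ^ 2 + ev P' x := by
      intro x₀ x
      have e1 : ∑ j, P 0 j.succ / P 0 0 * x j = (∑ j, P 0 j.succ * x j) / P 0 0 := by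
        rw [Finset.sum_div]
        exact Finset.sum_congr rfl fun j _ => by ring
      have e2 : ev P (Fin.cons x₀ x) = x₀ * (P 0 0 * x₀ + ∑ j, P 0 j.succ * x j) +
          ∑ i, x i * (P i.succ 0 * x₀ + ∑ j, P i.succ j.succ * x j) := by
        simp only [ev, dotProduct, Matrix.mulVec, Fin.sum_univ_succ, Fin.cons_zero, Fin.cons_succ]
      have e3 : ev P' x = ∑ i, x i * ∑ j, P i.succ j.succ * x j -
          (∑ j, P 0 j.succ * x j) ^ 2 / P 0 0 := by
        have h1 : ∀ i, (P' *ᵥ x) i = ∑ j, P i.succ j.succ * x j -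
            P i.succ 0 * (∑ j, P 0 j.succ * x j) / P 0 0 := by
          intro i
          rw [Matrix.mulVec, dotProduct, Finset.mul_sum, Finset.sum_div,
            ← Finset.sum_sub_distrib]
          refine Finset.sum_congr rfl fun j _ => ?_
          rw [hP', Matrix.of_apply]
          ring
        rw [ev, dotProduct]
        have h2 : ∑ i, x i * (P' *ᵥ x) i = ∑ i, x i * ∑ j, P i.succ j.succ * x j -
            ∑ i, (P 0 i.succ * x i) * ((∑ j, P 0 j.succ * x j) / P 0 0) := by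
          rw [← Finset.sum_sub_distrib]
          refine Finset.sum_congr rfl fun i _ => ?_
          rw [h1 i, hsym i.succ 0]
          ring
        rw [h2, ← Finset.sum_mul]
        ring
      have e4 : ∑ i, x i * (P i.succ 0 * x₀ + ∑ j, P i.succ j.succ * x j) =
          x₀ * (∑ j, P 0 j.succ * x j) + ∑ i, x i * ∑ j, P i.succ j.succ * x j := by
        rw [Finset.mul_sum, ← Finset.sum_add_distrib]
        refine Finset.sum_congr rfl fun i _ => ?_
        rw [hsym i.succ 0]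
        ring
      rw [e2, e4, e1, e3]
      field_simp
      ring
    have hPd : P'.PosDef := by
      refine Matrix.PosDef.of_dotProduct_mulVec_pos ?_ fun x hx => ?_
      · refine Matrix.IsHermitian.ext fun i j => ?_
        rw [hP']
        simp only [Matrix.of_apply, star_trivial]
        rw [hsym i.succ j.succ, hsym i.succ 0, hsym 0 j.succ]
        ring
      · have hx' : (Fin.cons (-∑ j, P 0 j.succ / P 0 0 * x j) x : Fin (n + 1) → ℝ) ≠ 0 := by
          intro h
          apply hx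
          funext i
          have := congrFun h i.succ
          simpa using this
        have h1 := hP.dotProduct_mulVec_pos hx'
        have h2 := key (-∑ j, P 0 j.succ / P 0 0 * x j) x
        rw [neg_add_cancel, zero_pow two_ne_zero, mul_zero, zero_add, ev, ev] at h2
        simp only [star_trivial] at h1 ⊢
        rw [← h2]
        exact h1
    obtain ⟨a', u', ha', hu', h'⟩ := ih P' hPd
    refine ⟨Fin.cons (P 0 0) a', Matrix.of (Fin.cons (Fin.cons 1 fun j => P 0 j.succ / P 0 0)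
      fun i => Fin.cons 0 (u' i)), ?_, ⟨?_, ?_⟩, ?_⟩
    · intro i
      refine Fin.cases ?_ (fun i => ?_) i
      · simpa using ha
      · simpa using ha' i
    · intro i
      refine Fin.cases ?_ (fun i => ?_) i
      · simp
      · simpa using hu'.1 i
    · intro i j
      refine Fin.cases (fun h => absurd h (Fin.not_lt_zero _)) (fun i => ?_) i
      refine Fin.cases (fun _ => ?_) (fun j h => ?_) j
      · simp
      · simpa using hu'.2 i j (Fin.succ_lt_succ_iff.1 h)
    · intro x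
      have hx : x = Fin.cons (x 0) (fun i => x i.succ) := (Fin.cons_self_tail x).symm
      rw [hx, key, h']
      simp [qf, Fin.sum_univ_succ, Matrix.mulVec, dotProduct]

/-- a positive definite form is bounded below on nonzero integral vectors -/
lemma exists_lower {a : Fin n → ℝ} {u : Matrix (Fin n) (Fin n) ℝ} (ha : ∀ i, 0 < a i)
    (hu : UT u) : ∃ δ > 0, ∀ x : Fin n → ℤ, x ≠ 0 → δ ≤ qf a u (fun i => (x i : ℝ)) := by
  have hS : 0 ≤ ∑ i, (a i)⁻¹ := Finset.sum_nonneg fun i _ => (inv_pos.2 (ha i)).le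
  refine ⟨(1 + ∑ i, (a i)⁻¹)⁻¹, by positivity, fun x hx => ?_⟩
  obtain ⟨k, hk⟩ := Function.ne_iff.1 hx
  have hne : (Finset.univ.filter fun i => x i ≠ 0).Nonempty := ⟨k, by simpa using hk⟩
  obtain ⟨i, hi⟩ : ∃ i, i = (Finset.univ.filter fun i => x i ≠ 0).max' hne := ⟨_, rfl⟩
  have hi0 : x i ≠ 0 := by
    have h := Finset.max'_mem _ hne
    rw [← hi] at h
    exact (Finset.mem_filter.1 h).2
  have hij : ∀ j, i < j → x j = 0 := by
    intro j hj
    by_contra h
    have h1 := Finset.le_max' (Finset.univ.filter fun i => x i ≠ 0) j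
      (Finset.mem_filter.2 ⟨Finset.mem_univ j, h⟩)
    rw [← hi] at h1
    exact absurd hj (not_lt.2 h1)
  have h1 : (u *ᵥ fun i => (x i : ℝ)) i = x i := by
    rw [Matrix.mulVec, dotProduct, Finset.sum_eq_single i]
    · rw [hu.1, one_mul]
    · intro j _ hj
      rcases lt_or_gt_of_ne hj with h | h
      · rw [hu.2 i j h, zero_mul]
      · rw [hij j h, Int.cast_zero, mul_zero]
    · exact fun h => absurd (Finset.mem_univ i) h
  have h2 : a i * (x i : ℝ) ^ 2 ≤ qf a u (fun i => (x i : ℝ)) := by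
    have h3 := Finset.single_le_sum (f := fun i => a i * ((u *ᵥ fun i => (x i : ℝ)) i) ^ 2)
      (fun j _ => mul_nonneg (ha j).le (sq_nonneg _)) (Finset.mem_univ i)
    simp only [h1] at h3
    exact h3
  have h4 : (1 : ℝ) ≤ (x i : ℝ) ^ 2 := by
    have h5 : 0 < x i ^ 2 := by positivity
    have h6 : 1 ≤ x i ^ 2 := h5
    exact_mod_cast h6
  have h7 : (1 + ∑ i, (a i)⁻¹)⁻¹ ≤ a i := by
    have h8 : (a i)⁻¹ ≤ 1 + ∑ i, (a i)⁻¹ := by
      have h9 := Finset.single_le_sum (f := fun i => (a i)⁻¹)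
        (fun j _ => (inv_pos.2 (ha j)).le) (Finset.mem_univ i)
      linarith
    exact inv_le_of_inv_le₀ (ha i) h8
  calc (1 + ∑ i, (a i)⁻¹)⁻¹ ≤ a i * 1 := by rw [mul_one]; exact h7
    _ ≤ a i * (x i : ℝ) ^ 2 := mul_le_mul_of_nonneg_left h4 (ha i).le
    _ ≤ _ := h2

/-- change of variables -/
lemma qf_mulVec (a : Fin n → ℝ) (u v : Matrix (Fin n) (Fin n) ℝ) (x : Fin n → ℝ) :
    qf a u (v *ᵥ x) = qf a (u * v) x := by
  simp [qf, Matrix.mulVec_mulVec]

lemma qf_nonneg {a : Fin n → ℝ} (ha : ∀ i, 0 < a i) (u : Matrix (Fin n) (Fin n) ℝ)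
    (x : Fin n → ℝ) : 0 ≤ qf a u x :=
  Finset.sum_nonneg fun i _ => mul_nonneg (ha i).le (sq_nonneg _)

/-- the value at a basis vector -/
lemma qf_single (a : Fin n → ℝ) (u : Matrix (Fin n) (Fin n) ℝ) (j : Fin n) :
    qf a u (Pi.single j 1) = ∑ i, a i * u i j ^ 2 := by
  simp [qf]

/-- Comparison of two decompositions: if `qf a u ≤ ρ qf b u'` then for `w = u u'⁻¹` (so
`u = w u'`) all `a_i w_ij² ≤ ρ b_j`; in particular `a_i ≤ ρ b_i`.

Proof.  Evaluate at `u'⁻¹ e_j`: `∑_i a_i w_ij² ≤ ρ b_j`. -/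
lemma compare {a b : Fin n → ℝ} {u u' w : Matrix (Fin n) (Fin n) ℝ} {ρ : ℝ}
    (ha : ∀ i, 0 < a i) (hu' : UT u') (hw : u = w * u')
    (h : ∀ x, qf a u x ≤ ρ * qf b u' x) (j : Fin n) :
    ∑ i, a i * w i j ^ 2 ≤ ρ * b j ∧ ∀ i, a i * w i j ^ 2 ≤ ρ * b j := by
  obtain ⟨v, -, hv, -⟩ := hu'.exists_inv
  have h1 := h (v *ᵥ Pi.single j 1)
  rw [qf_mulVec, qf_mulVec, hw, Matrix.mul_assoc, hv, Matrix.mul_one, qf_single, qf_single] at h1
  have h2 : ∑ i, b i * (1 : Matrix (Fin n) (Fin n) ℝ) i j ^ 2 = b j := by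
    rw [Finset.sum_eq_single j]
    · simp
    · intro i _ hi
      rw [Matrix.one_apply_ne hi]
      simp
    · exact fun h => absurd (Finset.mem_univ j) h
  rw [h2] at h1
  refine ⟨h1, fun i => le_trans ?_ h1⟩
  exact Finset.single_le_sum (f := fun i => a i * w i j ^ 2)
    (fun k _ => mul_nonneg (ha k).le (sq_nonneg _)) (Finset.mem_univ i)

lemma Lag_tri {t B : ℝ} (ht : 0 ≤ t) (hB : 0 ≤ B) : ∀ (n : ℕ) (u : Matrix (Fin n) (Fin n) ℝ),
    UT u → (∀ i j, |u i j| ≤ t) → ∀ x : Fin n → ℝ, (∀ i, |(u *ᵥ x) i| ≤ B) →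
      B + t * ∑ i, |x i| ≤ B * (1 + t) ^ n ∧ ∀ i, |x i| ≤ B * (1 + t) ^ n := by
  intro n
  induction n with
  | zero =>
    intro u _ _ x _
    refine ⟨by simp, fun i => i.elim0⟩
  | succ n ih =>
    intro u hu h x hx
    obtain ⟨h1, h2⟩ := ih (Matrix.of fun i j => u i.succ j.succ)
      ⟨fun i => hu.1 i.succ, fun i j hij => hu.2 i.succ j.succ (Fin.succ_lt_succ_iff.2 hij)⟩
      (fun i j => h i.succ j.succ) (fun i => x i.succ) (fun i => by
        have h3 := hx i.succ
        rw [Matrix.mulVec, dotProduct, Fin.sum_univ_succ, hu.2 i.succ 0 (Fin.succ_pos i),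
          zero_mul, zero_add] at h3
        exact h3)
    have h4 : |x 0| ≤ B * (1 + t) ^ n := by
      have h5 := hx 0
      rw [Matrix.mulVec, dotProduct, Fin.sum_univ_succ, hu.1 0, one_mul] at h5
      have h6 : |∑ i : Fin n, u 0 i.succ * x i.succ| ≤ t * ∑ i : Fin n, |x i.succ| := by
        rw [Finset.mul_sum]
        refine (Finset.abs_sum_le_sum_abs _ _).trans (Finset.sum_le_sum fun i _ => ?_)
        rw [abs_mul]
        exact mul_le_mul_of_nonneg_right (h 0 i.succ) (abs_nonneg _)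
      have h7 : |x 0| ≤ |x 0 + ∑ i : Fin n, u 0 i.succ * x i.succ| +
          |∑ i : Fin n, u 0 i.succ * x i.succ| := by
        have h8 := abs_sub (x 0 + ∑ i : Fin n, u 0 i.succ * x i.succ)
          (∑ i : Fin n, u 0 i.succ * x i.succ)
        rwa [add_sub_cancel_right] at h8
      linarith
    have h9 : B * (1 + t) ^ n ≤ B * (1 + t) ^ (n + 1) :=
      mul_le_mul_of_nonneg_left (pow_le_pow_right₀ (by linarith) (Nat.le_succ n)) hB
    refine ⟨?_, fun i => ?_⟩
    · rw [Fin.sum_univ_succ, mul_add, pow_succ]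
      have h10 : t * |x 0| ≤ t * (B * (1 + t) ^ n) := mul_le_mul_of_nonneg_left h4 ht
      nlinarith
    · refine Fin.cases (h4.trans h9) (fun i => (h2 i).trans h9) i

/-- triangular systems: if `u` is unitriangular with entries `≤ t` and all entries of `u x` are
bounded by `B` then all entries of `x` are bounded by `B (1 + t)^n`.

Proof.  `x_i = (u x)_i - ∑_{j > i} u_ij x_j`, downward induction:
`|x_i| ≤ B (1 + t) ^ (n - 1 - i)`. -/
lemma tri_bound {u : Matrix (Fin n) (Fin n) ℝ} (hu : UT u) {t B : ℝ} (ht : 0 ≤ t) (hB : 0 ≤ B)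
    (h : ∀ i j, |u i j| ≤ t) (x : Fin n → ℝ) (hx : ∀ i, |(u *ᵥ x) i| ≤ B) (i : Fin n) :
    |x i| ≤ B * (1 + t) ^ n :=
  (Lag_tri ht hB n u hu h x hx).2 i

end Pool.Agent.H.MP_e5d137_al.GLn
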