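import Pool.Agent.H.MP_e5d137_al.GLn.Lag

/-!
# Block triangular matrices preserving diagonal forms
-/

namespace Pool.Agent.H.MP_e5d137_al.GLn

open Finset Matrix

variable {n : ℕ}

lemma SiegB_col {a b : Fin n → ℝ} {w : Matrix (Fin n) (Fin n) ℝ}
    (hb : ∀ i, 0 < b i) (h : wᵀ * diagonal a * w = diagonal b) (l : Fin n) :
    ∑ i, w i l ^ 2 * a i / b l = 1 := by
  have h1 := congrFun (congrFun h l) l
  rw [Matrix.mul_apply, diagonal_apply_eq] at h1
  rw [← Finset.sum_div, div_eq_one_iff_eq (hb l).ne', ← h1]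
  refine Finset.sum_congr rfl fun i _ => ?_
  rw [mul_diagonal, transpose_apply]
  ring

lemma SiegB_row {a b : Fin n → ℝ} {w : Matrix (Fin n) (Fin n) ℝ}
    (hb : ∀ i, 0 < b i) (h : wᵀ * diagonal a * w = diagonal b) (i : Fin n) :
    ∑ l, w i l ^ 2 * a i / b l = 1 := by
  have h1 : (wᵀ * diagonal a) * (w * diagonal fun l => (b l)⁻¹) = 1 := by
    rw [← Matrix.mul_assoc, h, diagonal_mul_diagonal, ← diagonal_one]
    congr 1
    funext l
    exact mul_inv_cancel₀ (hb l).ne'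
  have h2 : (w * diagonal fun l => (b l)⁻¹) * (wᵀ * diagonal a) = 1 := mul_eq_one_comm.1 h1
  have h3 := congrFun (congrFun h2 i) i
  rw [Matrix.mul_apply, one_apply_eq] at h3
  rw [← h3]
  refine Finset.sum_congr rfl fun l _ => ?_
  rw [mul_diagonal, mul_diagonal, transpose_apply]
  ring

/-- Block triangular `D`-orthogonal matrices are block diagonal: if `wᵀ D w = D'`
(`D = diag a`, `D' = diag b`, `a, b > 0`) and `w_il = 0` for `i > r`, `l ≤ r`, then `w_il = 0` for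
`i ≤ r < l`.

Proof.  `wᵀ D w = D'` gives `w D'⁻¹ wᵀ = D⁻¹`.  So `∑_l w_il² a_i / b_l = 1` for all `i` and
`∑_i w_il² a_i / b_l = 1` for all `l`.  Sum the first over `i ≤ r` and the second over `l ≤ r`
(where only `i ≤ r` contribute): both are `r + 1`; so `∑_{i ≤ r, l > r} w_il² a_i / b_l = 0`. -/
lemma block_diag {a b : Fin n → ℝ} {w : Matrix (Fin n) (Fin n) ℝ} (ha : ∀ i, 0 < a i)
    (hb : ∀ i, 0 < b i) (h : wᵀ * diagonal a * w = diagonal b) (r : Fin n)
    (h0 : ∀ i l, r < i → l ≤ r → w i l = 0) : ∀ i l, i ≤ r → r < l → w i l = 0 := by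
  classical
  have hnn : ∀ i l, 0 ≤ w i l ^ 2 * a i / b l := fun i l =>
    div_nonneg (mul_nonneg (sq_nonneg _) (ha i).le) (hb l).le
  have h1 : ∑ i ∈ univ.filter (· ≤ r), ∑ l, w i l ^ 2 * a i / b l =
      ((univ.filter (· ≤ r) : Finset (Fin n)).card : ℝ) := by
    rw [Finset.sum_congr rfl fun i _ => SiegB_row hb h i]
    simp
  have h2 : ∑ i ∈ univ.filter (· ≤ r), ∑ l ∈ univ.filter (· ≤ r), w i l ^ 2 * a i / b l =
      ((univ.filter (· ≤ r) : Finset (Fin n)).card : ℝ) := by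
    rw [Finset.sum_comm]
    have h3 : ∀ l ∈ (univ.filter (· ≤ r) : Finset (Fin n)),
        ∑ i ∈ univ.filter (· ≤ r), w i l ^ 2 * a i / b l = 1 := by
      intro l hl
      rw [← SiegB_col hb h l]
      refine Finset.sum_subset (Finset.filter_subset _ _) fun i _ hi => ?_
      have hi' : r < i := not_le.1 fun hle => hi (Finset.mem_filter.2 ⟨Finset.mem_univ _, hle⟩)
      rw [h0 i l hi' (Finset.mem_filter.1 hl).2]
      simp
    rw [Finset.sum_congr rfl h3]
    simp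
  have h4 : ∑ i ∈ univ.filter (· ≤ r), ∑ l ∈ univ.filter (fun l => ¬ l ≤ r),
      w i l ^ 2 * a i / b l = 0 := by
    have h5 : ∑ i ∈ univ.filter (· ≤ r), ∑ l, w i l ^ 2 * a i / b l =
        ∑ i ∈ univ.filter (· ≤ r), ∑ l ∈ univ.filter (· ≤ r), w i l ^ 2 * a i / b l +
        ∑ i ∈ univ.filter (· ≤ r), ∑ l ∈ univ.filter (fun l => ¬ l ≤ r),
          w i l ^ 2 * a i / b l := by
      rw [← Finset.sum_add_distrib]
      exact Finset.sum_congr rfl fun i _ =>
        (Finset.sum_filter_add_sum_filter_not univ (· ≤ r) _).symm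
    rw [h1, h2] at h5
    linarith
  intro i l hi hl
  have h6 := (Finset.sum_eq_zero_iff_of_nonneg fun i _ =>
    Finset.sum_nonneg fun l _ => hnn i l).1 h4 i (Finset.mem_filter.2 ⟨Finset.mem_univ _, hi⟩)
  have h7 := (Finset.sum_eq_zero_iff_of_nonneg fun l _ => hnn i l).1 h6 l
    (Finset.mem_filter.2 ⟨Finset.mem_univ _, not_le.2 hl⟩)
  have h8 : w i l ^ 2 * a i = 0 := by
    rcases div_eq_zero_iff.1 h7 with h9 | h9
    · exact h9
    · exact absurd h9 (hb l).ne'
  rcases mul_eq_zero.1 h8 with h9 | h9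
  · exact pow_eq_zero_iff two_ne_zero |>.1 h9
  · exact absurd h9 (ha i).ne'

end Pool.Agent.H.MP_e5d137_al.GLn
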