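import Pool.Agent.H.MP_e5d137_al.GLn.SiegA
import Pool.Agent.H.MP_e5d137_al.GLn.SiegB

/-!
# Finiteness property of Siegel sets
-/

namespace Pool.Agent.H.MP_e5d137_al.GLn

open Finset Matrix

variable {n : ℕ}

/-- Two forms `qf a w` and `qf b 1` which agree: `wᵀ D w = D'`. -/
lemma Sieg_diag {a b : Fin n → ℝ} {w : Matrix (Fin n) (Fin n) ℝ}
    (h : ∀ x, qf a w x = qf b 1 x) : wᵀ * diagonal a * w = diagonal b := by
  ext i j
  have h1 := h (Pi.single i 1 + Pi.single j 1)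
  have h2 := h (Pi.single i 1)
  have h3 := h (Pi.single j 1)
  have e1 : ∀ (c : Fin n → ℝ) (v : Matrix (Fin n) (Fin n) ℝ),
      qf c v (Pi.single i 1 + Pi.single j 1) - qf c v (Pi.single i 1) - qf c v (Pi.single j 1) =
        2 * ∑ k, c k * (v k i * v k j) := by
    intro c v
    rw [qf_single, qf_single, qf, Finset.mul_sum, ← Finset.sum_sub_distrib,
      ← Finset.sum_sub_distrib]
    refine Finset.sum_congr rfl fun k _ => ?_
    have e2 : (v *ᵥ (Pi.single i 1 + Pi.single j 1)) k = v k i + v k j := by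
      simp [Matrix.mulVec_add]
    rw [e2]
    ring
  have e3 : ∑ k, a k * (w k i * w k j) =
      ∑ k, b k * ((1 : Matrix (Fin n) (Fin n) ℝ) k i * (1 : Matrix (Fin n) (Fin n) ℝ) k j) := by
    have h4 := e1 a w
    have h5 := e1 b 1
    rw [h1, h2, h3, h5] at h4
    linarith
  have e4 : (wᵀ * diagonal a * w) i j = ∑ k, a k * (w k i * w k j) := by
    rw [Matrix.mul_apply]
    refine Finset.sum_congr rfl fun k _ => ?_
    rw [Matrix.mul_diagonal, Matrix.transpose_apply]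
    ring
  rw [e4, e3]
  by_cases hij : i = j
  · subst hij
    rw [Matrix.diagonal_apply_eq, Finset.sum_eq_single i]
    · simp
    · intro k _ hk
      rw [Matrix.one_apply_ne hk]
      ring
    · intro h
      exact absurd (Finset.mem_univ _) h
  · rw [Matrix.diagonal_apply_ne _ hij]
    refine Finset.sum_eq_zero fun k _ => ?_
    by_cases hk : k = i
    · subst hk
      rw [Matrix.one_apply_ne hij]
      ring
    · rw [Matrix.one_apply_ne hk]
      ring

/-- Chains: if `a (r+1) ≤ M a r` for all `i ≤ r < l` then `a l ≤ M ^ n a i`. -/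
lemma Sieg_chain {a : Fin n → ℝ} (ha : ∀ i, 0 < a i) {M : ℝ} (hM : 1 ≤ M) (i l : Fin n)
    (hil : i ≤ l)
    (h : ∀ r : Fin n, ∀ hr : (r : ℕ) + 1 < n, i ≤ r → r < l → a ⟨r + 1, hr⟩ ≤ M * a r) :
    a l ≤ M ^ n * a i := by
  have key : ∀ k : ℕ, ∀ hk : (i : ℕ) + k < n, (i : ℕ) + k ≤ l → a ⟨i + k, hk⟩ ≤ M ^ k * a i := by
    intro k
    induction k with
    | zero =>
      intro hk _
      simp
    | succ k ih =>
      intro hk hl
      have hk' : (i : ℕ) + k < n := by omega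
      have h1 := ih hk' (by omega)
      have h2 := h ⟨i + k, hk'⟩ (by simpa [add_assoc] using hk) (by
        rw [Fin.le_def]
        simp) (by
        rw [Fin.lt_def]
        simp only
        omega)
      have h3 : a ⟨i + (k + 1), hk⟩ ≤ M * a ⟨i + k, hk'⟩ := h2
      calc a ⟨i + (k + 1), hk⟩ ≤ M * a ⟨i + k, hk'⟩ := h3
        _ ≤ M * (M ^ k * a i) := mul_le_mul_of_nonneg_left h1 (by linarith)
        _ = M ^ (k + 1) * a i := by ring
  have hil' : (i : ℕ) ≤ l := hil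
  obtain ⟨k, hk⟩ := Nat.exists_eq_add_of_le hil'
  have h1 := key k (by rw [← hk]; exact l.2) hk.ge
  have h2 : (⟨(i : ℕ) + k, by rw [← hk]; exact l.2⟩ : Fin n) = l := Fin.ext hk.symm
  rw [h2] at h1
  refine h1.trans (mul_le_mul_of_nonneg_right (pow_le_pow_right₀ hM ?_) (ha i).le)
  have := l.2
  omega

/-- Siegel's finiteness property.

Proof.  Put `C₁ = n t^5`; `diag_le` for `γ` and for `γ⁻¹` gives `a_j ≤ C₁ a'_j`, `a'_j ≤ C₁ a_j`.
Let `w = u γ u'⁻¹`; then `qf a w = qf a' 1`, i.e. `wᵀ D w = D'` and `a_i w_ij² ≤ a'_j`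
(`compare`).  Put `M = n t^5 C₁ * 2` (large).  If `a_{r+1} > M a_r` then `γ_il = 0` for
`i > r`, `l ≤ r` (`lower_of_entry` for `x = γ e_l`: `a_{r+1} ≤ t qf a u (γ e_l) =
t qf a' u' e_l ≤ n t^4 a'_l ≤ n t^4 C₁ a_l ≤ n t^5 C₁ a_r`), hence also `w_il = 0`, and by
`block_diag` `w_il = 0` for `i ≤ r < l`.  So for `i < l` either `w_il = 0` or
`a_l ≤ M^n a_i` and `w_il² ≤ C₁ M^n`; for `i ≥ l` `w_il² ≤ a'_l / a_i ≤ C₁ t`.  So `w` is
bounded; `u γ = w u'` is bounded, and `γ` is bounded by `tri_bound`. -/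
theorem siegel_fin (n : ℕ) (t : ℝ) (ht : 1 ≤ t) : ∃ C : ℝ, 0 < C ∧ ∀ (a a' : Fin n → ℝ)
    (u u' : Matrix (Fin n) (Fin n) ℝ) (γ : Gm n), Sg t a u → Sg t a' u' →
    (∀ x, qf a u (rm γ *ᵥ x) = qf a' u' x) → ∀ i j, |rm γ i j| ≤ C := by
  rcases Nat.eq_zero_or_pos n with hn | hn
  · subst hn
    exact ⟨1, one_pos, fun _ _ _ _ _ _ _ _ i => i.elim0⟩
  have hn1 : (1 : ℝ) ≤ n := by exact_mod_cast hn
  have ht0 : 0 < t := by linarith
  set C₁ : ℝ := n * t ^ 5 with hC₁
  have ht5 : 1 ≤ t ^ 5 := one_le_pow₀ ht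
  have hC₁1 : 1 ≤ C₁ := by
    rw [hC₁]
    nlinarith
  have htC : t ≤ C₁ := by
    have h1 : t ≤ t ^ 5 := le_self_pow₀ ht (by norm_num)
    rw [hC₁]
    nlinarith
  set M : ℝ := C₁ ^ 2 with hM
  have hM1 : 1 ≤ M := one_le_pow₀ hC₁1
  set B : ℝ := C₁ * M ^ n with hB
  have hMn1 : 1 ≤ M ^ n := one_le_pow₀ hM1
  have hB1 : 1 ≤ B := by
    rw [hB]
    nlinarith
  have hMMn : M ≤ M ^ n := le_self_pow₀ hM1 hn.ne'
  have htMn : t ≤ M ^ n := by
    have h1 : C₁ ≤ M := by rw [hM, sq]; nlinarith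
    linarith
  refine ⟨n * (B * t) * (1 + t) ^ n + 1, by positivity, ?_⟩
  intro a a' u u' γ h h' hγ
  have hγ' : ∀ x, qf a' u' (rm γ⁻¹ *ᵥ x) = qf a u x := by
    intro x
    rw [← hγ, Matrix.mulVec_mulVec, rm_mul_inv, Matrix.one_mulVec]
  have hd1 : ∀ j, a j ≤ C₁ * a' j := fun j => diag_le h h' ht γ hγ j
  have hd2 : ∀ j, a' j ≤ C₁ * a j := fun j => diag_le h' h ht γ⁻¹ hγ' j
  obtain ⟨v', hv', huv, hvu⟩ := h'.ut.exists_inv
  set w : Matrix (Fin n) (Fin n) ℝ := u * rm γ * v' with hw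
  have hwu : u * rm γ = w * u' := by
    rw [hw, Matrix.mul_assoc, hvu, Matrix.mul_one]
  have hcmp : ∀ i j, a i * w i j ^ 2 ≤ a' j := by
    intro i j
    have h1 := (compare (ρ := 1) h.pos h'.ut hwu (fun x => by
      rw [one_mul, ← qf_mulVec, hγ]) j).2 i
    rwa [one_mul] at h1
  have hqw : ∀ x, qf a w x = qf a' 1 x := by
    intro x
    have h1 : qf a w x = qf a (u * rm γ) (v' *ᵥ x) := by
      rw [hwu, qf_mulVec, Matrix.mul_assoc, huv, Matrix.mul_one]
    rw [h1, ← qf_mulVec, hγ, qf_mulVec, huv]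
  have hdiag := Sieg_diag hqw
  -- a large gap kills the blocks
  have hgap : ∀ r : Fin n, ∀ hr : (r : ℕ) + 1 < n, M * a r < a ⟨r + 1, hr⟩ →
      ∀ i l, i ≤ r → r < l → w i l = 0 := by
    intro r hr hlt
    have hγ0 : ∀ i l, r < i → l ≤ r → rm γ i l = 0 := by
      intro i l hi hl
      by_contra hne
      have hne' : (γ : Matrix (Fin n) (Fin n) ℤ) i l ≠ 0 := by
        intro h0
        apply hne
        rw [rm, Matrix.map_apply, h0]
        simp
      have h1 := lower_of_entry h (fun i => (γ : Matrix (Fin n) (Fin n) ℤ) i l) ⟨r + 1, hr⟩ i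
        (by rw [Fin.le_def]; exact hi) hne' ht
      have h2 : (fun i => (((γ : Matrix (Fin n) (Fin n) ℤ) i l : ℤ) : ℝ)) =
          rm γ *ᵥ Pi.single l 1 := by
        ext k
        simp [rm]
      rw [h2, hγ] at h1
      have h3 := qf_single_le h' ht l
      have h4 := hd2 l
      have h5 := h.mono l r hl
      have hp : 0 < n * t ^ 4 := by positivity
      have h6 : a ⟨r + 1, hr⟩ ≤ M * a r := by
        calc a ⟨r + 1, hr⟩ ≤ t * qf a' u' (Pi.single l 1) := h1
          _ ≤ t * (n * t ^ 3 * a' l) := mul_le_mul_of_nonneg_left h3 ht0.le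
          _ = n * t ^ 4 * a' l := by ring
          _ ≤ n * t ^ 4 * (C₁ * a l) := mul_le_mul_of_nonneg_left h4 hp.le
          _ ≤ n * t ^ 4 * (C₁ * (t * a r)) := by
            refine mul_le_mul_of_nonneg_left (mul_le_mul_of_nonneg_left h5 (by linarith)) hp.le
          _ = M * a r := by rw [hM, hC₁]; ring
      linarith
    have huγ : ∀ i l, r < i → l ≤ r → (u * rm γ) i l = 0 := by
      intro i l hi hl
      rw [Matrix.mul_apply]
      refine Finset.sum_eq_zero fun k _ => ?_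
      rcases lt_or_ge k i with hk | hk
      · rw [h.ut.2 i k hk, zero_mul]
      · rw [hγ0 k l (lt_of_lt_of_le hi hk) hl, mul_zero]
    refine block_diag h.pos h'.pos hdiag r ?_
    intro i l hi hl
    rw [hw, Matrix.mul_apply]
    refine Finset.sum_eq_zero fun k _ => ?_
    rcases lt_or_ge l k with hk | hk
    · rw [hv'.2 k l hk, mul_zero]
    · rw [huγ i k hi (hk.trans hl), zero_mul]
  -- so `w` is bounded
  have hwB : ∀ i l, |w i l| ≤ B := by
    intro i l
    by_cases hw0 : w i l = 0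
    · rw [hw0, abs_zero]
      linarith
    have hal : a l ≤ M ^ n * a i := by
      rcases le_or_gt l i with hli | hil
      · exact (h.mono l i hli).trans (mul_le_mul_of_nonneg_right htMn (h.pos i).le)
      · refine Sieg_chain h.pos hM1 i l hil.le ?_
        intro r hr h1 h2
        by_contra hcon
        push Not at hcon
        exact hw0 (hgap r hr hcon i l h1 h2)
    have h1 : a i * w i l ^ 2 ≤ a i * B := by
      calc a i * w i l ^ 2 ≤ a' l := hcmp i l
        _ ≤ C₁ * a l := hd2 l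
        _ ≤ C₁ * (M ^ n * a i) := mul_le_mul_of_nonneg_left hal (by linarith)
        _ = a i * B := by rw [hB]; ring
    have h2 : w i l ^ 2 ≤ B := le_of_mul_le_mul_left h1 (h.pos i)
    rw [← sq_abs] at h2
    nlinarith [abs_nonneg (w i l)]
  intro i j
  have hcol : ∀ k, |(u *ᵥ (fun k => rm γ k j)) k| ≤ n * (B * t) := by
    intro k
    have h1 : (u *ᵥ (fun k => rm γ k j)) k = (w * u') k j := by
      rw [← hwu]
      rfl
    rw [h1, Matrix.mul_apply]
    calc |∑ l, w k l * u' l j| ≤ ∑ l, |w k l * u' l j| := Finset.abs_sum_le_sum_abs _ _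
      _ ≤ ∑ _l : Fin n, B * t := by
        refine Finset.sum_le_sum fun l _ => ?_
        rw [abs_mul]
        exact mul_le_mul (hwB k l) (h'.le l j) (abs_nonneg _) (by linarith)
      _ = n * (B * t) := by
        rw [Finset.sum_const, Finset.card_univ, Fintype.card_fin, nsmul_eq_mul]
  have h2 := tri_bound h.ut ht0.le (by positivity) h.le (fun k => rm γ k j) hcol i
  linarith

/-- the same for the size -/
theorem siegel_El (n : ℕ) (t : ℝ) (ht : 1 ≤ t) : ∃ C : ℕ, ∀ (P : Matrix (Fin n) (Fin n) ℝ)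
    (g g' : Gm n), Rd t P g → Rd t P g' → El (g⁻¹ * g') ≤ C := by
  obtain ⟨C, hC0, hC⟩ := siegel_fin n t ht
  refine ⟨max 1 (n * ⌈C⌉₊), fun P g g' hg hg' => ?_⟩
  have key : ∀ g g' : Gm n, Rd t P g → Rd t P g' → ∀ i j, |rm (g⁻¹ * g') i j| ≤ (⌈C⌉₊ : ℝ) := by
    intro g g' hg hg' i j
    obtain ⟨a, u, h, hP⟩ := hg
    obtain ⟨a', u', h', hP'⟩ := hg'
    refine (hC a a' u u' (g⁻¹ * g') h h' ?_ i j).trans (Nat.le_ceil C)
    intro x
    rw [← hP, ← hP', Matrix.mulVec_mulVec, ← rm_mul, mul_inv_cancel_left]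
  refine El_le (key g g' hg hg') ?_
  have h1 : (g⁻¹ * g')⁻¹ = g'⁻¹ * g := by group
  rw [h1]
  exact key g' g hg' hg

end Pool.Agent.H.MP_e5d137_al.GLn
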