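import Pool.Agent.H.MP_e5d137_al.GLn.Lag

/-!
# Siegel sets: basic estimates
-/

namespace Pool.Agent.H.MP_e5d137_al.GLn

open Finset Matrix

variable {n : ℕ}

/-- If `γ` is integral and invertible, then for every `j` there are `l ≤ j ≤ i` with
`γ_il ≠ 0` (otherwise the first `j + 1` columns lie in the span of `j` basis vectors). -/
lemma exists_entry (γ : Gm n) (j : Fin n) :
    ∃ i l : Fin n, l ≤ j ∧ j ≤ i ∧ (γ : Matrix (Fin n) (Fin n) ℤ) i l ≠ 0 := by
  classical
  by_contra hcon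
  push Not at hcon
  have hdet : (γ : Matrix (Fin n) (Fin n) ℤ).det = 0 := by
    rw [Matrix.det_apply]
    refine Finset.sum_eq_zero fun σ _ => ?_
    have hex : ∃ l : Fin n, l ≤ j ∧ j ≤ σ l := by
      by_contra hc
      push Not at hc
      have h1 : (Finset.Iic j).map σ.toEmbedding ⊆ Finset.Iio j := by
        intro i hi
        rw [Finset.mem_map] at hi
        obtain ⟨l, hl, rfl⟩ := hi
        exact Finset.mem_Iio.2 (hc l (Finset.mem_Iic.1 hl))
      have h2 := Finset.card_le_card h1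
      rw [Finset.card_map, Fin.card_Iic, Fin.card_Iio] at h2
      omega
    obtain ⟨l, hl, hl'⟩ := hex
    have h0 : ∏ i, (γ : Matrix (Fin n) (Fin n) ℤ) (σ i) i = 0 :=
      Finset.prod_eq_zero (Finset.mem_univ l) (hcon (σ l) l hl hl')
    rw [h0, smul_zero]
  have hu : IsUnit (γ : Matrix (Fin n) (Fin n) ℤ).det :=
    (Matrix.isUnit_iff_isUnit_det _).1 γ.isUnit
  rw [hdet] at hu
  exact not_isUnit_zero hu

/-- If the integral vector `x` has a nonzero entry at a place `≥ i₀` then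
`a_{i₀} ≤ t qf a u x`: for the last nonzero entry `i` of `x` we have `(u x)_i = x_i`, so
`qf a u x ≥ a_i ≥ a_{i₀} / t`. -/
lemma lower_of_entry {t : ℝ} {a : Fin n → ℝ} {u : Matrix (Fin n) (Fin n) ℝ} (h : Sg t a u)
    (x : Fin n → ℤ) (i₀ i : Fin n) (hi : i₀ ≤ i) (hx : x i ≠ 0) (ht : 1 ≤ t) :
    a i₀ ≤ t * qf a u (fun i => (x i : ℝ)) := by
  classical
  have hS : (Finset.univ.filter fun k => x k ≠ 0).Nonempty :=
    ⟨i, Finset.mem_filter.2 ⟨Finset.mem_univ _, hx⟩⟩
  obtain ⟨m, hm⟩ : ∃ m, m = (Finset.univ.filter fun k => x k ≠ 0).max' hS := ⟨_, rfl⟩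
  have hm1 : x m ≠ 0 := by
    have := Finset.max'_mem _ hS
    rw [← hm] at this
    exact (Finset.mem_filter.1 this).2
  have hm2 : ∀ k, m < k → x k = 0 := by
    intro k hk
    by_contra hc
    have hk' : k ∈ Finset.univ.filter fun k => x k ≠ 0 :=
      Finset.mem_filter.2 ⟨Finset.mem_univ _, hc⟩
    have := Finset.le_max' _ k hk'
    rw [← hm] at this
    exact absurd hk (not_lt.2 this)
  have hm3 : i ≤ m := by
    by_contra hc
    exact hx (hm2 i (not_le.1 hc))
  have h1 : (u *ᵥ fun i => (x i : ℝ)) m = x m := by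
    rw [Matrix.mulVec, dotProduct, Finset.sum_eq_single m]
    · rw [h.ut.1 m, one_mul]
    · intro k _ hk
      rcases lt_or_gt_of_ne hk with h2 | h2
      · rw [h.ut.2 m k h2, zero_mul]
      · rw [hm2 k h2]
        simp
    · intro h2
      exact absurd (Finset.mem_univ _) h2
  have h2 : a m ≤ qf a u (fun i => (x i : ℝ)) := by
    have h3 : a m * ((u *ᵥ fun i => (x i : ℝ)) m) ^ 2 ≤ qf a u (fun i => (x i : ℝ)) :=
      Finset.single_le_sum (f := fun i => a i * ((u *ᵥ fun i => (x i : ℝ)) i) ^ 2)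
        (fun i _ => mul_nonneg (h.pos i).le (sq_nonneg _)) (Finset.mem_univ m)
    refine le_trans ?_ h3
    rw [h1]
    have h4 : (1 : ℝ) ≤ (x m : ℝ) ^ 2 := by
      have h5 : 0 < x m ^ 2 := by positivity
      have h6 : 1 ≤ x m ^ 2 := h5
      exact_mod_cast h6
    calc a m = a m * 1 := (mul_one _).symm
      _ ≤ a m * (x m : ℝ) ^ 2 := mul_le_mul_of_nonneg_left h4 (h.pos m).le
  calc a i₀ ≤ t * a m := h.mono i₀ m (hi.trans hm3)
    _ ≤ t * qf a u (fun i => (x i : ℝ)) := mul_le_mul_of_nonneg_left h2 (by linarith)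

/-- the value of a reduced form at a basis vector -/
lemma qf_single_le {t : ℝ} {a : Fin n → ℝ} {u : Matrix (Fin n) (Fin n) ℝ} (h : Sg t a u)
    (ht : 1 ≤ t) (j : Fin n) : qf a u (Pi.single j 1) ≤ n * t ^ 3 * a j := by
  rw [qf_single]
  have h1 : ∀ i ∈ (Finset.univ : Finset (Fin n)), a i * u i j ^ 2 ≤ t ^ 3 * a j := by
    intro i _
    rcases lt_or_ge j i with h2 | h2
    · rw [h.ut.2 i j h2]
      have := h.pos j
      have h3 : (0 : ℝ) ≤ t ^ 3 * a j := by positivity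
      simpa using h3
    · have h3 : u i j ^ 2 ≤ t ^ 2 := by
        rw [← sq_abs]
        exact pow_le_pow_left₀ (abs_nonneg _) (h.le i j) 2
      have h4 := h.mono i j h2
      have h5 := h.pos i
      have h6 := h.pos j
      calc a i * u i j ^ 2 ≤ (t * a j) * t ^ 2 :=
            mul_le_mul h4 h3 (sq_nonneg _) (by positivity)
        _ = t ^ 3 * a j := by ring
  have h2 := Finset.sum_le_card_nsmul Finset.univ _ _ h1
  rw [Finset.card_univ, Fintype.card_fin, nsmul_eq_mul] at h2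
  rw [mul_assoc]
  exact h2

/-- comparison of the diagonal entries: `a_j ≤ n t^5 a'_j` -/
lemma diag_le {t : ℝ} {a a' : Fin n → ℝ} {u u' : Matrix (Fin n) (Fin n) ℝ} (h : Sg t a u)
    (h' : Sg t a' u') (ht : 1 ≤ t) (γ : Gm n) (hγ : ∀ x, qf a u (rm γ *ᵥ x) = qf a' u' x)
    (j : Fin n) : a j ≤ n * t ^ 5 * a' j := by
  obtain ⟨i, l, hl, hi, hne⟩ := exists_entry γ j
  have h1 := lower_of_entry h (fun k => (γ : Matrix (Fin n) (Fin n) ℤ) k l) j i hi hne ht
  have h2 : (fun k => (((γ : Matrix (Fin n) (Fin n) ℤ) k l : ℤ) : ℝ)) =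
      rm γ *ᵥ (Pi.single l 1) := by
    ext k
    simp [rm]
  rw [h2, hγ] at h1
  have h3 := qf_single_le h' ht l
  have h4 := h'.mono l j hl
  have ht0 : (0 : ℝ) ≤ t := by linarith
  calc a j ≤ t * qf a' u' (Pi.single l 1) := h1
    _ ≤ t * (n * t ^ 3 * a' l) := mul_le_mul_of_nonneg_left h3 ht0
    _ ≤ t * (n * t ^ 3 * (t * a' j)) := by
        apply mul_le_mul_of_nonneg_left _ ht0
        apply mul_le_mul_of_nonneg_left h4
        positivity
    _ = n * t ^ 5 * a' j := by ring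

end Pool.Agent.H.MP_e5d137_al.GLn
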